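import Pool.Agent.N101.CB.StmI
import Pool.Agent.N101.CB.Top

/-!
# Definitions
-/

set_option autoImplicit false

namespace Pool.Agent.V7H32.GL

open MvPolynomial Pool.Agent.W428.MOT
open Pool.Agent.N101.CB
open Pool.Agent.H628R4.TP (IsBFunction weylS)

/-! ### topological specialisations -/

section
variable {A : Type} [CommRing A]

/-- `F_{N, ν} = (L - 1) L ^ (-ν) T ^ N / (1 - L ^ (-ν) T ^ N)` -/
noncomputable def FG (L : Aˣ) (N : ℕ) (ν : ℤ) : PowerSeries A :=
  PowerSeries.C ((L : A) - 1) * (PowerSeries.C ((L ^ (-ν) : Aˣ) : A) * PowerSeries.X ^ N) *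
    PowerSeries.invOfUnit (1 - PowerSeries.C ((L ^ (-ν) : Aˣ) : A) * PowerSeries.X ^ N) 1

/-- For functions `N : ι → ℕ` and `ν : ι → ℤ` there is a polynomial `Q` in the variables `ι` with
coefficients in `A` such that `Z = Q(F_{N_i + 1, ν_i})` and `R = (χ Q)(1 / ((N_i + 1) s + ν_i))`. -/
def IsTopG (L : Aˣ) (χ : A →+* ℂ) {ι : Type} (N : ι → ℕ) (ν : ι → ℤ) (Z : PowerSeries A)
    (R : RatFunc ℂ) : Prop :=
  ∃ Q : MvPolynomial ι A, Z = aeval (fun i => FG L (N i + 1) (ν i)) Q ∧
    R = eval₂ ((algebraMap ℂ (RatFunc ℂ)).comp χ)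
      (fun i => (((N i : RatFunc ℂ) + 1) * RatFunc.X + (ν i : RatFunc ℂ))⁻¹) Q

/-- the zeta function of `f + y (u g - 1)`: `w` and `w'` are the classes of the sets `g ≠ 0` and
`g = 0`, `Z` is the zeta function of `f` in the open set `g ≠ 0` -/
noncomputable def ZG (L : Aˣ) (w w' : A) (Z : PowerSeries A) : PowerSeries A :=
  PowerSeries.C w * (PowerSeries.C (L : A) - 1 + FG L 1 1) ^ 2 +
    (1 - FG L 1 1) * (PowerSeries.C (L : A) + FG L 1 1) *
      PowerSeries.rescale ((L⁻¹ : Aˣ) : A) Z +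
    PowerSeries.C (w' * (L : A)) * (PowerSeries.C (L : A) - 1 + FG L 1 1)

end

/-- Let `Z` be a motivic zeta function. `IsTopZ χ Z R`: there is a polynomial `Q` over `𝓜` such that
`Z = Q(F_{N, ν})`, `N ≥ 1`, `ν ∈ ℤ`, and `R = (χ Q)(1 / (N s + ν))`. -/
def IsTopZ (χ : MK ℂ →+* ℂ) (Z : PowerSeries (MK ℂ)) (R : RatFunc ℂ) : Prop :=
  IsTopG (Lu ℂ) χ (ι := ℕ × ℤ) (fun p => p.1) (fun p => p.2) Z R

/-- The usual topological zeta functions: as `IsTopZ`, with `ν ≥ 1`. -/
def IsTopU (χ : MK ℂ →+* ℂ) (Z : PowerSeries (MK ℂ)) (R : RatFunc ℂ) : Prop :=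
  IsTopG (Lu ℂ) χ (ι := ℕ × ℕ) (fun p => p.1) (fun p => (p.2 : ℤ) + 1) Z R

/-! ### the conjectures -/

section
variable {n : ℕ}

/-- `f + y (u g - 1)` -/
noncomputable def yug (f g : MvPolynomial (Fin n) ℂ) : MvPolynomial (Fin (n + 2)) ℂ :=
  rename (Fin.castAdd 2) f +
    X (Fin.natAdd n 0) * (X (Fin.natAdd n 1) * rename (Fin.castAdd 2) g - 1)

/-- the singular points of the hypersurface `f = 0` -/
def Sg (f : MvPolynomial (Fin n) ℂ) : Set (Fin n → ℂ) :=
  {z | eval z f = 0 ∧ ∀ i, eval z (pderiv i f) = 0}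

/-- the singular points of the hypersurface `f = 0` in the open set `g ≠ 0` -/
def SgOn (f g : MvPolynomial (Fin n) ℂ) : Set (Fin n → ℂ) := {z | z ∈ Sg f ∧ eval z g ≠ 0}

end

/-- A functional equation on the open set `g ≠ 0`: `b(s) f ^ s = P(s) f ^ (s + 1)` with
`P = g ^ (-k) ∑_m P_m s ^ m`, `P_m` in the Weyl algebra. The equation is stated for all `s ∈ ℕ`. -/
def IsBOn {n : ℕ} (g f : MvPolynomial (Fin n) ℂ) (b : Polynomial ℂ) : Prop :=
  ∃ (k : ℕ) (P : ℕ →₀ weylS (Fin n)), ∀ s : ℕ, C (b.eval (s : ℂ)) * (g ^ k * f ^ s) =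
    P.sum fun m Q => ((s : ℂ) ^ m) • (Q : Module.End ℂ (MvPolynomial (Fin n) ℂ)) (f ^ (s + 1))

/-- For `o = false`: if `b(s) ≠ 0`, then `R` is regular at `s`, so a pole `s` is a root of `b`.
For `o = true`: `b R` is regular at `s`, so the order of a pole `s` of `R` is at most the
multiplicity of the root `s` of `b`. -/
def PR (o : Bool) (b : Polynomial ℂ) (R : RatFunc ℂ) (s : ℂ) : Prop :=
  if o then Reg (algebraMap (Polynomial ℂ) (RatFunc ℂ) b * R) s else (b.eval s ≠ 0 → Reg R s)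

/-- The motivic zeta function `zt f W` of `f` with origins in `W` has a topological specialisation
`R`, and its poles in the negative rational numbers are roots of `b` (with multiplicities, if
`o = true`). -/
def Cj (χ : MK ℂ →+* ℂ) (o : Bool) {n : ℕ} (f : MvPolynomial (Fin n) ℂ)
    (W : Set (Pt ℂ (Fin n))) (b : Polynomial ℂ) : Prop :=
  ∃ R : RatFunc ℂ, IsTopZ χ (zt f W) R ∧ ∀ q : ℚ, q < 0 → PR o b R (q : ℂ)

section
variable (χ : MK ℂ →+* ℂ) (o : Bool)

/-- **The global conjecture** for all hypersurfaces with at most `k` singular points: `f` is a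
non-constant polynomial, `b(s) f ^ s = P(s) f ^ (s + 1)`, and the origins of the arcs are arbitrary. -/
def GlobC (k : ℕ∞) : Prop := ∀ (n : ℕ) (f : MvPolynomial (Fin n) ℂ), f.totalDegree ≠ 0 →
  (Sg f).encard ≤ k → ∀ b : Polynomial ℂ, IsBFunction f b → Cj χ o f Set.univ b

/-- **The conjecture on open sets**: the hypersurface `f = 0` has at most `k` singular points in the open
set `g ≠ 0`, `b(s) f ^ s = P(s) f ^ (s + 1)` on this open set, and the origins of the arcs are in an
arbitrary constructible subset `W` of this open set. -/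
def OpenC (k : ℕ∞) : Prop := ∀ (n : ℕ) (f : MvPolynomial (Fin n) ℂ), f.totalDegree ≠ 0 →
  ∀ g : MvPolynomial (Fin n) ℂ, (SgOn f g).encard ≤ k → ∀ b : Polynomial ℂ, IsBOn g f b →
    ∀ W : Set (Pt ℂ (Fin n)), Constr W → (∀ z ∈ W, aeval z g ≠ 0) → Cj χ o f W b

/-- a point of `ℂ ^ n` as a geometric point -/
noncomputable def pt {n : ℕ} (a : Fin n → ℂ) : Pt ℂ (Fin n) := fun i => algebraMap ℂ _ (a i)

/-- **The local conjecture**: `a` is a point of the hypersurface `f = 0`, there are at most `k` singular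
points in a neighbourhood `g ≠ 0` of `a`, and `b(s) f ^ s = P(s) f ^ (s + 1)` on this neighbourhood. -/
def PointC (k : ℕ∞) : Prop := ∀ (n : ℕ) (f : MvPolynomial (Fin n) ℂ), f.totalDegree ≠ 0 →
  ∀ a : Fin n → ℂ, eval a f = 0 → ∀ g : MvPolynomial (Fin n) ℂ, eval a g ≠ 0 →
    (SgOn f g).encard ≤ k → ∀ b : Polynomial ℂ, IsBOn g f b → Cj χ o f {pt a} b

/-- The theorem of Denef and Loeser: the topological zeta function of `f` with origins in `W` is
`∑_j χ(W ∩ S_j) R_j`, for a finite constructible partition `S_j` of the affine space. -/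
def DenefLoeser : Prop := ∀ (n : ℕ) (f : MvPolynomial (Fin n) ℂ), f.totalDegree ≠ 0 →
  ∃ (l : ℕ) (S : Fin l → Set (Pt ℂ (Fin n))) (R : Fin l → RatFunc ℂ),
    (∀ j, Constr (S j)) ∧ (∀ i j, i ≠ j → Disjoint (S i) (S j)) ∧ (∀ z, ∃ j, z ∈ S j) ∧
    ∀ W : Set (Pt ℂ (Fin n)), Constr W → IsTopZ χ (zt f W)
      (∑ j, algebraMap (Polynomial ℂ) (RatFunc ℂ) (Polynomial.C (χ (clM (W ∩ S j)))) * R j)

/-- **The conjecture for finitely many singular points**: there are finitely many singular points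
in the open set `g ≠ 0`, `b(s) f ^ s = P(s) f ^ (s + 1)` on this open set, and the origins of the arcs are
in an arbitrary constructible subset `W` of this open set. -/
def FinC : Prop := ∀ (n : ℕ) (f : MvPolynomial (Fin n) ℂ), f.totalDegree ≠ 0 →
  ∀ g : MvPolynomial (Fin n) ℂ, (SgOn f g).Finite → ∀ b : Polynomial ℂ, IsBOn g f b →
    ∀ W : Set (Pt ℂ (Fin n)), Constr W → (∀ z ∈ W, aeval z g ≠ 0) → Cj χ o f W b

end

/-! ### hypergraph polynomials -/

/-- `f = ∑_i c_i x_i + ∑_{e ∈ H} ∏_{i ∈ e} x_i`, where the elements `e` of `H` are sets of two or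
three variables, every variable occurs in at most three of the monomials of `f`, and the variables can
be divided into two classes `T` and `Tᶜ` such that every `e ∈ H` has at most one element in `T` and at
most two elements in `Tᶜ`. -/
def HF {K : Type} [Field K] {n : ℕ} (f : MvPolynomial (Fin n) K) : Prop :=
  ∃ (c : Fin n → K) (H : Finset (Finset (Fin n))),
    f = ∑ i, C (c i) * X i + ∑ e ∈ H, ∏ i ∈ e, X i ∧
    (∀ e ∈ H, e.card = 2 ∨ e.card = 3) ∧
    (∀ i, c i = 0 → (H.filter fun e => i ∈ e).card ≤ 3) ∧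
    (∀ i, c i ≠ 0 → (H.filter fun e => i ∈ e).card ≤ 2) ∧
    ∃ T : Finset (Fin n), ∀ e ∈ H, (e ∩ T).card ≤ 1 ∧ (e \ T).card ≤ 2

/-! ### trilinear forms -/

/-- the degree of the monomial `m` in the variables of the group `c` -/
def sc {n : ℕ} (col : Fin n → Fin 3) (c : Fin 3) (m : Fin n →₀ ℕ) : ℕ :=
  ∑ i, if col i = c then m i else 0

/-- The variables can be divided into three groups such that all monomials of `f` have degree at most
one in each of the groups: `f` is the equation of a hyperplane section of a Segre variety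
`ℙ ^ p × ℙ ^ q × ℙ ^ r` in an affine chart. -/
def Col3 {K : Type} [Field K] {n : ℕ} (f : MvPolynomial (Fin n) K) : Prop :=
  ∃ col : Fin n → Fin 3, ∀ m ∈ f.support, ∀ c, sc col c m ≤ 1

/-- **The conjecture for hyperplane sections of Segre varieties**, in the affine chart, with at most `k`
singular points in this chart. -/
def SegreC (χ : MK ℂ →+* ℂ) (o : Bool) (k : ℕ∞) : Prop :=
  ∀ (n : ℕ) (f : MvPolynomial (Fin n) ℂ), Col3 f → f.totalDegree ≠ 0 → (Sg f).encard ≤ k →
    ∀ b : Polynomial ℂ, IsBFunction f b → Cj χ o f Set.univ b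

/-- `f` is a trilinear form in the three groups of variables given by `col`: all monomials have degree
one in each of the groups. -/
def Tri {K : Type} [Field K] {n : ℕ} (col : Fin n → Fin 3) (f : MvPolynomial (Fin n) K) : Prop :=
  ∀ m ∈ f.support, ∀ c, sc col c m = 1

/-- **The conjecture for trilinear forms**: `f` is a trilinear form, `i_0, i_1, i_2` are variables, one of
each group, `b(s) f ^ s = P(s) f ^ (s + 1)` on the open set where these three variables are not zero,
and the origins of the arcs are the points where they are equal to one. -/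
def TriOpenC (χ : MK ℂ →+* ℂ) (o : Bool) : Prop :=
  ∀ (n : ℕ) (f : MvPolynomial (Fin n) ℂ) (col : Fin n → Fin 3) (i : Fin 3 → Fin n),
    (∀ c, col (i c) = c) → Tri col f → f.totalDegree ≠ 0 →
    ∀ b : Polynomial ℂ, IsBOn (∏ c, X (i c)) f b → Cj χ o f {w | ∀ c, w (i c) = 1} b

/-- **The local conjecture for trilinear forms**, at the points `a` where three variables, one of each
group, are equal to one. -/
def TriPointC (χ : MK ℂ →+* ℂ) (o : Bool) : Prop :=
  ∀ (n : ℕ) (f : MvPolynomial (Fin n) ℂ) (col : Fin n → Fin 3) (i : Fin 3 → Fin n),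
    (∀ c, col (i c) = c) → Tri col f → f.totalDegree ≠ 0 →
    ∀ a : Fin n → ℂ, (∀ c, a (i c) = 1) → eval a f = 0 →
    ∀ g : MvPolynomial (Fin n) ℂ, eval a g ≠ 0 →
    ∀ b : Polynomial ℂ, IsBOn g f b → Cj χ o f {pt a} b

end Pool.Agent.V7H32.GL
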