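import Pool.Agent.V7H32.GL.Norm
import Pool.Agent.V7H32.GL.Defs

/-!
# The polynomial of a hypergraph
-/

set_option autoImplicit false

namespace Pool.Agent.V7H32.GL

open MvPolynomial
open Pool.Agent.N101.CB (stp Cub)
open Pool.Agent.N101.CB.RED

section
variable {K : Type} [Field K] {n : ℕ}

theorem mono_sqf {m : Fin n →₀ ℕ} (h : ∀ i, m i ≤ 1) :
    (monomial m 1 : MvPolynomial (Fin n) K) = ∏ i ∈ m.support, X i := by
  rw [monomial_eq, C_1, one_mul, Finsupp.prod]
  refine Finset.prod_congr rfl fun i hi => ?_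
  have h1 := h i
  have h2 := Finsupp.mem_support_iff.1 hi
  have h3 : m i = 1 := by omega
  rw [h3, pow_one]

theorem sqf_inj {m m' : Fin n →₀ ℕ} (h : ∀ i, m i ≤ 1) (h' : ∀ i, m' i ≤ 1)
    (e : m.support = m'.support) : m = m' := by
  ext i
  have h1 := h i
  have h2 := h' i
  have h3 : m i ≠ 0 ↔ m' i ≠ 0 := by
    rw [← Finsupp.mem_support_iff, ← Finsupp.mem_support_iff, e]
  omega

theorem card_sqf {m : Fin n →₀ ℕ} (h : ∀ i, m i ≤ 1) : m.support.card = ∑ i, m i := by
  rw [Finset.card_eq_sum_ones, ← Finset.sum_subset (Finset.subset_univ m.support)]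
  · refine Finset.sum_congr rfl fun i hi => ?_
    have h1 := h i
    have h2 := Finsupp.mem_support_iff.1 hi
    omega
  · intro i _ hi
    exact Finsupp.notMem_support_iff.1 hi

theorem card_inter_le (m : Fin n →₀ ℕ) (T : Finset (Fin n)) :
    (m.support ∩ T).card ≤ ∑ i ∈ T, m i := by
  rw [Finset.card_eq_sum_ones]
  refine (Finset.sum_le_sum fun i hi => ?_).trans
    (Finset.sum_le_sum_of_subset (Finset.inter_subset_right))
  have := Finsupp.mem_support_iff.1 (Finset.mem_inter.1 hi).1
  omega

theorem deg_one {m : Fin n →₀ ℕ} (h : ∑ i, m i = 1) : ∃ i, m = Finsupp.single i 1 := by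
  obtain ⟨i, hi⟩ : ∃ i, m i ≠ 0 := by
    by_contra hne
    push Not at hne
    rw [Finset.sum_eq_zero fun i _ => hne i] at h
    omega
  refine ⟨i, ?_⟩
  have h1 := Finset.add_sum_erase Finset.univ (fun i => m i) (Finset.mem_univ i)
  have h2 : ∑ j ∈ Finset.univ.erase i, m j = 0 := by omega
  have h3 : m i = 1 := by omega
  ext j
  by_cases hj : j = i
  · rw [hj, Finsupp.single_eq_same, h3]
  · rw [Finsupp.single_eq_of_ne hj]
    exact (Finset.sum_eq_zero_iff.1 h2) j (Finset.mem_erase.2 ⟨hj, Finset.mem_univ j⟩)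

/-- **The normal form is the polynomial of a hypergraph and a linear form.** -/
theorem nf_hf {f : MvPolynomial (Fin n) K} (h : NF f) : HF f := by
  classical
  obtain ⟨⟨⟨T, hT⟩, hocc⟩, h0, h1⟩ := h
  have hsq : ∀ m ∈ f.support, ∀ i, m i ≤ 1 := fun m hm => (hT m hm).1
  have hne : ∀ m ∈ f.support, ∑ i, m i ≠ 0 := by
    intro m hm hz
    have e : m = 0 := by
      ext i
      exact (Finset.sum_eq_zero_iff.1 hz) i (Finset.mem_univ i)
    rw [e] at hm
    exact (mem_support_iff.1 hm) h0
  set A := f.support.filter (fun m => 2 ≤ ∑ i, m i) with hA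
  set B := f.support.filter (fun m => ¬ 2 ≤ ∑ i, m i) with hB
  have hAs : ∀ m ∈ A, m ∈ f.support ∧ 2 ≤ ∑ i, m i := fun m hm => Finset.mem_filter.1 hm
  have hinj : Set.InjOn (fun m : Fin n →₀ ℕ => m.support) (A : Set (Fin n →₀ ℕ)) := by
    intro m hm m' hm' e
    exact sqf_inj (hsq m (hAs m hm).1) (hsq m' (hAs m' hm').1) e
  refine ⟨fun i => coeff (Finsupp.single i 1) f, A.image fun m => m.support, ?_, ?_, ?_, ?_,
    T, ?_⟩
  · have e1 : f = ∑ m ∈ B, monomial m (coeff m f) + ∑ m ∈ A, monomial m (coeff m f) := by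
      rw [add_comm, hA, hB, Finset.sum_filter_add_sum_filter_not]
      exact (support_sum_monomial_coeff f).symm
    have e2 : ∑ m ∈ A, monomial m (coeff m f) =
        ∑ e ∈ A.image (fun m => m.support), ∏ i ∈ e, (X i : MvPolynomial (Fin n) K) := by
      rw [Finset.sum_image hinj]
      refine Finset.sum_congr rfl fun m hm => ?_
      rw [h1 m (hAs m hm).1 (hAs m hm).2, mono_sqf (hsq m (hAs m hm).1)]
    have e3 : ∑ m ∈ B, monomial m (coeff m f) =
        ∑ i, C (coeff (Finsupp.single i 1) f) * (X i : MvPolynomial (Fin n) K) := by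
      have hs : Function.Injective (fun i : Fin n => (Finsupp.single i 1 : Fin n →₀ ℕ)) :=
        Finsupp.single_left_injective one_ne_zero
      have e4 : ∑ i, C (coeff (Finsupp.single i 1) f) * (X i : MvPolynomial (Fin n) K) =
          ∑ m ∈ Finset.univ.image (fun i : Fin n => (Finsupp.single i 1 : Fin n →₀ ℕ)),
            monomial m (coeff m f) := by
        rw [Finset.sum_image fun a _ b _ h => hs h]
        refine Finset.sum_congr rfl fun i _ => ?_
        rw [C_mul_X_eq_monomial]
      rw [e4]
      refine Finset.sum_subset ?_ ?_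
      · intro m hm
        rw [hB, Finset.mem_filter] at hm
        have h5 := hne m hm.1
        obtain ⟨i, hi⟩ := deg_one (m := m) (by omega)
        rw [hi]
        exact Finset.mem_image_of_mem _ (Finset.mem_univ i)
      · intro m hm hmB
        obtain ⟨i, -, rfl⟩ := Finset.mem_image.1 hm
        have h5 : coeff (Finsupp.single i 1) f = 0 := by
          by_contra hc
          apply hmB
          rw [hB, Finset.mem_filter]
          refine ⟨mem_support_iff.2 hc, ?_⟩
          have : ∑ j, (Finsupp.single i 1 : Fin n →₀ ℕ) j = 1 := by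
            simp [Finsupp.single_apply]
          omega
        rw [h5, map_zero]
    rw [← e3, ← e2]
    exact e1
  · intro e he
    obtain ⟨m, hm, rfl⟩ := Finset.mem_image.1 he
    obtain ⟨h2, h3⟩ := hAs m hm
    rw [card_sqf (hsq m h2)]
    obtain ⟨-, h4, h5⟩ := hT m h2
    have h6 := Finset.sum_add_sum_compl T (fun i => m i)
    omega
  · intro i _
    refine le_trans ?_ (hocc i)
    refine le_trans (Finset.card_le_card ?_) (Finset.card_image_le (f := fun m => m.support))
    intro e he
    rw [Finset.mem_filter] at he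
    obtain ⟨m, hm, rfl⟩ := Finset.mem_image.1 he.1
    rw [Finset.mem_image]
    exact ⟨m, Finset.mem_filter.2 ⟨(hAs m hm).1, Finsupp.mem_support_iff.1 he.2⟩, rfl⟩
  · intro i hi
    have h2 : (A.filter fun m => m i ≠ 0).card + 1 ≤ 3 := by
      refine le_trans ?_ (hocc i)
      rw [← Finset.card_singleton (Finsupp.single i 1 : Fin n →₀ ℕ),
        ← Finset.card_union_of_disjoint]
      · refine Finset.card_le_card ?_
        intro m hm
        rw [Finset.mem_union, Finset.mem_singleton] at hm
        rw [Finset.mem_filter]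
        rcases hm with hm | rfl
        · rw [Finset.mem_filter] at hm
          exact ⟨(hAs m hm.1).1, hm.2⟩
        · refine ⟨mem_support_iff.2 hi, ?_⟩
          rw [Finsupp.single_eq_same]
          exact one_ne_zero
      · rw [Finset.disjoint_singleton_right, Finset.mem_filter]
        rintro ⟨h3, -⟩
        have h4 := (hAs _ h3).2
        have : ∑ j, (Finsupp.single i 1 : Fin n →₀ ℕ) j = 1 := by
          simp [Finsupp.single_apply]
        omega
    have h3 : ((A.image fun m => m.support).filter fun e => i ∈ e).card ≤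
        (A.filter fun m => m i ≠ 0).card := by
      refine le_trans (Finset.card_le_card ?_) (Finset.card_image_le (f := fun m => m.support))
      intro e he
      rw [Finset.mem_filter] at he
      obtain ⟨m, hm, rfl⟩ := Finset.mem_image.1 he.1
      rw [Finset.mem_image]
      exact ⟨m, Finset.mem_filter.2 ⟨hm, Finsupp.mem_support_iff.1 he.2⟩, rfl⟩
    omega
  · intro e he
    obtain ⟨m, hm, rfl⟩ := Finset.mem_image.1 he
    obtain ⟨-, h4, h5⟩ := hT m (hAs m hm).1
    refine ⟨(card_inter_le m T).trans h4, ?_⟩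
    rw [Finset.sdiff_eq_inter_compl]
    exact (card_inter_le m Tᶜ).trans h5

end

end Pool.Agent.V7H32.GL
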