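import Pool.Agent.V7H32.GL.Zt
import Pool.Agent.W21.MTSub

/-!
# The motivic zeta function at smooth points
-/

set_option autoImplicit false

namespace Pool.Agent.V7H32.GL

open MvPolynomial Pool.Agent.W428.MOT Pool.Agent.W375.MT Pool.Agent.Y229.MS
open Pool.Agent.W375.MG (JetG Good)
open Pool.Agent.Z864.MS (coeff_zero_aeval constr_JetE)
open Pool.Agent.N101.CB
open Pool.Agent.W63.MTFin (geo_mul)

section
variable {K : Type} [Field K] {n : ℕ}

/-- **Taylor's formula** for one coefficient of one coordinate. -/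
theorem taylor (f : MvPolynomial (Fin n) K) (i : Fin n) (k : ℕ) (hk : 1 ≤ k)
    (γ δ : Fin n → PowerSeries (AlgebraicClosure K)) (c : AlgebraicClosure K)
    (hi : δ i = γ i + PowerSeries.C c * PowerSeries.X ^ k) (hj : ∀ j, j ≠ i → δ j = γ j) :
    ∃ r : PowerSeries (AlgebraicClosure K), aeval δ f = aeval γ f +
      PowerSeries.C c * PowerSeries.X ^ k * aeval γ (pderiv i f) + PowerSeries.X ^ (k + 1) * r := by
  induction f using MvPolynomial.induction_on with
  | C a =>
    refine ⟨0, ?_⟩
    rw [algHom_C, algHom_C, pderiv_C, map_zero]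
    ring
  | add p q hp hq =>
    obtain ⟨r, hr⟩ := hp
    obtain ⟨r', hr'⟩ := hq
    refine ⟨r + r', ?_⟩
    rw [map_add, map_add, map_add, map_add, hr, hr']
    ring
  | mul_X p j hp =>
    obtain ⟨r, hr⟩ := hp
    rw [map_mul, map_mul, aeval_X, aeval_X, Derivation.leibniz, map_add, smul_eq_mul, smul_eq_mul,
      map_mul, map_mul, aeval_X, hr]
    by_cases h : j = i
    · subst h
      rw [hi, pderiv_X_self, map_one]
      obtain ⟨l, rfl⟩ : ∃ l, k = l + 1 := ⟨k - 1, by omega⟩
      refine ⟨r * (γ j + PowerSeries.C c * PowerSeries.X ^ (l + 1)) +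
        PowerSeries.C c * PowerSeries.C c * PowerSeries.X ^ l * aeval γ (pderiv j p), ?_⟩
      ring
    · rw [hj j h, pderiv_X_of_ne h, map_zero]
      exact ⟨r * γ j, by ring⟩

variable {N : ℕ}

theorem arc_upd (w : Pt K (Fin n × Fin (N + 1))) (i : Fin n) (k : Fin (N + 1))
    (c : AlgebraicClosure K) : arc (Function.update w (i, k) c) i =
      arc w i + PowerSeries.C (c - w (i, k)) * PowerSeries.X ^ (k : ℕ) := by
  ext l
  rw [map_add, PowerSeries.coeff_C_mul, PowerSeries.coeff_X_pow]
  by_cases hl : l < N + 1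
  · rw [coeff_arc _ _ _ hl, coeff_arc _ _ _ hl]
    by_cases h : l = k
    · subst h
      rw [if_pos rfl, mul_one]
      have e : ((i, ⟨(k : ℕ), hl⟩) : Fin n × Fin (N + 1)) = (i, k) := rfl
      rw [e, Function.update_self]
      ring
    · rw [if_neg h, mul_zero, add_zero, Function.update_of_ne]
      intro h2
      exact h (congrArg Fin.val (Prod.ext_iff.1 h2).2)
  · have hk : l ≠ k := by
      have := k.2
      omega
    rw [if_neg hk, mul_zero, add_zero]
    simp only [arc, PowerSeries.coeff_mk, dif_neg hl]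

theorem arc_upd_ne (w : Pt K (Fin n × Fin (N + 1))) (i j : Fin n) (k : Fin (N + 1))
    (c : AlgebraicClosure K) (h : j ≠ i) : arc (Function.update w (i, k) c) j = arc w j :=
  arc_congr' _ _ _ fun l => by
    rw [Function.update_of_ne]
    intro h2
    exact h (Prod.ext_iff.1 h2).1

/-- the coefficient `l` of `f` along a jet -/
noncomputable def hl (f : MvPolynomial (Fin n) K) (l : ℕ) (w : Pt K (Fin n × Fin (N + 1))) :
    AlgebraicClosure K := PowerSeries.coeff l (aeval (arc w) f)

theorem isPF_hl (f : MvPolynomial (Fin n) K) (l : ℕ) :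
    IsPF (fun w : Pt K (Fin n × Fin (N + 1)) => hl f l w) :=
  IsPA.aeval (fun i z => arc z i) (fun i => isPA_arc i) f l

/-- the derivative at the origin of the jet -/
noncomputable def dl (f : MvPolynomial (Fin n) K) (i : Fin n) (w : Pt K (Fin n × Fin (N + 1))) :
    AlgebraicClosure K := aeval (fun j => w (j, 0)) (pderiv i f)

theorem isPF_dl (f : MvPolynomial (Fin n) K) (i : Fin n) :
    IsPF (fun w : Pt K (Fin n × Fin (N + 1)) => dl f i w) :=
  (IsPF.poly (pderiv i f)).comp (fun w j => w (j, 0)) fun _ => IsPF.coord _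

theorem orig_upd (w : Pt K (Fin n × Fin (N + 1))) (i : Fin n) (k : Fin (N + 1)) (hk : k ≠ 0)
    (c : AlgebraicClosure K) : (fun j => Function.update w (i, k) c (j, 0)) =
      fun j => w (j, 0) := by
  funext j
  rw [Function.update_of_ne]
  intro h2
  exact hk (Prod.ext_iff.1 h2).2.symm

section
variable (f : MvPolynomial (Fin n) K) (w : Pt K (Fin n × Fin (N + 1))) (i : Fin n)
  (k : Fin (N + 1)) (hk : k ≠ 0) (c : AlgebraicClosure K)
include hk

theorem dl_upd : dl f i (Function.update w (i, k) c) = dl f i w := by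
  unfold dl
  rw [orig_upd w i k hk c]

theorem hl_lt (l : ℕ) (hlk : l < k) : hl f l (Function.update w (i, k) c) = hl f l w := by
  have hk1 : 1 ≤ (k : ℕ) := by
    rw [Nat.one_le_iff_ne_zero]
    intro h
    exact hk (Fin.ext h)
  obtain ⟨r, hr⟩ := taylor f i k hk1 (arc w) (arc (Function.update w (i, k) c)) _
    (arc_upd w i k c) fun j hj => arc_upd_ne w i j k c hj
  unfold hl
  rw [hr, map_add, map_add, mul_assoc, PowerSeries.coeff_C_mul, PowerSeries.coeff_X_pow_mul',
    PowerSeries.coeff_X_pow_mul', if_neg (by omega), if_neg (by omega)]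
  ring

theorem hl_eq : hl f k (Function.update w (i, k) c) = hl f k w + (c - w (i, k)) * dl f i w := by
  have hk1 : 1 ≤ (k : ℕ) := by
    rw [Nat.one_le_iff_ne_zero]
    intro h
    exact hk (Fin.ext h)
  obtain ⟨r, hr⟩ := taylor f i k hk1 (arc w) (arc (Function.update w (i, k) c)) _
    (arc_upd w i k c) fun j hj => arc_upd_ne w i j k c hj
  unfold hl dl
  rw [hr, map_add, map_add, mul_assoc, PowerSeries.coeff_C_mul, PowerSeries.coeff_X_pow_mul',
    PowerSeries.coeff_X_pow_mul', if_pos le_rfl, if_neg (by omega), Nat.sub_self,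
    coeff_zero_aeval]
  ring

end

/-- the conditions on the coefficients -/
def El (E : Set (AlgebraicClosure K)) (N l : ℕ) : Set (AlgebraicClosure K) :=
  if l < N then {0} else E

theorem ce_El {E : Set (AlgebraicClosure K)} (hE : CE E) (N l : ℕ) : CE (El E N l) := by
  unfold El
  split_ifs
  · exact ce_zero
  · exact hE

/-- the intermediate sets -/
noncomputable def Si (f : MvPolynomial (Fin n) K) (W : Set (Pt K (Fin n)))
    (E : Set (AlgebraicClosure K)) (i : Fin n) (t : ℕ) : Set (Pt K (Fin n × Fin (N + 1))) :=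
  {w | (fun j => w (j, 0)) ∈ W ∧ ∀ l : Fin (N + 1), l ≠ 0 →
    (if (l : ℕ) < t then hl f l w else w (i, l)) ∈ El E N l}

theorem constr_Si (f : MvPolynomial (Fin n) K) {W : Set (Pt K (Fin n))} (hW : Constr W)
    {E : Set (AlgebraicClosure K)} (hE : CE E) (i : Fin n) (t : ℕ) :
    Constr (Si (N := N) f W E i t) := by
  unfold Si
  refine Constr.and (hW.preimage _ fun j => IsPF.coord _) (Constr.all fun l =>
    Constr.imp' fun _ => ?_)
  split_ifs with h
  · exact ce_El hE N l _ (isPF_hl f l)
  · exact ce_El hE N l _ (IsPF.coord _)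

theorem Si_top (f : MvPolynomial (Fin n) K) {W : Set (Pt K (Fin n))}
    (hW : ∀ z ∈ W, aeval z f = 0) (E : Set (AlgebraicClosure K)) (i : Fin n) (hN : 1 ≤ N) :
    JetG f W E N = Si f W E i (N + 1) := by
  ext w
  constructor
  · rintro ⟨h1, h2, h3⟩
    refine ⟨h1, fun l _ => ?_⟩
    rw [if_pos l.2]
    unfold El
    split_ifs with h
    · exact h2 l h
    · have : (l : ℕ) = N := by
        have := l.2
        omega
      rw [this]
      exact h3
  · rintro ⟨h1, h2⟩
    refine ⟨h1, fun j hj => ?_, ?_⟩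
    · by_cases hj0 : j = 0
      · subst hj0
        rw [coeff_zero_aeval]
        exact hW _ h1
      · have := h2 ⟨j, by omega⟩ (fun h => hj0 (congrArg Fin.val h))
        rw [if_pos (by show j < N + 1; omega)] at this
        unfold El at this
        rw [if_pos (by show j < N; exact hj)] at this
        exact this
    · have := h2 (Fin.last N) (fun h => by
        have h5 := congrArg Fin.val h
        simp only [Fin.val_last, Fin.val_zero] at h5
        omega)
      rw [if_pos (by rw [Fin.val_last]; omega)] at this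
      unfold El at this
      rw [if_neg (by rw [Fin.val_last]; omega)] at this
      have e : hl f ((Fin.last N : Fin (N + 1)) : ℕ) w = PowerSeries.coeff N (aeval (arc w) f) := by
        unfold hl
        rw [Fin.val_last]
      rw [e] at this
      exact this

theorem Si_step {R : Type} [CommRing R] (M : Meas K R) (f : MvPolynomial (Fin n) K)
    {W : Set (Pt K (Fin n))} (hW : Constr W) {E : Set (AlgebraicClosure K)} (hE : CE E)
    (i : Fin n) (hi : ∀ z ∈ W, aeval z (pderiv i f) ≠ 0) (t : ℕ) (ht : 1 ≤ t) (htN : t < N + 1) :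
    M.χ _ (Si (N := N) f W E i (t + 1)) = M.χ _ (Si (N := N) f W E i t) := by
  classical
  have hk : (⟨t, htN⟩ : Fin (N + 1)) ≠ 0 := by
    intro h
    have := congrArg Fin.val h
    simp only [Fin.val_zero] at this
    omega
  refine Pool.Agent.W21.MTSub.main M _ _ (i, (⟨t, htN⟩ : Fin (N + 1)))
    (fun w => dl f i w) (fun w => hl f t w - dl f i w * w (i, ⟨t, htN⟩))
    (constr_Si f hW hE i (t + 1)) (constr_Si f hW hE i t) (isPF_dl f i)
    ((isPF_hl f t).sub ((isPF_dl f i).mul (IsPF.coord _))) (fun z c => dl_upd f z i _ hk c)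
    (fun z c => ?_) (fun z hz => hi _ hz.1) (fun z hz => hi _ hz.1) ?_
  · have h1 : hl f t (Function.update z (i, ⟨t, htN⟩) c) =
        hl f t z + (c - z (i, ⟨t, htN⟩)) * dl f i z := hl_eq f z i ⟨t, htN⟩ hk c
    show hl f t (Function.update z (i, ⟨t, htN⟩) c) - dl f i (Function.update z (i, ⟨t, htN⟩) c) *
      Function.update z (i, ⟨t, htN⟩) c (i, ⟨t, htN⟩) = hl f t z - dl f i z * z (i, ⟨t, htN⟩)
    rw [h1, dl_upd f z i _ hk c, Function.update_self]
    ring
  · intro w _
    have e : dl f i w * w (i, ⟨t, htN⟩) + (hl f t w - dl f i w * w (i, ⟨t, htN⟩)) = hl f t w := by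
      ring
    rw [e]
    unfold Si
    simp only [Set.mem_ofPred_eq]
    rw [orig_upd w i _ hk]
    refine and_congr_right fun _ => forall₂_congr fun l _ => ?_
    rcases lt_trichotomy (l : ℕ) t with h | h | h
    · rw [if_pos (by omega), if_pos h, hl_lt f w i ⟨t, htN⟩ hk _ l h]
    · have hl' : l = ⟨t, htN⟩ := Fin.ext h
      rw [if_pos (by omega), if_neg (by omega), hl', Function.update_self]
    · rw [if_neg (by omega), if_neg (by omega), Function.update_of_ne]
      intro h2
      have := congrArg Fin.val (Prod.ext_iff.1 h2).2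
      simp only at this
      omega

theorem Si_all {R : Type} [CommRing R] (M : Meas K R) (f : MvPolynomial (Fin n) K)
    {W : Set (Pt K (Fin n))} (hW : Constr W) {E : Set (AlgebraicClosure K)} (hE : CE E)
    (i : Fin n) (hi : ∀ z ∈ W, aeval z (pderiv i f) ≠ 0) :
    ∀ t, t ≤ N → M.χ _ (Si (N := N) f W E i (t + 1)) = M.χ _ (Si (N := N) f W E i 1) := by
  intro t
  induction t with
  | zero => intro _; rfl
  | succ t ih =>
    intro ht
    rw [Si_step M f hW hE i hi (t + 1) (by omega) (by omega), ih (by omega)]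

/-- the jets without higher coefficients -/
def Z0 (W : Set (Pt K (Fin n))) : Set (Pt K (Fin n × Fin (N + 1))) :=
  {w | (fun j => w (j, 0)) ∈ W ∧ ∀ (j : Fin n) (l : Fin (N + 1)), l ≠ 0 → w (j, l) = 0}

theorem constr_Z0 {W : Set (Pt K (Fin n))} (hW : Constr W) : Constr (Z0 (N := N) W) := by
  unfold Z0
  exact Constr.and (hW.preimage _ fun j => IsPF.coord _) (Constr.all fun j => Constr.all fun l =>
    Constr.imp' fun _ => Constr.eqz (IsPF.coord _))

theorem chi_Z0 {R : Type} [CommRing R] (M : Meas K R) {W : Set (Pt K (Fin n))} (hW : Constr W) :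
    M.χ _ (Z0 (N := N) W) = M.χ (Fin n) W := by
  refine M.iso _ _ (constr_Z0 hW) hW (fun w j => w (j, 0))
    (fun z p => if p.2 = 0 then z p.1 else 0) (regularOn_poly (fun j => IsPF.coord _) _)
    (regularOn_poly (fun p => ?_) _) ?_ ?_ ?_ ?_
  · by_cases h : p.2 = 0
    · simp only [if_pos h]
      exact IsPF.coord _
    · simp only [if_neg h]
      exact IsPF.zero
  · rintro w ⟨h1, -⟩
    exact h1
  · intro z hz
    refine ⟨?_, fun j l hl => ?_⟩
    · simp only [if_true]
      exact hz
    · show (if l = 0 then z j else 0) = 0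
      rw [if_neg hl]
  · rintro w ⟨-, h2⟩
    funext p
    obtain ⟨j, l⟩ := p
    show (if l = 0 then w (j, 0) else 0) = w (j, l)
    by_cases h : l = 0
    · rw [if_pos h, h]
    · rw [if_neg h, h2 j l h]
  · intro z _
    funext j
    exact if_pos rfl

/-- **The class of the jets at smooth points.** -/
theorem chi_smooth {R : Type} [CommRing R] (M : Meas K R) (f : MvPolynomial (Fin n) K)
    {W : Set (Pt K (Fin n))} (hW : Constr W) {E : Set (AlgebraicClosure K)} (hE : CE E)
    (i : Fin n) (h0 : ∀ z ∈ W, aeval z f = 0) (hi : ∀ z ∈ W, aeval z (pderiv i f) ≠ 0)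
    (hN : 1 ≤ N) : M.χ _ (JetG f W E N) =
      M.χ (Fin n) W * M.χ (Fin 1) {a | a 0 ∈ E} * M.L ^ ((n - 1) * N) := by
  classical
  rw [Si_top f h0 E i hN, Si_all M f hW hE i hi N le_rfl]
  set F1 : Finset (Fin n × Fin (N + 1)) := (Finset.univ.erase i) ×ˢ (Finset.univ.erase 0) with hF1
  have hmem : ∀ p, p ∈ F1 ↔ p.1 ≠ i ∧ p.2 ≠ 0 := by
    intro p
    rw [hF1, Finset.mem_product, Finset.mem_erase, Finset.mem_erase]
    simp
  have hcard : F1.card = (n - 1) * N := by
    rw [hF1, Finset.card_product, Finset.card_erase_of_mem (Finset.mem_univ _),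
      Finset.card_erase_of_mem (Finset.mem_univ _), Finset.card_univ, Finset.card_univ,
      Fintype.card_fin, Fintype.card_fin, Nat.add_sub_cancel]
  have hlast : (Fin.last N : Fin (N + 1)) ≠ 0 := by
    intro h
    have h5 := congrArg Fin.val h
    simp only [Fin.val_last, Fin.val_zero] at h5
    omega
  -- the conditions at level one
  have hS1 : ∀ w : Pt K (Fin n × Fin (N + 1)), w ∈ Si f W E i 1 ↔ (fun j => w (j, 0)) ∈ W ∧
      ∀ l : Fin (N + 1), l ≠ 0 → w (i, l) ∈ El E N l := by
    intro w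
    unfold Si
    simp only [Set.mem_ofPred_eq]
    refine and_congr_right fun _ => forall₂_congr fun l hl => ?_
    rw [if_neg]
    intro h
    exact hl (Fin.ext (by simpa using h))
  have h1 := Pool.Agent.W417.MT.Free.free_one (M := M) F1 (fun _ => (0 : K)) _
    (constr_Si f hW hE i 1) (by
      intro z w h hz
      rw [hS1] at hz ⊢
      obtain ⟨g1, g2⟩ := hz
      refine ⟨?_, fun l hl => ?_⟩
      · have e : (fun j => w (j, 0)) = fun j => z (j, 0) := by
          funext j
          exact h _ fun h' => ((hmem _).1 h').2 rfl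
        rw [e]
        exact g1
      · rw [h _ fun h' => ((hmem _).1 h').1 rfl]
        exact g2 l hl)
  rw [h1, hcard]
  congr 1
  have e2 : Si f W E i 1 ∩ {z | ∀ p ∈ F1, z p = algebraMap K (AlgebraicClosure K) 0} =
      {z | Function.update z (i, Fin.last N) (algebraMap K _ 0) ∈ Z0 (N := N) W ∧
        (fun _ => z (i, Fin.last N)) ∈ ({a | a 0 ∈ E} : Set (Pt K (Fin 1)))} := by
    ext w
    rw [Set.mem_inter_iff, hS1]
    simp only [Z0, Set.mem_ofPred_eq]
    rw [orig_upd w i _ hlast]
    constructor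
    · rintro ⟨⟨g1, g2⟩, g3⟩
      refine ⟨⟨g1, fun j l hl => ?_⟩, ?_⟩
      · by_cases hj : j = i
        · subst hj
          by_cases hlN : l = Fin.last N
          · rw [hlN, Function.update_self, map_zero]
          · rw [Function.update_of_ne (fun h => hlN (Prod.ext_iff.1 h).2)]
            have h5 := g2 l hl
            unfold El at h5
            rw [if_pos] at h5
            · exact h5
            · have h6 := l.2
              have h7 : (l : ℕ) ≠ N := fun h => hlN (Fin.ext h)
              omega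
        · rw [Function.update_of_ne (fun h => hj (Prod.ext_iff.1 h).1),
            g3 _ ((hmem _).2 ⟨hj, hl⟩), map_zero]
      · have h5 := g2 _ hlast
        unfold El at h5
        rw [if_neg (by rw [Fin.val_last]; omega)] at h5
        exact h5
    · rintro ⟨⟨g1, g2⟩, g3⟩
      refine ⟨⟨g1, fun l hl => ?_⟩, fun p hp => ?_⟩
      · unfold El
        by_cases hlN : l = Fin.last N
        · rw [hlN, if_neg (by rw [Fin.val_last]; omega)]
          exact g3
        · have h5 := g2 i l hl
          rw [Function.update_of_ne (fun h => hlN (Prod.ext_iff.1 h).2)] at h5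
          rw [if_pos]
          · exact h5
          · have h6 := l.2
            have h7 : (l : ℕ) ≠ N := fun h => hlN (Fin.ext h)
            omega
      · obtain ⟨j, l⟩ := p
        obtain ⟨h5, h6⟩ := (hmem _).1 hp
        have h7 := g2 j l h6
        rw [Function.update_of_ne (fun h => h5 (Prod.ext_iff.1 h).1)] at h7
        rw [h7, map_zero]
  rw [e2, Pool.Agent.W417.MT.Free.coord M (Z0 (N := N) W) _ 0 {a | a 0 ∈ E} (constr_Z0 hW)
    (hE _ (IsPF.coord _)) (fun z hz => by rw [map_zero]; exact hz.2 _ _ hlast), chi_Z0 M hW]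

end

section
variable {K : Type} [Field K] [CharZero K] {n : ℕ}

/-- **The zeta function at smooth points with `∂f/∂x_i ≠ 0`.** -/
theorem zt_smooth_i (f : MvPolynomial (Fin n) K) {W : Set (Pt K (Fin n))} (hW : Constr W)
    (i : Fin n) (h0 : ∀ z ∈ W, aeval z f = 0) (hi : ∀ z ∈ W, aeval z (pderiv i f) ≠ 0) :
    zt f W = PowerSeries.C (clM W) * Fz K 1 1 := by
  obtain ⟨M, hM, hL⟩ := clM_full K
  have hgs := geo_series (K := K) ((((Lu K : (MK K)ˣ) : MK K) - 1) * clM W)
  have hF : Fz K 1 1 = (cL K - 1) *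
      (PowerSeries.C (((Lu K)⁻¹ : (MK K)ˣ) : MK K) * PowerSeries.X) * geo K (-1) 1 := by
    unfold Fz cL
    rw [map_sub, map_one, Nat.cast_one, zpow_neg_one, pow_one]
  have h1 : PowerSeries.C (clM W) * Fz K 1 1 = PowerSeries.X * (PowerSeries.C
      (((Lu K)⁻¹ : (MK K)ˣ) : MK K) * PowerSeries.mk (fun N : ℕ =>
        ((((Lu K : (MK K)ˣ) : MK K) - 1) * clM W) * (((Lu K)⁻¹ : (MK K)ˣ) : MK K) ^ N)) := by
    rw [hgs, hF, map_mul PowerSeries.C (((Lu K : (MK K)ˣ) : MK K) - 1), map_sub, map_one]
    unfold cL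
    ring
  rw [h1]
  ext N
  rcases N with _ | N
  · rw [PowerSeries.coeff_zero_X_mul, zt, PowerSeries.coeff_mk]
    have e : JetG f W (Un K) 0 = ∅ := by
      ext z
      simp only [Set.mem_empty_iff_false, iff_false]
      rintro ⟨g1, -, g3⟩
      rw [coeff_zero_aeval] at g3
      exact g3 (h0 _ g1)
    have h00 : clM (JetG f W (Un K) 0) = 0 := by
      rw [e, ← hM]
      have h4 := M.add (ι := Fin n × Fin (0 + 1)) ∅ ∅ Constr.empty Constr.empty
        (Set.disjoint_left.2 fun _ h => h.elim)
      rw [Set.union_empty] at h4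
      exact (left_eq_add.1 h4)
    rw [h00, zero_mul]
  · rw [PowerSeries.coeff_succ_X_mul, PowerSeries.coeff_C_mul, zt, PowerSeries.coeff_mk,
      PowerSeries.coeff_mk, ← hM, ← hM,
      chi_smooth M f hW ce_Un i h0 hi (N := N + 1) (by omega)]
    have h2 : M.χ (Fin 1) {a | a 0 ∈ Un K} = M.L - 1 := Pool.Agent.W417.MT.Free.chi_gm (M := M)
    rw [h2, hL, zpow_neg, zpow_natCast, ← inv_pow, Units.val_pow_eq_pow_val]
    have h3 : ((Lu K : (MK K)ˣ) : MK K) * (((Lu K)⁻¹ : (MK K)ˣ) : MK K) = 1 := Units.mul_inv _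
    have h4 : ((Lu K : (MK K)ˣ) : MK K) ^ ((n - 1) * (N + 1)) *
        (((Lu K)⁻¹ : (MK K)ˣ) : MK K) ^ ((n - 1) * (N + 1)) = 1 := by
      rw [← mul_pow, h3, one_pow]
    have e1 : n * (N + 1) = (n - 1) * (N + 1) + (N + 1) := by
      have : 1 ≤ n := by
        have := i.2
        omega
      obtain ⟨n', rfl⟩ : ∃ n', n = n' + 1 := ⟨n - 1, by omega⟩
      rw [Nat.add_sub_cancel]
      ring
    rw [e1, pow_add, pow_succ (((Lu K)⁻¹ : (MK K)ˣ) : MK K) N]
    linear_combination (M.χ (Fin n) W * (((Lu K : (MK K)ˣ) : MK K) - 1) *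
      ((((Lu K)⁻¹ : (MK K)ˣ) : MK K) ^ N * (((Lu K)⁻¹ : (MK K)ˣ) : MK K))) * h4

theorem clM_add {W W' : Set (Pt K (Fin n))} (hW : Constr W) (hW' : Constr W')
    (h : Disjoint W W') : clM (W ∪ W') = clM W + clM W' := by
  obtain ⟨M, hM⟩ := clM_meas K
  rw [← hM, ← hM, ← hM, M.add _ _ hW hW' h]

theorem zt_empty (f : MvPolynomial (Fin n) K) : zt f (∅ : Set (Pt K (Fin n))) = 0 := by
  have h := zt_add f (W := ∅) (W' := ∅) Constr.empty Constr.empty
    (Set.disjoint_left.2 fun _ h => h.elim)
  rw [Set.union_empty] at h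
  exact left_eq_add.1 h

/-- **The zeta function at smooth points of the hypersurface.** -/
theorem zt_smooth (f : MvPolynomial (Fin n) K) {W : Set (Pt K (Fin n))} (hW : Constr W)
    (h0 : ∀ z ∈ W, aeval z f = 0) (hi : ∀ z ∈ W, ∃ i, aeval z (pderiv i f) ≠ 0) :
    zt f W = PowerSeries.C (clM W) * Fz K 1 1 := by
  classical
  have key : ∀ (S : Finset (Fin n)) (W : Set (Pt K (Fin n))), Constr W →
      (∀ z ∈ W, aeval z f = 0) → (∀ z ∈ W, ∃ i ∈ S, aeval z (pderiv i f) ≠ 0) →
      zt f W = PowerSeries.C (clM W) * Fz K 1 1 := by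
    intro S
    induction S using Finset.induction_on with
    | empty =>
      intro W hW _ hi
      have e : W = ∅ := by
        ext z
        simp only [Set.mem_empty_iff_false, iff_false]
        intro hz
        obtain ⟨i, hi, -⟩ := hi z hz
        exact absurd hi (Finset.notMem_empty i)
      have h1 := clM_add (K := K) (n := n) (W := ∅) (W' := ∅) Constr.empty Constr.empty
        (Set.disjoint_left.2 fun _ h => h.elim)
      rw [Set.union_empty] at h1
      rw [e, zt_empty, left_eq_add.1 h1, map_zero, zero_mul]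
    | insert a S ha ih =>
      intro W hW h0 hi
      have hA : Constr {z : Pt K (Fin n) | aeval z (pderiv a f) = 0} :=
        Constr.eqz (IsPF.poly _)
      have e : W = (W ∩ {z | aeval z (pderiv a f) = 0}ᶜ) ∪
          (W ∩ {z | aeval z (pderiv a f) = 0}) := by
        ext z
        simp only [Set.mem_union, Set.mem_inter_iff, Set.mem_compl_iff]
        tauto
      have hd : Disjoint (W ∩ {z : Pt K (Fin n) | aeval z (pderiv a f) = 0}ᶜ)
          (W ∩ {z | aeval z (pderiv a f) = 0}) := by
        rw [Set.disjoint_left]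
        rintro z ⟨-, h1⟩ ⟨-, h2⟩
        exact h1 h2
      rw [e, zt_add f (hW.inter hA.compl) (hW.inter hA) hd,
        clM_add (hW.inter hA.compl) (hW.inter hA) hd, map_add, add_mul,
        zt_smooth_i f (hW.inter hA.compl) a (fun z hz => h0 z hz.1) (fun z hz => hz.2),
        ih _ (hW.inter hA) (fun z hz => h0 z hz.1) (fun z hz => ?_)]
      obtain ⟨i, hi1, hi2⟩ := hi z hz.1
      rcases Finset.mem_insert.1 hi1 with rfl | hi3
      · exact absurd hz.2 hi2
      · exact ⟨i, hi3, hi2⟩
  exact key Finset.univ W hW h0 fun z hz => by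
    obtain ⟨i, hi⟩ := hi z hz
    exact ⟨i, Finset.mem_univ i, hi⟩

end

end Pool.Agent.V7H32.GL
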