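import Pool.Agent.V7H32.GL.Eqv
import Pool.Agent.V7H32.GL.Smooth

/-!
# Isolated singularities
-/

set_option autoImplicit false

namespace Pool.Agent.V7H32.GL

open MvPolynomial Pool.Agent.W428.MOT
open Pool.Agent.N101.CB
open Pool.Agent.N101.CB.BGl (WW B1 B2 formal_iff)
open Pool.Agent.H628R4.TP (IsBFunction weylS)
open Pool.Agent.Y229.MS (Wyz addyz CE)

section
variable {χ : MK ℂ →+* ℂ} {o : Bool} {n : ℕ} {f g : MvPolynomial (Fin n) ℂ} {b : Polynomial ℂ}

theorem Cj.add {W W' : Set (Pt ℂ (Fin n))} (hW : Constr W) (hW' : Constr W')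
    (hd : Disjoint W W') (h : Cj χ o f W b) (h' : Cj χ o f W' b) : Cj χ o f (W ∪ W') b := by
  obtain ⟨R, hR, h1⟩ := h
  obtain ⟨R', hR', h2⟩ := h'
  refine ⟨R + R', ?_, fun q hq => (h1 q hq).add (h2 q hq)⟩
  rw [zt_add f hW hW' hd]
  exact topZ_add hR hR'

theorem lp01 : lpZ (0, 1) = Polynomial.X + 1 := by
  unfold lpZ
  simp

/-- smooth points -/
theorem Cj.smooth {W : Set (Pt ℂ (Fin n))} (hW : Constr W) (h0 : ∀ z ∈ W, aeval z f = 0)
    (hi : ∀ z ∈ W, ∃ i, aeval z (pderiv i f) ≠ 0) (hb : b.eval (-1) = 0) : Cj χ o f W b := by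
  obtain ⟨c, hc⟩ := Polynomial.dvd_iff_isRoot.2 (show b.IsRoot (-1) from hb)
  rw [Polynomial.C_neg, Polynomial.C_1, sub_neg_eq_add] at hc
  have h3 : FZ (0, 1) = Fz ℂ 1 1 := FZ_Fz 0 1
  refine ⟨_, by rw [zt_smooth f hW h0 hi, ← h3]; exact topZ_mul (topZ_C χ _) (topZ_F χ _),
    fun q hq => PR.smul _ ?_⟩
  rw [ftZ_lp, lp01]
  cases o with
  | true =>
    simp only [PR, if_true]
    rw [hc, map_mul, mul_comm (algebraMap (Polynomial ℂ) (RatFunc ℂ) (Polynomial.X + 1)),
      mul_assoc, mul_inv_cancel₀, mul_one]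
    · exact Reg.poly _ _
    · have h : (Polynomial.X + 1 : Polynomial ℂ).eval 0 ≠ 0 := by simp
      exact ne0 h
  | false =>
    simp only [PR, Bool.false_eq_true, if_false]
    intro h5
    refine Reg.inv fun h6 => h5 ?_
    rw [hc, Polynomial.eval_mul, h6, zero_mul]

/-- the functional equation on a smaller open set -/
theorem IsBOn.mono (h : IsBOn g f b) (u : MvPolynomial (Fin n) ℂ) : IsBOn (g * u) f b := by
  obtain ⟨k, P, hP⟩ := h
  refine ⟨k, P.mapRange (fun Q => (⟨LinearMap.mulLeft ℂ (u ^ k),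
    Pool.Agent.Y229.RE.mul_mem (u ^ k)⟩ : weylS (Fin n)) * Q) (mul_zero _), fun s => ?_⟩
  rw [Finsupp.sum_mapRange_index (fun m => by
    rw [ZeroMemClass.coe_zero, LinearMap.zero_apply, smul_zero])]
  have h1 := congrArg (fun p => u ^ k * p) (hP s)
  simp only [Finsupp.sum, Finset.mul_sum] at h1 ⊢
  rw [mul_pow]
  calc C (b.eval (s : ℂ)) * (g ^ k * u ^ k * f ^ s) =
      u ^ k * (C (b.eval (s : ℂ)) * (g ^ k * f ^ s)) := by ring
    _ = _ := h1
    _ = _ := Finset.sum_congr rfl fun m _ => by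
      rw [mul_smul_comm]
      rfl

/-- `b(-1) = 0` if the hypersurface has a point in the open set -/
theorem isBOn_neg1 (hf : f ≠ 0) (h : IsBOn g f b) {z : Pt ℂ (Fin n)} (hg : aeval z g ≠ 0)
    (hz : aeval z f = 0) : b.eval (-1) = 0 := by
  obtain ⟨l, hl⟩ := isBOn_WW h
  obtain ⟨⟨Q, hQ⟩, -⟩ := reducedG hf hl
  have h3 := congrArg (aeval z) hQ
  rw [map_mul, map_mul, hz, zero_mul, algHom_C, map_pow] at h3
  have h4 := (mul_eq_zero.1 h3).resolve_right (pow_ne_zero l hg)
  exact (map_eq_zero (algebraMap ℂ (AlgebraicClosure ℂ))).1 h4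

/-- a polynomial which separates `a` from the other points of `S` -/
theorem exists_sep (S : Finset (Fin n → ℂ)) (a : Fin n → ℂ) :
    ∃ u : MvPolynomial (Fin n) ℂ, eval a u ≠ 0 ∧ ∀ z ∈ S, z ≠ a → eval z u = 0 := by
  classical
  induction S using Finset.induction_on with
  | empty => exact ⟨1, by rw [map_one]; exact one_ne_zero, fun z hz => absurd hz (Finset.notMem_empty z)⟩
  | insert c S _ ih =>
    obtain ⟨u, h1, h2⟩ := ih
    by_cases hc : c = a
    · refine ⟨u, h1, fun z hz hza => ?_⟩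
      rcases Finset.mem_insert.1 hz with rfl | hz
      · exact absurd hc hza
      · exact h2 z hz hza
    · obtain ⟨i, hi⟩ : ∃ i, c i ≠ a i := by
        by_contra h
        push Not at h
        exact hc (funext h)
      refine ⟨(X i - C (c i)) * u, ?_, fun z hz hza => ?_⟩
      · rw [map_mul, map_sub, eval_X, eval_C]
        exact mul_ne_zero (sub_ne_zero.2 hi.symm) h1
      · rw [map_mul, map_sub, eval_X, eval_C]
        rcases Finset.mem_insert.1 hz with rfl | hz
        · rw [sub_self, zero_mul]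
        · rw [h2 z hz hza, mul_zero]

/-- **From points to constructible sets**, for finitely many singular points. -/
theorem point_fin (hP : PointC χ o 1) (hf : f.totalDegree ≠ 0) (hg : (SgOn f g).Finite)
    (hb : IsBOn g f b) {W : Set (Pt ℂ (Fin n))} (hW : Constr W) (hWg : ∀ z ∈ W, aeval z g ≠ 0) :
    Cj χ o f W b := by
  classical
  have hf0 : f ≠ 0 := by
    rintro rfl
    exact hf totalDegree_zero
  -- one singular point
  have h1 : ∀ a ∈ SgOn f g, Cj χ o f {pt a} b := by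
    intro a ha
    obtain ⟨u, hu1, hu2⟩ := exists_sep hg.toFinset a
    refine hP n f hf a ha.1.1 (g * u) (by rw [map_mul]; exact mul_ne_zero ha.2 hu1) ?_ b
      (hb.mono u)
    have h2 : SgOn f (g * u) ⊆ {a} := by
      intro z hz
      by_contra hza
      have h3 := hu2 z (hg.mem_toFinset.2 (sgOn_mul f g u hz)) hza
      have h4 := hz.2
      rw [map_mul, h3, mul_zero] at h4
      exact h4 rfl
    exact (Set.encard_le_encard h2).trans (Set.encard_singleton a).le
  -- finitely many singular points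
  have h2 : ∀ S : Finset (Fin n → ℂ), (∀ a ∈ S, a ∈ SgOn f g) →
      Constr {z : Pt ℂ (Fin n) | ∃ a ∈ S, z = pt a} ∧ Cj χ o f {z | ∃ a ∈ S, z = pt a} b := by
    intro S
    induction S using Finset.induction_on with
    | empty =>
      intro _
      have e : {z : Pt ℂ (Fin n) | ∃ a ∈ (∅ : Finset (Fin n → ℂ)), z = pt a} = ∅ := by
        ext z
        simp
      rw [e]
      exact ⟨Constr.empty, Cj.nozero Constr.empty fun z hz => hz.elim⟩
    | insert c S hc ih =>
      intro h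
      obtain ⟨h3, h4⟩ := ih fun a ha => h a (Finset.mem_insert_of_mem ha)
      have e : {z : Pt ℂ (Fin n) | ∃ a ∈ insert c S, z = pt a} =
          {pt c} ∪ {z | ∃ a ∈ S, z = pt a} := by
        ext z
        simp only [Finset.mem_insert, Set.mem_union, Set.mem_singleton_iff, Set.mem_ofPred_eq]
        constructor
        · rintro ⟨a, rfl | ha, rfl⟩
          · exact Or.inl rfl
          · exact Or.inr ⟨a, ha, rfl⟩
        · rintro (rfl | ⟨a, ha, rfl⟩)
          · exact ⟨c, Or.inl rfl, rfl⟩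
          · exact ⟨a, Or.inr ha, rfl⟩
      have hd : Disjoint ({pt c} : Set (Pt ℂ (Fin n))) {z | ∃ a ∈ S, z = pt a} := by
        rw [Set.disjoint_left]
        rintro z hz ⟨a, ha, hza⟩
        rw [Set.mem_singleton_iff.1 hz] at hza
        apply hc
        have : c = a := by
          funext i
          exact (algebraMap ℂ (AlgebraicClosure ℂ)).injective (congrFun hza i)
        rwa [this]
      rw [e]
      exact ⟨(constr_pt c).union h3, Cj.add (constr_pt c) h3 hd
        (h1 c (h c (Finset.mem_insert_self c S))) h4⟩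
  -- the three parts of `W`
  set A : Set (Pt ℂ (Fin n)) := {z | aeval z f = 0} with hA
  set B : Set (Pt ℂ (Fin n)) := {z | ∀ i, aeval z (pderiv i f) = 0} with hB
  have cA : Constr A := Constr.eqz (IsPF.poly f)
  have cB : Constr B := Constr.all fun i => Constr.eqz (IsPF.poly _)
  have e1 : W = (W ∩ Aᶜ) ∪ ((W ∩ (A ∩ Bᶜ)) ∪ (W ∩ (A ∩ B))) := by
    ext z
    simp only [Set.mem_union, Set.mem_inter_iff, Set.mem_compl_iff]
    tauto
  have d1 : Disjoint (W ∩ Aᶜ) ((W ∩ (A ∩ Bᶜ)) ∪ (W ∩ (A ∩ B))) := by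
    rw [Set.disjoint_left]
    rintro z ⟨-, h3⟩ (⟨-, h4, -⟩ | ⟨-, h4, -⟩)
    · exact h3 h4
    · exact h3 h4
  have d2 : Disjoint (W ∩ (A ∩ Bᶜ)) (W ∩ (A ∩ B)) := by
    rw [Set.disjoint_left]
    rintro z ⟨-, -, h3⟩ ⟨-, -, h4⟩
    exact h3 h4
  rw [e1]
  refine Cj.add (hW.inter cA.compl) ((hW.inter (cA.inter cB.compl)).union (hW.inter (cA.inter cB)))
    d1 (Cj.nozero (hW.inter cA.compl) fun z hz => hz.2)
    (Cj.add (hW.inter (cA.inter cB.compl)) (hW.inter (cA.inter cB)) d2 ?_ ?_)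
  · by_cases hne : (W ∩ (A ∩ Bᶜ)).Nonempty
    · obtain ⟨z, hz1, hz2, hz3⟩ := hne
      refine Cj.smooth (hW.inter (cA.inter cB.compl)) (fun z hz => hz.2.1) (fun z hz => ?_)
        (isBOn_neg1 hf0 hb (hWg z hz1) hz2)
      by_contra h
      push Not at h
      exact hz.2.2 h
    · rw [Set.not_nonempty_iff_eq_empty.1 hne]
      exact Cj.nozero Constr.empty fun z hz => hz.elim
  · set S : Finset (Fin n → ℂ) := hg.toFinset.filter (fun a => pt a ∈ W) with hS
    have e2 : W ∩ (A ∩ B) = {z | ∃ a ∈ S, z = pt a} := by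
      ext z
      simp only [Set.mem_inter_iff, Set.mem_ofPred_eq]
      constructor
      · rintro ⟨h3, h4, h5⟩
        obtain ⟨a, rfl⟩ := pt_surj z
        have h6 : ∀ p : MvPolynomial (Fin n) ℂ, aeval (pt a) p = 0 → eval a p = 0 := by
          intro p hp
          rw [aeval_pt] at hp
          exact (map_eq_zero (algebraMap ℂ (AlgebraicClosure ℂ))).1 hp
        refine ⟨a, ?_, rfl⟩
        rw [hS, Finset.mem_filter, hg.mem_toFinset]
        refine ⟨⟨⟨h6 _ h4, fun i => h6 _ (h5 i)⟩, fun h7 => hWg _ h3 ?_⟩, h3⟩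
        rw [aeval_pt, h7, map_zero]
      · rintro ⟨a, ha, rfl⟩
        rw [hS, Finset.mem_filter, hg.mem_toFinset] at ha
        obtain ⟨⟨⟨h3, h4⟩, -⟩, h5⟩ := ha
        refine ⟨h5, ?_, fun i => ?_⟩
        · show aeval (pt a) f = 0
          rw [aeval_pt, h3, map_zero]
        · rw [aeval_pt, h4 i, map_zero]
    rw [e2]
    refine (h2 S fun a ha => ?_).2
    rw [hS, Finset.mem_filter, hg.mem_toFinset] at ha
    exact ha.1

/-- **Isolated singularities.** -/
theorem iso_iff (hχ : χ ((Lu ℂ : (MK ℂ)ˣ) : MK ℂ) = 1) :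
    (GlobC χ o 1 ↔ PointC χ o 1) ∧ (GlobC χ o 1 ↔ FinC χ o) := by
  have h1 : GlobC χ o 1 → PointC χ o 1 := fun h => open_point ((glob_open hχ).1 h)
  have h2 : PointC χ o 1 → FinC χ o :=
    fun h n f hf g hg b hb W hW hWg => point_fin h hf hg hb hW hWg
  have h3 : FinC χ o → GlobC χ o 1 := by
    intro h
    refine (glob_open hχ).2 fun n f hf g hg b hb W hW hWg => h n f hf g ?_ b hb W hW hWg
    exact Set.finite_of_encard_le_coe (k := 1) (by exact_mod_cast hg)
  exact ⟨⟨h1, fun h => h3 (h2 h)⟩, ⟨fun h => h2 (h1 h), h3⟩⟩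

end

end Pool.Agent.V7H32.GL
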