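import Pool.Agent.V7H32.GL.TriZ

/-!
# Trilinear forms: final assembly
-/

set_option autoImplicit false

namespace Pool.Agent.V7H32.GL

open MvPolynomial Pool.Agent.W428.MOT
open Pool.Agent.N101.CB
open Pool.Agent.H628R4.TP (IsBFunction weylS)

section
variable {n : ℕ} {χ : MK ℂ →+* ℂ} {o : Bool}

theorem hr_ho (col : Fin n → Fin 3) (f : MvPolynomial (Fin n) ℂ)
    (hf : ∀ m ∈ f.support, ∀ c, sc col c m ≤ 1) : hr col f (ho col f) 1 := by
  unfold hr
  rw [sg_ho col f hf, pow_one]

theorem ho_deg (col : Fin n → Fin 3) (f : MvPolynomial (Fin n) ℂ)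
    (hf : ∀ m ∈ f.support, ∀ c, sc col c m ≤ 1) (hf0 : f ≠ 0) : (ho col f).totalDegree ≠ 0 := by
  intro h
  rw [totalDegree_eq_zero_iff_eq_C] at h
  have h1 := sg_ho col f hf
  rw [h, algHom_C, algebraMap_eq] at h1
  have h2 := congrArg (eval (ext3 (fun _ : Fin n => (0 : ℂ)) fun _ => 0)) h1
  have hz : eval (ext3 (fun _ : Fin n => (0 : ℂ)) fun _ => 0) (ZZ n) = 0 := by
    unfold ZZ
    rw [map_prod]
    refine Finset.prod_eq_zero (Finset.mem_univ 0) ?_
    rw [eval_X, ext3_z]
  rw [map_mul, hz, zero_mul, eval_C] at h2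
  rw [h2, C_0] at h1
  have h3 := (mul_eq_zero.1 h1.symm).resolve_left ZZ_ne
  apply hf0
  unfold r3 at h3
  exact rename_injective _ (Fin.castAdd_injective n 3) (by rw [h3, map_zero])

/-- the point over `a` -/
def pt3 (a : Fin n → ℂ) : Fin (n + 3) → ℂ := ext3 a fun _ => 1

theorem eval_pt3_sg (col : Fin n → Fin 3) (a : Fin n → ℂ) (p : MvPolynomial (Fin (n + 3)) ℂ) :
    eval (pt3 a) (sg col Finset.univ p) = eval (pt3 a) p := by
  rw [eval_sg]
  congr 2
  funext j
  refine Fin.addCases (fun k => ?_) (fun c => ?_) j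
  · rw [sg_x, if_pos (Finset.mem_univ k), map_mul, eval_X, eval_X]
    unfold pt3
    rw [ext3_z, one_mul]
  · rw [sg_z, eval_X]

theorem eval_hr {col : Fin n → Fin 3} (a : Fin n → ℂ) {p : MvPolynomial (Fin n) ℂ}
    {π : MvPolynomial (Fin (n + 3)) ℂ} {D : ℕ} (h : hr col p π D) :
    eval (pt3 a) π = eval a p := by
  have h1 := congrArg (eval (pt3 a)) h
  rw [eval_pt3_sg, map_mul, map_pow] at h1
  have h2 : eval (pt3 a) (ZZ n) = 1 := by
    unfold ZZ
    rw [map_prod]
    refine Finset.prod_eq_one fun c _ => ?_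
    rw [eval_X]
    unfold pt3
    rw [ext3_z]
  have h3 : eval (pt3 a) (r3 p) = eval a p := by
    unfold r3
    rw [eval_rename]
    congr 2
    funext i
    show ext3 a (fun _ => 1) (Fin.castAdd 3 i) = a i
    rw [ext3_x]
  rw [h1, h2, h3, one_pow, one_mul]

theorem W3_pt (a : Fin n → ℂ) : W3 {pt a} = ({pt (pt3 a)} : Set (Pt ℂ (Fin (n + 3)))) := by
  ext w
  obtain ⟨z, rfl⟩ := pt_surj w
  simp only [W3, Set.mem_ofPred_eq, Set.mem_singleton_iff]
  constructor
  · rintro ⟨h1, h2⟩
    congr 1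
    funext j
    unfold pt3
    refine Fin.addCases (fun k => ?_) (fun c => ?_) j
    · rw [ext3_x]
      exact (algebraMap ℂ (AlgebraicClosure ℂ)).injective (congrFun h1 k)
    · rw [ext3_z]
      have h3 := h2 c
      refine (algebraMap ℂ (AlgebraicClosure ℂ)).injective ?_
      rw [map_one]
      exact h3
  · intro h1
    have h2 := pt_inj h1
    refine ⟨?_, fun c => ?_⟩
    · funext i
      show algebraMap ℂ (AlgebraicClosure ℂ) (z (Fin.castAdd 3 i)) = algebraMap ℂ _ (a i)
      rw [h2]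
      unfold pt3
      rw [ext3_x]
    · show algebraMap ℂ (AlgebraicClosure ℂ) (z (Fin.natAdd n c)) = 1
      rw [h2]
      unfold pt3
      rw [ext3_z, map_one]

theorem colz_z (col : Fin n → Fin 3) (c : Fin 3) : colz col (Fin.natAdd n c) = c := by
  unfold colz
  rw [ext3_z]

theorem W3_univ : (W3 Set.univ : Set (Pt ℂ (Fin (n + 3)))) =
    {w | ∀ c : Fin 3, w (Fin.natAdd n c) = 1} := by
  ext w
  exact ⟨fun h => h.2, fun h => ⟨Set.mem_univ _, h⟩⟩

/-- **Hyperplane sections of Segre varieties suffice.** -/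
theorem glob_segre (hχ : χ ((Lu ℂ : (MK ℂ)ˣ) : MK ℂ) = 1) {k : ℕ∞} :
    GlobC χ o k ↔ SegreC χ o k :=
  glob_red hχ (fun _ f => Col3 f) col_red

/-- **Trilinear forms suffice.** -/
theorem tri_open (hχ : χ ((Lu ℂ : (MK ℂ)ˣ) : MK ℂ) = 1) : GlobC χ o ⊤ ↔ TriOpenC χ o := by
  constructor
  · intro h n f col i _ _ hf b hb
    refine (glob_open hχ).1 h n f hf (∏ c, X (i c)) le_top b hb {w | ∀ c, w (i c) = 1}
      (Constr.all fun c => Constr.eq (IsPF.coord _) IsPF.one) fun w hw => ?_
    rw [map_prod]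
    refine Finset.prod_ne_zero_iff.2 fun c _ => ?_
    rw [aeval_X, hw c]
    exact one_ne_zero
  · intro h n f hf _
    revert hf
    refine col_red (fun n f => f.totalDegree ≠ 0 → ∀ b : Polynomial ℂ, IsBFunction f b →
      Cj χ o f Set.univ b) ?_ ?_ n f
    · intro n f ⟨col, hc⟩ hf b hb
      have hf0 : f ≠ 0 := by
        rintro rfl
        exact hf totalDegree_zero
      have h1 : hr col (1 : MvPolynomial (Fin n) ℂ) 1 0 := by
        have := hr_C (col := col) 1
        rwa [C_1, C_1] at this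
      have h2 := isBOn_ho (hr_ho col f hc) h1 (isBOn_one hb)
      rw [mul_one] at h2
      obtain ⟨R, hR, h3⟩ := h (n + 3) (ho col f) (colz col) (fun c => Fin.natAdd n c)
        (fun c => colz_z col c) (tri_ho col f hc) (ho_deg col f hc hf0) b h2
      rw [← W3_univ, zt_ho col f hc Constr.univ] at hR
      exact ⟨R, hR, h3⟩
    · intro n f u v ih hf
      exact cj_step hχ f u v (ih (stp_deg f u v)) hf

/-- **Points of trilinear forms suffice.** -/
theorem tri_point (hχ : χ ((Lu ℂ : (MK ℂ)ˣ) : MK ℂ) = 1) : PointC χ o ⊤ ↔ TriPointC χ o := by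
  constructor
  · intro h n f _ _ _ _ hf a _ ha g hg b hb
    exact h n f hf a ha g hg le_top b hb
  · intro h n f hf a ha g hg hk b hb
    refine col_red (fun n f => f.totalDegree ≠ 0 → ∀ a : Fin n → ℂ, eval a f = 0 →
      ∀ g : MvPolynomial (Fin n) ℂ, eval a g ≠ 0 → ∀ b : Polynomial ℂ, IsBOn g f b →
        Cj χ o f {pt a} b) ?_ ?_ n f hf a ha g hg b hb
    all_goals clear hb b hk hg g ha a hf f n
    · intro n f ⟨col, hc⟩ hf a ha g hg b hb
      have hf0 : f ≠ 0 := by
        rintro rfl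
        exact hf totalDegree_zero
      obtain ⟨γ, E, hγ⟩ := exists_hr col g
      obtain ⟨R, hR, h2⟩ := h (n + 3) (ho col f) (colz col) (fun c => Fin.natAdd n c)
        (fun c => colz_z col c) (tri_ho col f hc) (ho_deg col f hc hf0) (pt3 a)
        (fun c => by
          unfold pt3
          rw [ext3_z])
        (by rw [eval_hr a (hr_ho col f hc), ha]) (ZZ n * γ)
        (by
          rw [eval_hr a (hr_mul (p := 1) (D := 1) (π := ZZ n) (by
            unfold hr
            rw [sg_ZZ, pow_one]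
            have : r3 (1 : MvPolynomial (Fin n) ℂ) = 1 := map_one _
            rw [this, mul_one]) hγ), one_mul]
          exact hg) b
        (isBOn_ho (hr_ho col f hc) hγ hb)
      rw [← W3_pt, zt_ho col f hc (constr_pt a)] at hR
      exact ⟨R, hR, h2⟩
    · intro n f u v ih hf a ha g hg b hb
      have hf0 : f ≠ 0 := by
        rintro rfl
        exact hf totalDegree_zero
      refine cj_stepP hχ f u v g hf0 a ha hg (fun b hb => ih (stp_deg f u v) (ptS a u v) ?_ _ ?_ b
        hb) b hb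
      · rw [eval_ptS_stp, ha]
      · rw [eval_rn, px_ptS]
        exact hg

end

end Pool.Agent.V7H32.GL
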