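import Pool.Agent.V7H32.GL.Sparse
import Pool.Agent.V7H32.GL.Defs

/-!
# Reduction to polynomials of degree at most one in each of three groups of variables
-/

set_option autoImplicit false

namespace Pool.Agent.V7H32.GL

open MvPolynomial
open Pool.Agent.N101.CB (stp Cub red)
open Pool.Agent.N101.CB.RED

section
variable {n : ℕ}

/-- the defect of a monomial -/
def dfc (col : Fin n → Fin 3) (m : Fin n →₀ ℕ) : ℕ := ∑ c, (sc col c m - 1)

/-- the new groups -/
def col' (col : Fin n → Fin 3) (γ β : Fin 3) : Fin (n + 2) → Fin 3 := Fin.addCases col ![γ, β]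

theorem sc_G (col : Fin n → Fin 3) (γ β c : Fin 3) (m : Fin n →₀ ℕ) (p q : ℕ) :
    sc (col' col γ β) c (G m p q) =
      sc col c m + (if γ = c then p else 0) + (if β = c then q else 0) := by
  unfold sc
  rw [sum2]
  have e0 : ∀ i : Fin n, col' col γ β (Fin.castAdd 2 i) = col i := by
    intro i
    unfold col'
    rw [Fin.addCases_left]
  have e1 : col' col γ β (Fin.natAdd n 0) = γ := by
    unfold col'
    rw [Fin.addCases_right]
    rfl
  have e2 : col' col γ β (Fin.natAdd n 1) = β := by
    unfold col'
    rw [Fin.addCases_right]
    rfl
  simp only [e0, e1, e2, G_c, G_0, G_1]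

theorem sc_zero (col : Fin n → Fin 3) (c : Fin 3) : sc col c (0 : Fin n →₀ ℕ) = 0 := by
  unfold sc
  simp

theorem sc_add (col : Fin n → Fin 3) (c : Fin 3) (m m' : Fin n →₀ ℕ) :
    sc col c (m + m') = sc col c m + sc col c m' := by
  unfold sc
  rw [← Finset.sum_add_distrib]
  refine Finset.sum_congr rfl fun i _ => ?_
  split_ifs
  · rfl
  · rfl

theorem sc_single (col : Fin n → Fin 3) (c : Fin 3) (i : Fin n) :
    sc col c (Finsupp.single i 1) = if col i = c then 1 else 0 := by
  unfold sc
  rw [Finset.sum_eq_single i]
  · rw [Finsupp.single_eq_same]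
  · intro j _ hj
    rw [Finsupp.single_eq_of_ne hj, ite_self]
  · intro h
    exact absurd (Finset.mem_univ i) h

theorem sc_tot (col : Fin n → Fin 3) (m : Fin n →₀ ℕ) : ∑ c, sc col c m = ∑ i, m i := by
  unfold sc
  rw [Finset.sum_comm]
  refine Finset.sum_congr rfl fun i _ => ?_
  rw [Finset.sum_ite_eq Finset.univ (col i) (fun _ => m i), if_pos (Finset.mem_univ _)]

theorem three {c β γ : Fin 3} (h1 : β ≠ c) (h2 : γ ≠ c) (h3 : γ ≠ β) (F : Fin 3 → ℕ) :
    ∑ x, F x = F c + F β + F γ := by
  have hu : (Finset.univ : Finset (Fin 3)) = {c, β, γ} := by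
    revert h1 h2 h3
    revert c β γ
    decide
  rw [hu, Finset.sum_insert, Finset.sum_insert, Finset.sum_singleton, add_assoc]
  · rw [Finset.mem_singleton]
    exact h3.symm
  · rw [Finset.mem_insert, Finset.mem_singleton]
    rintro (h | h)
    · exact h1 h.symm
    · exact h2 h.symm

theorem exists_third (c β : Fin 3) : ∃ γ : Fin 3, γ ≠ c ∧ γ ≠ β := by
  revert c β
  decide

theorem exists_two (c : Fin 3) : ∃ β γ : Fin 3, β ≠ c ∧ γ ≠ c ∧ γ ≠ β := by
  revert c
  decide

/-- the free colour -/
theorem exists_free (col : Fin n → Fin 3) (m : Fin n →₀ ℕ) (h3 : ∑ i, m i ≤ 3) {c : Fin 3}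
    (hc : 2 ≤ sc col c m) : ∃ β γ : Fin 3, β ≠ c ∧ γ ≠ c ∧ γ ≠ β ∧ sc col β m = 0 := by
  obtain ⟨β, γ, h1, h2, h4⟩ := exists_two c
  have h5 := sc_tot col m
  rw [three h1 h2 h4 (fun c => sc col c m)] at h5
  by_cases h : sc col β m = 0
  · exact ⟨β, γ, h1, h2, h4, h⟩
  · exact ⟨γ, β, h2, h1, h4.symm, by omega⟩

theorem sum_union_le' {α : Type} [DecidableEq α] (A B : Finset α) (F : α → ℕ) :
    ∑ x ∈ A ∪ B, F x ≤ ∑ x ∈ A, F x + ∑ x ∈ B, F x := by
  rw [← Finset.sum_union_inter]
  exact Nat.le_add_right _ _

end

section
variable {K : Type} [Field K]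

/-- **The reduction to three groups of variables.** -/
theorem col_red (P : ∀ n : ℕ, MvPolynomial (Fin n) K → Prop)
    (h0 : ∀ (n : ℕ) (f : MvPolynomial (Fin n) K), Col3 f → P n f)
    (h1 : ∀ (n : ℕ) (f u v : MvPolynomial (Fin n) K), P (n + 2) (stp f u v) → P n f) :
    ∀ (n : ℕ) (f : MvPolynomial (Fin n) K), P n f := by
  have key : ∀ (D n : ℕ) (f : MvPolynomial (Fin n) K) (col : Fin n → Fin 3),
      (∀ m ∈ f.support, (∀ i, m i ≤ 1) ∧ ∑ i, m i ≤ 3) →
      ∑ m ∈ f.support, dfc col m ≤ D → P n f := by
    intro D
    induction D with
    | zero =>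
      intro n f col _ hD
      refine h0 n f ⟨col, fun m hm c => ?_⟩
      have h2 := (Finset.sum_eq_zero_iff.1 (Nat.le_zero.1 hD)) m hm
      unfold dfc at h2
      have h3 := (Finset.sum_eq_zero_iff.1 h2) c (Finset.mem_univ c)
      omega
    | succ D ih =>
      intro n f col hf hD
      by_cases hz : ∀ m ∈ f.support, ∀ c, sc col c m ≤ 1
      · exact h0 n f ⟨col, hz⟩
      · push Not at hz
        obtain ⟨m, hm, c, hc⟩ := hz
        obtain ⟨hm1, hm3⟩ := hf m hm
        obtain ⟨β, γ, hβ, hγ, hγβ, hβ0⟩ := exists_free col m hm3 hc
        obtain ⟨i, hi, hmi⟩ : ∃ i, col i = c ∧ m i ≠ 0 := by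
          by_contra h
          push Not at h
          have h2 : sc col c m = 0 := by
            unfold sc
            refine Finset.sum_eq_zero fun i _ => ?_
            split_ifs with h3
            · exact h i h3
            · rfl
          omega
        have hle : Finsupp.single i 1 ≤ m := by
          rw [Finsupp.single_le_iff]
          exact Nat.one_le_iff_ne_zero.2 hmi
        have e : m - Finsupp.single i 1 + Finsupp.single i 1 = m := tsub_add_cancel_of_le hle
        have es : ∀ c', sc col c' (m - Finsupp.single i 1) + (if c = c' then 1 else 0) =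
            sc col c' m := by
          intro c'
          have h2 := sc_add col c' (m - Finsupp.single i 1) (Finsupp.single i 1)
          rw [e, sc_single, hi] at h2
          exact h2.symm
        have hsub := supp_split f {m} i (fun m' hm' => by
          rw [Finset.mem_singleton.1 hm']
          exact hmi)
        refine h1 n f (X i) (A1 f {m} i) (ih (n + 2) _ (col' col γ β) ?_ ?_)
        · intro m' hm'
          have h2 := hsub hm'
          unfold newS at h2
          rw [Finset.mem_union, Finset.mem_union, Finset.mem_union, Finset.mem_singleton,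
            Finset.mem_singleton] at h2
          rcases h2 with h | h | h | h
          · obtain ⟨m'', hm'', rfl⟩ := Finset.mem_image.1 h
            obtain ⟨g1, g2⟩ := hf m'' (Finset.mem_sdiff.1 hm'').1
            rw [E_eq]
            refine ⟨le_G m'' 0 0 g1 (by omega) (by omega), ?_⟩
            rw [sum2]
            simp only [G_c, G_0, G_1]
            omega
          · rw [h]
            refine ⟨le_G 0 1 1 (fun i => Nat.zero_le _) le_rfl le_rfl, ?_⟩
            rw [sum2]
            simp only [G_c, G_0, G_1, Finsupp.coe_zero, Pi.zero_apply, Finset.sum_const_zero]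
            omega
          · rw [h]
            refine ⟨le_G _ 1 0 (fun j => ?_) le_rfl (Nat.zero_le _), ?_⟩
            · rw [Finsupp.single_apply]
              split_ifs
              · exact le_rfl
              · exact Nat.zero_le _
            · rw [sum2]
              simp only [G_c, G_0, G_1]
              have : ∑ j, (Finsupp.single i 1 : Fin n →₀ ℕ) j = 1 := by
                rw [Finset.sum_eq_single i]
                · rw [Finsupp.single_eq_same]
                · intro j _ hj
                  rw [Finsupp.single_eq_of_ne hj]
                · intro h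
                  exact absurd (Finset.mem_univ i) h
              omega
          · obtain ⟨m'', hm'', rfl⟩ := Finset.mem_image.1 h
            rw [Finset.mem_singleton.1 hm'']
            refine ⟨le_G _ 0 1 (fun j => ?_) (Nat.zero_le _) le_rfl, ?_⟩
            · rw [Finsupp.tsub_apply]
              exact (Nat.sub_le _ _).trans (hm1 j)
            · rw [sum2]
              simp only [G_c, G_0, G_1]
              have h5 : ∑ j, (m - Finsupp.single i 1 : Fin n →₀ ℕ) j + 1 ≤ ∑ j, m j := by
                have h6 : ∑ j, m j = ∑ j, (m - Finsupp.single i 1 : Fin n →₀ ℕ) j +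
                    ∑ j, (Finsupp.single i 1 : Fin n →₀ ℕ) j := by
                  rw [← Finset.sum_add_distrib]
                  refine Finset.sum_congr rfl fun j _ => ?_
                  rw [← Finsupp.add_apply, e]
                have h7 : ∑ j, (Finsupp.single i 1 : Fin n →₀ ℕ) j = 1 := by
                  rw [Finset.sum_eq_single i]
                  · rw [Finsupp.single_eq_same]
                  · intro j _ hj
                    rw [Finsupp.single_eq_of_ne hj]
                  · intro h
                    exact absurd (Finset.mem_univ i) h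
                omega
              omega
        · have h2 : ∑ m' ∈ (stp f (X i) (A1 f {m} i)).support, dfc (col' col γ β) m' ≤
              ∑ m' ∈ newS f.support {m} i, dfc (col' col γ β) m' :=
            Finset.sum_le_sum_of_subset hsub
          have h3 : ∑ m' ∈ newS f.support {m} i, dfc (col' col γ β) m' ≤
              ∑ m' ∈ (f.support \ {m}).image E, dfc (col' col γ β) m' +
                (dfc (col' col γ β) (G 0 1 1) + (dfc (col' col γ β) (G (Finsupp.single i 1) 1 0) +
                  dfc (col' col γ β) (G (m - Finsupp.single i 1) 0 1))) := by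
            unfold newS
            refine (sum_union_le' _ _ _).trans (Nat.add_le_add_left ?_ _)
            refine (sum_union_le' _ _ _).trans ?_
            rw [Finset.sum_singleton]
            refine Nat.add_le_add_left ?_ _
            refine (sum_union_le' _ _ _).trans ?_
            rw [Finset.sum_singleton, Finset.image_singleton, Finset.sum_singleton]
          have h4 : ∑ m' ∈ (f.support \ {m}).image E, dfc (col' col γ β) m' =
              ∑ m' ∈ f.support \ {m}, dfc col m' := by
            rw [Finset.sum_image (fun x _ y _ h => E_inj h)]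
            refine Finset.sum_congr rfl fun x _ => ?_
            unfold dfc
            refine Finset.sum_congr rfl fun c' _ => ?_
            rw [E_eq, sc_G, ite_self, ite_self, add_zero, add_zero]
          have h5 : dfc (col' col γ β) (G 0 1 1) = 0 := by
            unfold dfc
            refine Finset.sum_eq_zero fun c' _ => ?_
            rw [sc_G, sc_zero]
            by_cases g1 : γ = c'
            · rw [if_pos g1, if_neg (fun g2 => hγβ (g1.trans g2.symm))]
              omega
            · rw [if_neg g1]
              split_ifs <;> rfl
          have h6 : dfc (col' col γ β) (G (Finsupp.single i 1) 1 0) = 0 := by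
            unfold dfc
            refine Finset.sum_eq_zero fun c' _ => ?_
            rw [sc_G, sc_single, hi, ite_self]
            by_cases g1 : γ = c'
            · rw [if_pos g1, if_neg (fun g2 => hγ (g1.trans g2.symm))]
              omega
            · rw [if_neg g1]
              split_ifs <;> rfl
          have h7 : dfc (col' col γ β) (G (m - Finsupp.single i 1) 0 1) + 1 = dfc col m := by
            unfold dfc
            rw [three hβ hγ hγβ, three hβ hγ hγβ]
            rw [sc_G, sc_G, sc_G]
            have e1 := es c
            have e2 := es β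
            have e3 := es γ
            rw [if_pos rfl] at e1
            rw [if_neg hβ.symm] at e2
            rw [if_neg hγ.symm] at e3
            rw [ite_self, ite_self, ite_self, if_neg hβ, if_pos rfl, if_neg hγβ.symm]
            omega
          have h8 : ∑ m' ∈ f.support \ {m}, dfc col m' + dfc col m =
              ∑ m' ∈ f.support, dfc col m' := by
            have := Finset.sum_sdiff (f := fun m' => dfc col m')
              (Finset.singleton_subset_iff.2 hm)
            rw [Finset.sum_singleton] at this
            exact this
          omega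
  intro n f
  refine red K P (fun n f hf => ?_) (fun n f u v _ _ h _ => h1 n f u v h) n f
  obtain ⟨T, hT⟩ := hf
  refine key _ n f (fun _ => 0) (fun m hm => ?_) le_rfl
  obtain ⟨g1, g2, g3⟩ := hT m hm
  refine ⟨g1, ?_⟩
  have := Finset.sum_add_sum_compl T (fun i => m i)
  omega

end

end Pool.Agent.V7H32.GL
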