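import Pool.Agent.N101.CB.GStab
import Pool.Agent.V7H32.GL.Defs
import Pool.Agent.Y229.MS.Stm

/-!
# Functional equations on principal open sets

If `g * b(s) f ^ s` lies in `D[s] f ^ (s + 1)`, `f ≠ 0` and `b(-1) = 0`, `b = (s + 1) c(s)`, then
`(s + 1) c(s + 1) G ^ s` lies in `D[s] G ^ (s + 1)`, `G = f + y (u g - 1)`.
-/

set_option autoImplicit false

namespace Pool.Agent.V7H32.GL

open MvPolynomial
open Pool.Agent.H628R4.TP
open Pool.Agent.Y229.RE (Sep aeval_eig mul_mem pd_mem extend pd_rn)
open Pool.Agent.N101.CB.BGl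
open Pool.Agent.Y229.MS (addyz)

variable {n : ℕ} {f g : MvPolynomial (Fin n) ℂ}

/-- **The reduced functional equation, with a multiplier.** -/
theorem reducedG (hf0 : f ≠ 0) {b : Polynomial ℂ}
    (hb : WW (B1 f) (fun s => b.eval (s : ℂ) • (g * f ^ s))) :
    (∃ Q : MvPolynomial (Fin n) ℂ, MvPolynomial.C (b.eval (-1)) * g = f * Q) ∧
      (b.eval (-1) = 0 → ∀ c : Polynomial ℂ, b = (Polynomial.X + 1) * c →
        WW (B2 f) (fun s => c.eval (s : ℂ) • (g * f ^ s))) := by
  obtain ⟨Q, hQ, F', hF', h1⟩ := split hb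
  obtain ⟨D, p, hp⟩ := CC.op (f := f) Q hQ (CC.pow f)
  obtain ⟨E, q, hq⟩ := CC.of_WW hF'
  -- the polynomial identity
  have h2 : Polynomial.C (f ^ (D + E) * g) * b.map (MvPolynomial.C (σ := Fin n)) =
      Polynomial.C (f ^ (E + 1)) * p.comp (Polynomial.X + 1) +
        (Polynomial.X + 1) * (Polynomial.C (f ^ D) * q) := by
    refine poly_ext fun s => ?_
    have h3 := h1 s
    have h4 := hp (s + 1)
    have h5 := hq s
    have hcs : (s : MvPolynomial (Fin n) ℂ) = MvPolynomial.C (s : ℂ) := by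
      rw [map_natCast]
    beta_reduce at h3
    rw [eval_map, ← hcs] at h3
    simp only [Polynomial.eval_mul, Polynomial.eval_C, Polynomial.eval_add, Polynomial.eval_comp,
      Polynomial.eval_X, Polynomial.eval_one]
    have hc2 : ((s : ℂ) + 1) • F' s = ((s : MvPolynomial (Fin n) ℂ) + 1) * F' s := by
      rw [MvPolynomial.smul_eq_C_mul, map_add, map_one, ← hcs]
    rw [hc2] at h3
    push_cast at h4
    refine mul_left_cancel₀ (pow_ne_zero s hf0) ?_
    have h6 : f ^ (s + 1) = f ^ s * f := pow_succ f s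
    rw [pow_add, pow_succ f E]
    rw [h6] at h3 h4
    linear_combination f ^ D * f ^ E * h3 + f ^ E * h4 +
      ((s : MvPolynomial (Fin n) ℂ) + 1) * f ^ D * h5
  have h3 := congrArg (Polynomial.eval (-1)) h2
  have h4 := hp 0
  simp only [Polynomial.eval_mul, Polynomial.eval_C, Polynomial.eval_add, Polynomial.eval_comp,
    Polynomial.eval_X, Polynomial.eval_one, neg_add_cancel, zero_mul, add_zero] at h3
  rw [Nat.cast_zero, pow_zero, one_mul] at h4
  rw [← h4] at h3
  have h8 : (b.map (MvPolynomial.C (σ := Fin n))).eval (-1) =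
      MvPolynomial.C (b.eval (-1)) := by
    rw [show (-1 : MvPolynomial (Fin n) ℂ) = MvPolynomial.C (-1 : ℂ) by
      rw [map_neg, map_one], Polynomial.eval_map, Polynomial.eval₂_hom]
  have h5 : MvPolynomial.C (b.eval (-1)) * g = f * Q 1 := by
    refine mul_left_cancel₀ (pow_ne_zero (D + E) hf0) ?_
    rw [← h8]
    rw [pow_add, pow_succ] at h3
    rw [pow_add]
    simp only [pow_zero] at h3
    linear_combination h3
  refine ⟨⟨Q 1, h5⟩, fun h6 c hc => ?_⟩
  have h7 : Q 1 = 0 := by
    rw [h6, map_zero, zero_mul] at h5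
    exact (mul_eq_zero.1 h5.symm).resolve_left hf0
  obtain ⟨P, hP⟩ := LI.of_one hQ h7
  have h11 : WW (B2 f) (fun s => ∑ i, (P i : Module.End ℂ (MvPolynomial (Fin n) ℂ))
      (B2 f (some i) s) + F' s) :=
    (WW.sum _ _ fun i _ => (WW.base (B := B2 f) (some i)).op _ (P i).2).add (WW.of_B1 hF')
  convert h11 using 2 with s
  have h9 := h1 s
  have hs : ((s : ℂ) + 1) ≠ 0 := by exact_mod_cast Nat.succ_ne_zero s
  have h10 : Q (f ^ (s + 1)) = ((s : ℂ) + 1) • ∑ i,
      (P i : Module.End ℂ (MvPolynomial (Fin n) ℂ)) (B2 f (some i) s) := by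
    rw [hP, LinearMap.sum_apply, Finset.smul_sum]
    refine Finset.sum_congr rfl fun i _ => ?_
    rw [Module.End.mul_apply, ← map_smul]
    congr 1
    show pderiv i (f ^ (s + 1)) = ((s : ℂ) + 1) • (pderiv i f * f ^ s)
    rw [Derivation.leibniz_pow, Nat.add_sub_cancel, smul_eq_mul, mul_comm,
      ← Nat.cast_smul_eq_nsmul ℂ]
    push_cast
    rfl
  beta_reduce at h9
  rw [h10, ← smul_add, hc, Polynomial.eval_mul, Polynomial.eval_add, Polynomial.eval_X,
    Polynomial.eval_one, mul_smul] at h9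
  exact smul_right_injective _ hs h9

/-! ### the polynomial `f + y z` -/

section
variable {N M k : ℕ} {ι : Fin N → Fin M} {y z : Fin k → Fin M}

lemma TT_mul (h : Sep ι y z) (s : ℂ) (a : MvPolynomial (Fin N) ℂ) (u : MvPolynomial (Fin M) ℂ) :
    TT y s (rename ι a * u) = rename ι a * TT y s u := by
  rw [TT_apply, TT_apply, Th_mul, Th_rn h, zero_mul, add_zero, mul_sub, mul_smul_comm]

lemma TT_pow_mul (h : Sep ι y z) (s : ℂ) (a : MvPolynomial (Fin N) ℂ)
    (u : MvPolynomial (Fin M) ℂ) (j : ℕ) :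
    (TT y s ^ j) (rename ι a * u) = rename ι a * (TT y s ^ j) u := by
  induction j with
  | zero => simp
  | succ j ih => rw [pow_succ', Module.End.mul_apply, ih, TT_mul h, Module.End.mul_apply]

lemma TT_aeval_mul (h : Sep ι y z) (s : ℂ) (c : Polynomial ℂ) (a : MvPolynomial (Fin N) ℂ)
    (u : MvPolynomial (Fin M) ℂ) :
    Polynomial.aeval (TT y s) c (rename ι a * u) = rename ι a * Polynomial.aeval (TT y s) c u := by
  induction c using Polynomial.induction_on' with
  | add p q hp hq =>
    rw [map_add, LinearMap.add_apply, LinearMap.add_apply, hp, hq, mul_add]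
  | monomial j c =>
    rw [Polynomial.aeval_monomial, Module.End.mul_apply, Module.algebraMap_end_apply,
      Module.End.mul_apply, Module.algebraMap_end_apply, TT_pow_mul h, mul_smul_comm]

lemma LF_cg (h : Sep ι y z) (f a : MvPolynomial (Fin N) ℂ) (c : Polynomial ℂ) (s : ℕ) :
    LF ι y z (fun s => c.eval (s : ℂ) • (a * f ^ s)) s =
      rename ι a * Polynomial.aeval (TT y (s : ℂ)) c ((rename ι f + qq y z) ^ s) := by
  rw [← TT_aeval_mul h, pow_expand ι y z f a s, map_sum]
  unfold LF
  refine Finset.sum_congr rfl fun j hj => ?_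
  have hjs : j ≤ s := by rw [Finset.mem_range] at hj; omega
  have hc : ((s - j : ℕ) : ℂ) = (s : ℂ) - j := by push_cast [hjs]; ring
  rw [map_smul (Polynomial.aeval (TT y (s : ℂ)) c), aeval_eig _ _ _ (TT_eig h (s : ℂ) _ j),
    map_smul, hc, smul_mul_assoc]

/-- **The reduced functional equation of `f + ∑ y_i z_i`, with a multiplier.** -/
theorem red_stabG (h : Sep ι y z) (f a : MvPolynomial (Fin N) ℂ) (c : Polynomial ℂ)
    (hc : WW (B2 f) (fun s => c.eval (s : ℂ) • (a * f ^ s))) :
    WW (B2 (rename ι f + qq y z)) (fun s =>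
      (c.comp (Polynomial.X + Polynomial.C (k : ℂ))).eval (s : ℂ) •
        (rename ι a * (rename ι f + qq y z) ^ s)) := by
  have h1 := (lift h f hc).add ((main2 h f c).mulL (rename ι a))
  convert h1 using 2 with s
  rw [LF_cg h, Polynomial.eval_comp, Polynomial.eval_add, Polynomial.eval_X, Polynomial.eval_C,
    mul_sub, mul_smul_comm]
  abel

end

/-! ### the polynomial `f + y (u g - 1)` -/

/-- the variable `y` -/
noncomputable abbrev Yv (n : ℕ) : MvPolynomial (Fin (n + 2)) ℂ := X (Fin.natAdd n 0)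

/-- the variable `u` (or `z`) -/
noncomputable abbrev Uv (n : ℕ) : MvPolynomial (Fin (n + 2)) ℂ := X (Fin.natAdd n 1)

/-- a polynomial in `x`, as a polynomial in `x, y, u` -/
noncomputable abbrev rn (p : MvPolynomial (Fin n) ℂ) : MvPolynomial (Fin (n + 2)) ℂ :=
  rename (Fin.castAdd 2) p

/-- the substitution `z ↦ u g - 1` -/
noncomputable def ta (g : MvPolynomial (Fin n) ℂ) :
    MvPolynomial (Fin (n + 2)) ℂ →ₐ[ℂ] MvPolynomial (Fin (n + 2)) ℂ :=
  aeval (Fin.addCases (fun i => X (Fin.castAdd 2 i))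
    ![X (Fin.natAdd n 0), X (Fin.natAdd n 1) * rename (Fin.castAdd 2) g - 1])

theorem ta_x (g : MvPolynomial (Fin n) ℂ) (i : Fin n) :
    ta g (X (Fin.castAdd 2 i)) = X (Fin.castAdd 2 i) := by
  unfold ta
  rw [aeval_X, Fin.addCases_left]

theorem ta_y (g : MvPolynomial (Fin n) ℂ) :
    ta g (X (Fin.natAdd n 0)) = X (Fin.natAdd n 0) := by
  unfold ta
  rw [aeval_X, Fin.addCases_right]
  rfl

theorem ta_z (g : MvPolynomial (Fin n) ℂ) :
    ta g (X (Fin.natAdd n 1)) = X (Fin.natAdd n 1) * rename (Fin.castAdd 2) g - 1 := by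
  unfold ta
  rw [aeval_X, Fin.addCases_right]
  rfl

theorem ta_rename (g p : MvPolynomial (Fin n) ℂ) :
    ta g (rename (Fin.castAdd 2) p) = rename (Fin.castAdd 2) p := by
  have h : (ta g).comp (rename (Fin.castAdd 2)) =
      (rename (Fin.castAdd 2) : MvPolynomial (Fin n) ℂ →ₐ[ℂ] _) := by
    apply MvPolynomial.algHom_ext
    intro i
    rw [AlgHom.comp_apply, rename_X, ta_x]
  exact DFunLike.congr_fun h p

theorem ta_addyz (f g : MvPolynomial (Fin n) ℂ) : ta g (addyz f) = yug f g := by
  unfold addyz yug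
  rw [map_add, map_mul, ta_rename, ta_y, ta_z]

theorem castAdd_ne' (i : Fin n) (j : Fin 2) : Fin.castAdd 2 i ≠ Fin.natAdd n j := by
  intro h
  have h1 := congrArg Fin.val h
  simp only [Fin.val_castAdd, Fin.val_natAdd] at h1
  have := i.2
  omega

theorem nat01 : (Fin.natAdd n (0 : Fin 2)) ≠ Fin.natAdd n 1 := by
  intro h
  have := congrArg Fin.val h
  simp at this

theorem pd_nat_rn (j : Fin 2) (p : MvPolynomial (Fin n) ℂ) :
    pderiv (Fin.natAdd n j) (rename (Fin.castAdd 2) p) = 0 :=
  pd_rn (fun i => castAdd_ne' i j) p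

theorem pd_cast_rn (i : Fin n) (p : MvPolynomial (Fin n) ℂ) :
    pderiv (Fin.castAdd 2 i) (rename (Fin.castAdd 2) p) = rename (Fin.castAdd 2) (pderiv i p) :=
  pderiv_rename (Fin.castAdd_injective _ _) i p

/-- the chain rule for `∂_y` -/
theorem pd_ta_y (g : MvPolynomial (Fin n) ℂ) (p : MvPolynomial (Fin (n + 2)) ℂ) :
    pderiv (Fin.natAdd n 0) (ta g p) = ta g (pderiv (Fin.natAdd n 0) p) := by
  induction p using MvPolynomial.induction_on with
  | C c => rw [algHom_C, pderiv_C, map_zero]; exact pderiv_C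
  | add p q hp hq => rw [map_add, map_add, map_add, map_add, hp, hq]
  | mul_X p i hp =>
    rw [map_mul, Derivation.leibniz, Derivation.leibniz, map_add, hp]
    simp only [smul_eq_mul, map_mul]
    congr 2
    refine Fin.addCases (fun i => ?_) (fun i => ?_) i
    · rw [ta_x, pderiv_X_of_ne (castAdd_ne' i 0), map_zero]
    · fin_cases i
      · show pderiv (Fin.natAdd n 0) (ta g (X (Fin.natAdd n 0))) =
          ta g (pderiv (Fin.natAdd n 0) (X (Fin.natAdd n 0)))
        rw [ta_y, pderiv_X_self, map_one]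
      · show pderiv (Fin.natAdd n 0) (ta g (X (Fin.natAdd n 1))) =
          ta g (pderiv (Fin.natAdd n 0) (X (Fin.natAdd n 1)))
        rw [ta_z, pderiv_X_of_ne nat01.symm, map_zero, map_sub, Derivation.leibniz,
          pderiv_X_of_ne nat01.symm, pd_nat_rn, pderiv_one, smul_zero, smul_zero, add_zero,
          sub_zero]

/-- the chain rule for `∂_u` -/
theorem pd_ta_u (g : MvPolynomial (Fin n) ℂ) (p : MvPolynomial (Fin (n + 2)) ℂ) :
    pderiv (Fin.natAdd n 1) (ta g p) =
      rename (Fin.castAdd 2) g * ta g (pderiv (Fin.natAdd n 1) p) := by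
  induction p using MvPolynomial.induction_on with
  | C c => rw [algHom_C, pderiv_C, map_zero, mul_zero]; exact pderiv_C
  | add p q hp hq => rw [map_add, map_add, map_add, map_add, hp, hq, mul_add]
  | mul_X p i hp =>
    have h1 : pderiv (Fin.natAdd n 1) (ta g (X i)) =
        rename (Fin.castAdd 2) g * ta g (pderiv (Fin.natAdd n 1) (X i)) := by
      refine Fin.addCases (fun i => ?_) (fun i => ?_) i
      · rw [ta_x, pderiv_X_of_ne (castAdd_ne' i 1), map_zero, mul_zero]
      · fin_cases i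
        · show pderiv (Fin.natAdd n 1) (ta g (X (Fin.natAdd n 0))) =
            rename (Fin.castAdd 2) g * ta g (pderiv (Fin.natAdd n 1) (X (Fin.natAdd n 0)))
          rw [ta_y, pderiv_X_of_ne nat01, map_zero, mul_zero]
        · show pderiv (Fin.natAdd n 1) (ta g (X (Fin.natAdd n 1))) =
            rename (Fin.castAdd 2) g * ta g (pderiv (Fin.natAdd n 1) (X (Fin.natAdd n 1)))
          rw [ta_z, pderiv_X_self, map_one, map_sub, Derivation.leibniz, pderiv_X_self, pd_nat_rn,
            pderiv_one, smul_zero, zero_add, sub_zero, smul_eq_mul]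
    rw [map_mul, Derivation.leibniz, Derivation.leibniz, map_add, hp, h1]
    simp only [smul_eq_mul, map_mul]
    ring

/-- the chain rule for `∂_{x_i}` -/
theorem pd_ta_x (g : MvPolynomial (Fin n) ℂ) (k : Fin n) (p : MvPolynomial (Fin (n + 2)) ℂ) :
    pderiv (Fin.castAdd 2 k) (ta g p) =
      ta g (pderiv (Fin.castAdd 2 k) p) + Uv n * rename (Fin.castAdd 2) (pderiv k g) *
        ta g (pderiv (Fin.natAdd n 1) p) := by
  induction p using MvPolynomial.induction_on with
  | C c => rw [algHom_C, pderiv_C, pderiv_C, map_zero, mul_zero, add_zero]; exact pderiv_C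
  | add p q hp hq =>
    rw [map_add, map_add, map_add, map_add, map_add, map_add, hp, hq]
    ring
  | mul_X p i hp =>
    have h1 : pderiv (Fin.castAdd 2 k) (ta g (X i)) =
        ta g (pderiv (Fin.castAdd 2 k) (X i)) + Uv n * rename (Fin.castAdd 2) (pderiv k g) *
        ta g (pderiv (Fin.natAdd n 1) (X i)) := by
      refine Fin.addCases (fun i => ?_) (fun i => ?_) i
      · rw [ta_x, pderiv_X_of_ne (castAdd_ne' i 1), map_zero, mul_zero, add_zero]
        by_cases hik : i = k
        · subst hik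
          rw [pderiv_X_self, map_one]
        · rw [pderiv_X_of_ne (fun h => hik (Fin.castAdd_injective _ _ h)), map_zero]
      · rw [pderiv_X_of_ne (castAdd_ne' k i).symm, map_zero, zero_add]
        fin_cases i
        · show pderiv (Fin.castAdd 2 k) (ta g (X (Fin.natAdd n 0))) =
            _ * ta g (pderiv (Fin.natAdd n 1) (X (Fin.natAdd n 0)))
          rw [ta_y, pderiv_X_of_ne nat01, map_zero, mul_zero,
            pderiv_X_of_ne (castAdd_ne' k 0).symm]
        · show pderiv (Fin.castAdd 2 k) (ta g (X (Fin.natAdd n 1))) =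
            _ * ta g (pderiv (Fin.natAdd n 1) (X (Fin.natAdd n 1)))
          rw [ta_z, pderiv_X_self, map_one, map_sub, Derivation.leibniz,
            pderiv_X_of_ne (castAdd_ne' k 1).symm, pd_cast_rn, pderiv_one, smul_zero, add_zero,
            sub_zero, smul_eq_mul, mul_one]
    rw [map_mul, Derivation.leibniz, Derivation.leibniz, Derivation.leibniz, map_add, map_add, hp,
      h1]
    simp only [smul_eq_mul, map_mul]
    ring

end Pool.Agent.V7H32.GL
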