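import Pool.Agent.V7H32.GL.DM
import Pool.Agent.N101.CB.BG

/-!
# Functional equations on principal open sets: transport to `f + y (u g - 1)`
-/

set_option autoImplicit false

namespace Pool.Agent.V7H32.GL

open MvPolynomial
open Pool.Agent.H628R4.TP
open Pool.Agent.Y229.RE (Sep aeval_eig mul_mem pd_mem extend pd_rn)
open Pool.Agent.N101.CB.BGl
open Pool.Agent.Y229.MS (addyz)

variable {n : ℕ} {f g : MvPolynomial (Fin n) ℂ}

/-- the sequences which are in the module of `G` after multiplication by a power of `g` -/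
def TC (f g : MvPolynomial (Fin n) ℂ) (F : ℕ → MvPolynomial (Fin (n + 2)) ℂ) : Prop :=
  ∃ M : ℕ, ∀ m : ℕ, M ≤ m →
    WW (B2 (yug f g)) (fun s => rename (Fin.castAdd 2) g ^ m * ta g (F s))

theorem TC.add {F F' : ℕ → MvPolynomial (Fin (n + 2)) ℂ} (h : TC f g F) (h' : TC f g F') :
    TC f g (fun s => F s + F' s) := by
  obtain ⟨M, hM⟩ := h
  obtain ⟨M', hM'⟩ := h'
  refine ⟨max M M', fun m hm => ?_⟩
  have h1 := (hM m (le_trans (le_max_left _ _) hm)).add (hM' m (le_trans (le_max_right _ _) hm))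
  convert h1 using 2 with s
  rw [map_add, mul_add]

theorem TC.zero : TC f g (fun _ => 0) := by
  refine ⟨0, fun m _ => ?_⟩
  have h1 := WW.zero (B := B2 (yug f g))
  convert h1 using 2 with s
  rw [map_zero, mul_zero]

theorem TC.smulS {F : ℕ → MvPolynomial (Fin (n + 2)) ℂ} (h : TC f g F) :
    TC f g (fun s => (s : ℂ) • F s) := by
  obtain ⟨M, hM⟩ := h
  refine ⟨M, fun m hm => ?_⟩
  convert (hM m hm).smulS using 2 with s
  rw [map_smul, mul_smul_comm]

theorem TC.mulL {F : ℕ → MvPolynomial (Fin (n + 2)) ℂ} (h : TC f g F)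
    (u : MvPolynomial (Fin (n + 2)) ℂ) : TC f g (fun s => u * F s) := by
  obtain ⟨M, hM⟩ := h
  refine ⟨M, fun m hm => ?_⟩
  convert (hM m hm).mulL (ta g u) using 2 with s
  rw [map_mul]
  ring

/-- `∂_u` on the products with powers of `g` -/
theorem pd_u_mul (m : ℕ) (p : MvPolynomial (Fin (n + 2)) ℂ) :
    pderiv (Fin.natAdd n 1) (rename (Fin.castAdd 2) g ^ m * p) =
      rename (Fin.castAdd 2) g ^ m * pderiv (Fin.natAdd n 1) p := by
  rw [Derivation.leibniz, ← map_pow, pd_nat_rn, smul_zero, add_zero, smul_eq_mul]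

theorem pd_y_mul (m : ℕ) (p : MvPolynomial (Fin (n + 2)) ℂ) :
    pderiv (Fin.natAdd n 0) (rename (Fin.castAdd 2) g ^ m * p) =
      rename (Fin.castAdd 2) g ^ m * pderiv (Fin.natAdd n 0) p := by
  rw [Derivation.leibniz, ← map_pow, pd_nat_rn, smul_zero, add_zero, smul_eq_mul]

theorem pd_x_mul (k : Fin n) (m : ℕ) (p : MvPolynomial (Fin (n + 2)) ℂ) :
    pderiv (Fin.castAdd 2 k) (rename (Fin.castAdd 2) g ^ (m + 1) * p) =
      rename (Fin.castAdd 2) g ^ (m + 1) * pderiv (Fin.castAdd 2 k) p +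
        ((m + 1 : ℕ) : MvPolynomial (Fin (n + 2)) ℂ) * rename (Fin.castAdd 2) (pderiv k g) *
          (rename (Fin.castAdd 2) g ^ m * p) := by
  rw [Derivation.leibniz, Derivation.leibniz_pow, pd_cast_rn, Nat.add_sub_cancel]
  simp only [smul_eq_mul, nsmul_eq_mul]
  ring

theorem TC.pd {F : ℕ → MvPolynomial (Fin (n + 2)) ℂ} (h : TC f g F) (i : Fin (n + 2)) :
    TC f g (fun s => pderiv i (F s)) := by
  obtain ⟨M, hM⟩ := h
  refine Fin.addCases (fun k => ?_) (fun j => ?_) i
  · refine ⟨M + 1, fun m hm => ?_⟩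
    obtain ⟨m, rfl⟩ : ∃ m', m = m' + 1 := ⟨m - 1, by omega⟩
    have hm' : M ≤ m := by omega
    have h0 := hM m hm'
    have h1 := (hM (m + 1) (by omega)).op _ (pl_mem (Fin.castAdd 2 k))
    have h2 := h0.op _ (pl_mem (Fin.natAdd n 1))
    have h3 := (h1.sub (h0.mulL (((m + 1 : ℕ) : MvPolynomial (Fin (n + 2)) ℂ) *
      rename (Fin.castAdd 2) (pderiv k g)))).sub
        (h2.mulL (Uv n * rename (Fin.castAdd 2) (pderiv k g)))
    convert h3 using 2 with s
    rw [pl_apply, pl_apply, pd_x_mul, pd_u_mul, pd_ta_x, pd_ta_u]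
    ring
  · fin_cases j
    · refine ⟨M, fun m hm => ?_⟩
      have h1 := (hM m hm).op _ (pl_mem (Fin.natAdd n 0))
      convert h1 using 2 with s
      rw [pl_apply, pd_y_mul, pd_ta_y]
      rfl
    · refine ⟨M + 1, fun m hm => ?_⟩
      obtain ⟨m, rfl⟩ : ∃ m', m = m' + 1 := ⟨m - 1, by omega⟩
      have h1 := (hM m (by omega)).op _ (pl_mem (Fin.natAdd n 1))
      convert h1 using 2 with s
      rw [pl_apply, pd_u_mul, pd_ta_u]
      show rename (Fin.castAdd 2) g ^ (m + 1) * ta g (pderiv (Fin.natAdd n 1) (F s)) = _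
      ring

theorem TC.op (Q : Module.End ℂ (MvPolynomial (Fin (n + 2)) ℂ)) (hQ : Q ∈ weylS (Fin (n + 2))) :
    ∀ {F : ℕ → MvPolynomial (Fin (n + 2)) ℂ}, TC f g F → TC f g (fun s => Q (F s)) := by
  unfold weylS at hQ
  induction hQ using Algebra.adjoin_induction with
  | mem P hP =>
    intro F hF
    rcases hP with ⟨u, rfl⟩ | ⟨i, rfl⟩
    · exact hF.mulL (X u)
    · exact hF.pd i
  | algebraMap c =>
    intro F hF
    have h1 := hF.mulL (MvPolynomial.C c)
    convert h1 using 2 with s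
    rw [Module.algebraMap_end_apply, MvPolynomial.smul_eq_C_mul]
  | add P Q _ _ hP hQ =>
    intro F hF
    exact (hP hF).add (hQ hF)
  | mul P Q _ _ hP hQ =>
    intro F hF
    exact hP (hQ hF)

/-! ### derivatives of `G` -/

theorem pd_G_y : pderiv (Fin.natAdd n 0) (yug f g) = Uv n * rn g - 1 := by
  rw [← ta_addyz, pd_ta_y, addyz, map_add, pd_nat_rn, zero_add, Derivation.leibniz,
    pderiv_X_of_ne nat01.symm, pderiv_X_self, smul_zero, zero_add, smul_eq_mul, mul_one, ta_z]

theorem pd_addyz_z : pderiv (Fin.natAdd n 1) (addyz f) = Yv n := by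
  rw [addyz, map_add, pd_nat_rn, zero_add, Derivation.leibniz,
    pderiv_X_of_ne nat01, pderiv_X_self, smul_zero, add_zero, smul_eq_mul, mul_one]

theorem pd_addyz_x (k : Fin n) : pderiv (Fin.castAdd 2 k) (addyz f) = rn (pderiv k f) := by
  rw [addyz, map_add, pd_cast_rn, Derivation.leibniz,
    pderiv_X_of_ne (castAdd_ne' k 0).symm, pderiv_X_of_ne (castAdd_ne' k 1).symm, smul_zero,
    smul_zero, add_zero, add_zero]

theorem pd_G_u : pderiv (Fin.natAdd n 1) (yug f g) = rn g * Yv n := by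
  rw [← ta_addyz, pd_ta_u, pd_addyz_z, ta_y]

theorem pd_G_x (k : Fin n) : pderiv (Fin.castAdd 2 k) (yug f g) =
    rn (pderiv k f) + Uv n * rn (pderiv k g) * Yv n := by
  rw [← ta_addyz, pd_ta_x, pd_addyz_z, ta_y, pd_addyz_x, ta_rename]

theorem TC.base (i : Option (Fin (n + 2))) : TC f g (B2 (addyz f) i) := by
  cases i with
  | none =>
    refine ⟨0, fun m _ => ?_⟩
    have h1 := (WW.base (B := B2 (yug f g)) none).mulL (rn g ^ m)
    convert h1 using 2 with s
    show _ * ta g (addyz f ^ (s + 1)) = rn g ^ m * (yug f g) ^ (s + 1)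
    rw [map_pow, ta_addyz]
  | some i =>
    have hs : ∀ (i : Fin (n + 2)) (s : ℕ), ta g (B2 (addyz f) (some i) s) =
        ta g (pderiv i (addyz f)) * (yug f g) ^ s := by
      intro i s
      show ta g (pderiv i (addyz f) * addyz f ^ s) = _
      rw [map_mul, map_pow, ta_addyz]
    refine Fin.addCases (fun k => ?_) (fun j => ?_) i
    · refine ⟨1, fun m hm => ?_⟩
      obtain ⟨m, rfl⟩ : ∃ m', m = m' + 1 := ⟨m - 1, by omega⟩
      have h1 := ((WW.base (B := B2 (yug f g)) (some (Fin.castAdd 2 k))).mulL (rn g ^ (m + 1))).sub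
        ((WW.base (B := B2 (yug f g)) (some (Fin.natAdd n 1))).mulL
          (rn g ^ m * (Uv n * rn (pderiv k g))))
      convert h1 using 2 with s
      rw [hs, pd_addyz_x, ta_rename]
      show _ = rn g ^ (m + 1) * (pderiv (Fin.castAdd 2 k) (yug f g) * (yug f g) ^ s) -
        rn g ^ m * (Uv n * rn (pderiv k g)) *
          (pderiv (Fin.natAdd n 1) (yug f g) * (yug f g) ^ s)
      rw [pd_G_x, pd_G_u]
      ring
    · fin_cases j
      · refine ⟨0, fun m _ => ?_⟩
        have h1 := (WW.base (B := B2 (yug f g)) (some (Fin.natAdd n 0))).mulL (rn g ^ m)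
        convert h1 using 2 with s
        show _ * ta g (B2 (addyz f) (some (Fin.natAdd n 0)) s) =
          rn g ^ m * (pderiv (Fin.natAdd n 0) (yug f g) * (yug f g) ^ s)
        rw [hs, ← pd_ta_y, ta_addyz]
      · refine ⟨1, fun m hm => ?_⟩
        obtain ⟨m, rfl⟩ : ∃ m', m = m' + 1 := ⟨m - 1, by omega⟩
        have h1 := (WW.base (B := B2 (yug f g)) (some (Fin.natAdd n 1))).mulL (rn g ^ m)
        convert h1 using 2 with s
        show _ * ta g (B2 (addyz f) (some (Fin.natAdd n 1)) s) =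
          rn g ^ m * (pderiv (Fin.natAdd n 1) (yug f g) * (yug f g) ^ s)
        rw [hs, pd_addyz_z, pd_G_u, ta_y]
        ring

theorem TC.of_WW {F : ℕ → MvPolynomial (Fin (n + 2)) ℂ} (h : WW (B2 (addyz f)) F) :
    TC f g F := by
  induction h with
  | base i => exact TC.base i
  | zero => exact TC.zero
  | add _ _ h1 h2 => exact h1.add h2
  | op Q hQ _ h1 => exact TC.op Q hQ h1
  | smulS _ h1 => exact h1.smulS

/-! ### removing the multiplier -/

theorem smulPoly {ι : Type} {N : ℕ} {B : ι → ℕ → MvPolynomial (Fin N) ℂ}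
    {F : ℕ → MvPolynomial (Fin N) ℂ} (h : WW B F) (c : Polynomial ℂ) :
    WW B (fun s => c.eval (s : ℂ) • F s) := by
  induction c using Polynomial.induction_on' with
  | add p q hp hq =>
    convert hp.add hq using 2 with s
    rw [Polynomial.eval_add, add_smul]
  | monomial m c =>
    have h1 : ∀ m : ℕ, WW B (fun s => ((s : ℂ) ^ m) • F s) := by
      intro m
      induction m with
      | zero => simpa using h
      | succ m ih =>
        convert ih.smulS using 2 with s
        rw [smul_smul, pow_succ, mul_comm]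
    convert (h1 m).smulC c using 2 with s
    rw [Polynomial.eval_monomial, mul_smul]

/-- **From the open set `g ≠ 0` to the hypersurface `f + y (u g - 1) = 0`.** -/
theorem opn {c : Polynomial ℂ} (k : ℕ)
    (h : WW (B2 f) (fun s => c.eval (s : ℂ) • (g ^ k * f ^ s))) :
    WW (B2 (yug f g)) (fun s => (c.comp (Polynomial.X + 1)).eval (s : ℂ) • (yug f g) ^ s) := by
  have h1 := red_stabG (sep_stab (N := n) (k := 1)) f (g ^ k) c h
  have e0 : rename (Fin.castAdd (1 + 1)) f + qq (fun i : Fin 1 => Fin.natAdd n (Fin.castAdd 1 i))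
      (fun i : Fin 1 => Fin.natAdd n (Fin.natAdd 1 i)) = addyz f := by
    unfold addyz qq
    rw [Fin.sum_univ_one]
    rfl
  rw [e0, Nat.cast_one, Polynomial.C_1] at h1
  obtain ⟨M, hM⟩ := TC.of_WW (g := g) h1
  set c' := c.comp (Polynomial.X + 1) with hc'
  have h2 := hM M le_rfl
  have h3 : WW (B2 (yug f g)) (fun s => c'.eval (s : ℂ) • (rn g ^ (M + k) * (yug f g) ^ s)) := by
    convert h2 using 2 with s
    rw [map_smul, map_mul, map_pow (ta g) (addyz f) s, ta_addyz]
    show _ = rn g ^ M * (c'.eval (s : ℂ) •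
      (ta g (rename (Fin.castAdd 2) (g ^ k)) * (yug f g) ^ s))
    rw [ta_rename, mul_smul_comm, map_pow]
    congr 1
    ring
  obtain ⟨q, hq⟩ : (Uv n * rn g - 1) ∣ ((Uv n * rn g) ^ (M + k) - 1) := by
    simpa using sub_dvd_pow_sub_pow (Uv n * rn g) 1 (M + k)
  have h4 := smulPoly (WW.base (B := B2 (yug f g)) (some (Fin.natAdd n 0))) c'
  have h5 := (h3.mulL (Uv n ^ (M + k))).sub (h4.mulL q)
  convert h5 using 2 with s
  show _ = _ - q * (c'.eval (s : ℂ) • (pderiv (Fin.natAdd n 0) (yug f g) * (yug f g) ^ s))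
  rw [pd_G_y, mul_smul_comm, mul_smul_comm, ← smul_sub]
  congr 1
  rw [mul_pow] at hq
  linear_combination (-(yug f g) ^ s) * hq

/-- the reduced equation gives the functional equation -/
theorem opnB {c : Polynomial ℂ} (k : ℕ)
    (h : WW (B2 f) (fun s => c.eval (s : ℂ) • (g ^ k * f ^ s))) :
    IsBFunction (yug f g) ((Polynomial.X + 1) * c.comp (Polynomial.X + 1)) :=
  formal_iff.2 (unreduced (opn k h))

end Pool.Agent.V7H32.GL
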