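import Pool.Agent.V7H32.GL.DM2
import Pool.Agent.N101.CB.Stm

/-!
# Singular points of `f + y (u g - 1)` and of `f + (t + v) (w - u)`
-/

set_option autoImplicit false

namespace Pool.Agent.V7H32.GL

open MvPolynomial
open Pool.Agent.N101.CB (stp)
open Pool.Agent.Y229.MS (addyz)

variable {n : ℕ}

theorem sgOn_one (f : MvPolynomial (Fin n) ℂ) : SgOn f 1 = Sg f := by
  ext z
  simp [SgOn]

theorem sgOn_mul (f g u : MvPolynomial (Fin n) ℂ) : SgOn f (g * u) ⊆ SgOn f g := by
  rintro z ⟨h1, h2⟩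
  rw [map_mul] at h2
  exact ⟨h1, left_ne_zero_of_mul h2⟩

/-- the coordinates `x` -/
def px (z : Fin (n + 2) → ℂ) : Fin n → ℂ := fun i => z (Fin.castAdd 2 i)

theorem eval_rn (z : Fin (n + 2) → ℂ) (p : MvPolynomial (Fin n) ℂ) :
    eval z (rename (Fin.castAdd 2) p) = eval (px z) p := by
  rw [eval_rename]
  rfl

theorem ext2 {z z' : Fin (n + 2) → ℂ} (h : px z = px z')
    (h0 : z (Fin.natAdd n 0) = z' (Fin.natAdd n 0)) (h1 : z (Fin.natAdd n 1) = z' (Fin.natAdd n 1)) :
    z = z' := by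
  funext i
  refine Fin.addCases (fun i => ?_) (fun j => ?_) i
  · exact congrFun h i
  · rcases (show j = 0 ∨ j = 1 by omega) with rfl | rfl
    · exact h0
    · exact h1

theorem sg_yug (f g : MvPolynomial (Fin n) ℂ) (z : Fin (n + 2) → ℂ) (hz : z ∈ Sg (yug f g)) :
    px z ∈ SgOn f g ∧ z (Fin.natAdd n 0) = 0 ∧
      z (Fin.natAdd n 1) * eval (px z) g = 1 := by
  obtain ⟨h0, h1⟩ := hz
  have hy := h1 (Fin.natAdd n 0)
  have hu := h1 (Fin.natAdd n 1)
  rw [pd_G_y, map_sub, map_mul, eval_rn, eval_X, map_one] at hy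
  rw [pd_G_u, map_mul, eval_rn, eval_X] at hu
  have hg : z (Fin.natAdd n 1) * eval (px z) g = 1 := by linear_combination hy
  have hg0 : eval (px z) g ≠ 0 := right_ne_zero_of_mul (by rw [hg]; exact one_ne_zero)
  have hy0 : z (Fin.natAdd n 0) = 0 := (mul_eq_zero.1 hu).resolve_left hg0
  refine ⟨⟨⟨?_, fun k => ?_⟩, hg0⟩, hy0, hg⟩
  · rw [yug, map_add, map_mul, eval_rn, eval_X, hy0, zero_mul, add_zero] at h0
    exact h0
  · have hx := h1 (Fin.castAdd 2 k)
    rw [pd_G_x, map_add, map_mul, map_mul, eval_rn, eval_rn, eval_X, eval_X, hy0, mul_zero,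
      add_zero] at hx
    exact hx

/-- **The singular points of `f + y (u g - 1)`.** -/
theorem encard_yug (f g : MvPolynomial (Fin n) ℂ) :
    (Sg (yug f g)).encard ≤ (SgOn f g).encard := by
  refine Set.encard_le_encard_of_injOn (f := px) (fun z hz => (sg_yug f g z hz).1) ?_
  intro z hz z' hz' h
  obtain ⟨-, h1, h2⟩ := sg_yug f g z hz
  obtain ⟨-, h1', h2'⟩ := sg_yug f g z' hz'
  refine ext2 h (by rw [h1, h1']) ?_
  rw [h] at h2
  have hg0 : eval (px z') g ≠ 0 := right_ne_zero_of_mul (by rw [h2]; exact one_ne_zero)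
  exact mul_right_cancel₀ hg0 (by rw [h2, h2'])

section
variable (f u v : MvPolynomial (Fin n) ℂ)

theorem pd_stp_t : pderiv (Fin.natAdd n 0) (stp f u v) =
    X (Fin.natAdd n 1) - rename (Fin.castAdd 2) u := by
  unfold stp
  rw [map_add, pd_nat_rn, Derivation.leibniz, map_add, map_sub, pd_nat_rn, pd_nat_rn,
    pderiv_X_self, pderiv_X_of_ne nat01.symm]
  simp only [smul_eq_mul]
  ring

theorem pd_stp_w : pderiv (Fin.natAdd n 1) (stp f u v) =
    X (Fin.natAdd n 0) + rename (Fin.castAdd 2) v := by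
  unfold stp
  rw [map_add, pd_nat_rn, Derivation.leibniz, map_add, map_sub, pd_nat_rn, pd_nat_rn,
    pderiv_X_self, pderiv_X_of_ne nat01]
  simp only [smul_eq_mul]
  ring

theorem pd_stp_x (k : Fin n) : pderiv (Fin.castAdd 2 k) (stp f u v) =
    rename (Fin.castAdd 2) (pderiv k f) +
      rename (Fin.castAdd 2) (pderiv k v) * (X (Fin.natAdd n 1) - rename (Fin.castAdd 2) u) -
      (X (Fin.natAdd n 0) + rename (Fin.castAdd 2) v) * rename (Fin.castAdd 2) (pderiv k u) := by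
  unfold stp
  rw [map_add, pd_cast_rn, Derivation.leibniz, map_add, map_sub, pd_cast_rn, pd_cast_rn,
    pderiv_X_of_ne (castAdd_ne' k 0).symm, pderiv_X_of_ne (castAdd_ne' k 1).symm]
  simp only [smul_eq_mul]
  ring

theorem sg_stp (z : Fin (n + 2) → ℂ) (hz : z ∈ Sg (stp f u v)) :
    px z ∈ Sg f ∧ z (Fin.natAdd n 0) = -eval (px z) v ∧ z (Fin.natAdd n 1) = eval (px z) u := by
  obtain ⟨h0, h1⟩ := hz
  have ht := h1 (Fin.natAdd n 0)
  have hw := h1 (Fin.natAdd n 1)
  rw [pd_stp_t, map_sub, eval_rn, eval_X] at ht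
  rw [pd_stp_w, map_add, eval_rn, eval_X] at hw
  refine ⟨⟨?_, fun k => ?_⟩, by linear_combination hw, by linear_combination ht⟩
  · rw [stp, map_add, map_mul, map_add, map_sub, eval_rn, eval_rn, eval_rn, eval_X, eval_X, ht,
      mul_zero, add_zero] at h0
    exact h0
  · have hx := h1 (Fin.castAdd 2 k)
    rw [pd_stp_x, map_sub, map_add, map_mul, map_mul, map_add, map_sub, eval_rn, eval_rn, eval_rn,
      eval_rn, eval_rn, eval_X, eval_X, ht, hw, mul_zero, zero_mul, add_zero, sub_zero] at hx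
    exact hx

/-- **The singular points of `f + (t + v) (w - u)`.** -/
theorem encard_stp : (Sg (stp f u v)).encard ≤ (Sg f).encard := by
  refine Set.encard_le_encard_of_injOn (f := px) (fun z hz => (sg_stp f u v z hz).1) ?_
  intro z hz z' hz' h
  obtain ⟨-, h1, h2⟩ := sg_stp f u v z hz
  obtain ⟨-, h1', h2'⟩ := sg_stp f u v z' hz'
  exact ext2 h (by rw [h1, h1', h]) (by rw [h2, h2', h])

end

end Pool.Agent.V7H32.GL
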