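import Pool.Agent.N101.CB.Main
import Pool.Agent.V7H32.GL.Defs

/-!
# Topological zeta functions, with arbitrary integers `ν`
-/

set_option autoImplicit false

namespace Pool.Agent.V7H32.GL

open MvPolynomial Pool.Agent.W428.MOT
open Pool.Agent.N101.CB
open Pool.Agent.W63.MTFin (geo_mul)
open Pool.Agent.Y229.MS (rescale_X' rescale_C' rescale_geo)

/-- `F_{N, ν} = (𝕃 - 1) 𝕃 ^ (-ν) T ^ N / (1 - 𝕃 ^ (-ν) T ^ N)` for `N = p.1 + 1` and `ν = p.2` -/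
noncomputable def FZ (p : ℕ × ℤ) : PowerSeries (MK ℂ) :=
  PowerSeries.C (((Lu ℂ : (MK ℂ)ˣ) : MK ℂ) - 1) *
    (PowerSeries.C (((Lu ℂ) ^ (-p.2) : (MK ℂ)ˣ) : MK ℂ) * PowerSeries.X ^ (p.1 + 1)) *
    geo ℂ (-p.2) ((p.1 + 1 : ℕ) : ℤ)

/-- `1 / (N s + ν)` for `N = p.1 + 1` and `ν = p.2` -/
noncomputable def ftZ (p : ℕ × ℤ) : RatFunc ℂ :=
  (((p.1 : RatFunc ℂ) + 1) * RatFunc.X + (p.2 : RatFunc ℂ))⁻¹

theorem isTopZ_iff {χ : MK ℂ →+* ℂ} {Z : PowerSeries (MK ℂ)} {R : RatFunc ℂ} : IsTopZ χ Z R ↔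
    ∃ Q : MvPolynomial (ℕ × ℤ) (MK ℂ), Z = aeval FZ Q ∧
      R = eval₂ ((algebraMap ℂ (RatFunc ℂ)).comp χ) ftZ Q := Iff.rfl

theorem FZ_Fz (N ν : ℕ) : FZ (N, (ν : ℤ)) = Fz ℂ (N + 1) ν := rfl

/-- the polynomial `N s + ν` -/
noncomputable def lpZ (p : ℕ × ℤ) : Polynomial ℂ :=
  ((p.1 : Polynomial ℂ) + 1) * Polynomial.X + (p.2 : Polynomial ℂ)

theorem ftZ_lp (p : ℕ × ℤ) : ftZ p = (algebraMap (Polynomial ℂ) (RatFunc ℂ) (lpZ p))⁻¹ := by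
  unfold ftZ lpZ
  rw [map_add, map_mul, map_add, map_natCast, map_intCast, map_one, RatFunc.algebraMap_X]

theorem lpZ_eval (p : ℕ × ℤ) (s : ℂ) : (lpZ p).eval s = ((p.1 : ℂ) + 1) * s + (p.2 : ℂ) := by
  unfold lpZ
  simp

section
variable {χ : MK ℂ →+* ℂ} {Z Z' : PowerSeries (MK ℂ)} {R R' : RatFunc ℂ}

theorem topZ_add (h : IsTopZ χ Z R) (h' : IsTopZ χ Z' R') : IsTopZ χ (Z + Z') (R + R') := by
  obtain ⟨Q, rfl, rfl⟩ := isTopZ_iff.1 h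
  obtain ⟨Q', rfl, rfl⟩ := isTopZ_iff.1 h'
  exact isTopZ_iff.2 ⟨Q + Q', by rw [map_add], by rw [eval₂_add]⟩

theorem topZ_mul (h : IsTopZ χ Z R) (h' : IsTopZ χ Z' R') : IsTopZ χ (Z * Z') (R * R') := by
  obtain ⟨Q, rfl, rfl⟩ := isTopZ_iff.1 h
  obtain ⟨Q', rfl, rfl⟩ := isTopZ_iff.1 h'
  exact isTopZ_iff.2 ⟨Q * Q', by rw [map_mul], by rw [eval₂_mul]⟩

theorem topZ_neg (h : IsTopZ χ Z R) : IsTopZ χ (-Z) (-R) := by
  obtain ⟨Q, rfl, rfl⟩ := isTopZ_iff.1 h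
  exact isTopZ_iff.2 ⟨-Q, by rw [map_neg], by rw [← coe_eval₂Hom, map_neg]⟩

theorem topZ_sub (h : IsTopZ χ Z R) (h' : IsTopZ χ Z' R') : IsTopZ χ (Z - Z') (R - R') := by
  rw [sub_eq_add_neg, sub_eq_add_neg]
  exact topZ_add h (topZ_neg h')

variable (χ)

theorem topZ_C (a : MK ℂ) : IsTopZ χ (PowerSeries.C a)
    (algebraMap (Polynomial ℂ) (RatFunc ℂ) (Polynomial.C (χ a))) := by
  refine isTopZ_iff.2 ⟨C a, ?_, ?_⟩
  · rw [aeval_C, PowerSeries.algebraMap_apply, Algebra.algebraMap_self, RingHom.id_apply]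
  · rw [eval₂_C, RingHom.comp_apply, IsScalarTower.algebraMap_apply ℂ (Polynomial ℂ) (RatFunc ℂ)]
    rfl

theorem topZ_one : IsTopZ χ 1 1 := by
  have h := topZ_C χ 1
  simpa using h

theorem topZ_zero : IsTopZ χ 0 0 := by
  have h := topZ_C χ 0
  simpa using h

theorem topZ_F (p : ℕ × ℤ) : IsTopZ χ (FZ p) (ftZ p) :=
  isTopZ_iff.2 ⟨X p, by rw [aeval_X], by rw [eval₂_X]⟩

variable {χ}

theorem topZ_cL (hχ : χ ((Lu ℂ : (MK ℂ)ˣ) : MK ℂ) = 1) : IsTopZ χ (cL ℂ) 1 := by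
  have h := topZ_C χ ((Lu ℂ : (MK ℂ)ˣ) : MK ℂ)
  rw [hχ] at h
  simpa [cL] using h

theorem topZ_cY (hχ : χ ((Lu ℂ : (MK ℂ)ˣ) : MK ℂ) = 1) : IsTopZ χ (cY ℂ) 1 := by
  have h := topZ_C χ (((Lu ℂ)⁻¹ : (MK ℂ)ˣ) : MK ℂ)
  have h1 : χ (((Lu ℂ)⁻¹ : (MK ℂ)ˣ) : MK ℂ) = 1 := by
    have h2 : ((Lu ℂ : (MK ℂ)ˣ) : MK ℂ) * (((Lu ℂ)⁻¹ : (MK ℂ)ˣ) : MK ℂ) = 1 := Units.mul_inv _
    have h3 := congrArg χ h2
    rwa [map_mul, hχ, one_mul, map_one] at h3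
  rw [h1] at h
  simpa [cY] using h

theorem resc_FZ (p : ℕ × ℤ) : PowerSeries.rescale ((Lu ℂ : (MK ℂ)ˣ) : MK ℂ) (FZ p) =
    FZ (p.1, p.2 - (p.1 + 1)) := by
  unfold FZ
  rw [map_mul, map_mul, map_mul, map_pow, rescale_C', rescale_C', rescale_X',
    rescale_geo _ _ (by exact_mod_cast Nat.succ_pos _), mul_pow, ← map_pow]
  have e : -(p.2 - ((p.1 : ℤ) + 1)) = -p.2 + ((p.1 + 1 : ℕ) : ℤ) := by push_cast; ring
  have h : (((Lu ℂ) ^ (-(p.2 - ((p.1 : ℤ) + 1))) : (MK ℂ)ˣ) : MK ℂ) =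
      (((Lu ℂ) ^ (-p.2) : (MK ℂ)ˣ) : MK ℂ) * ((Lu ℂ : (MK ℂ)ˣ) : MK ℂ) ^ (p.1 + 1) := by
    rw [e, zpow_add, Units.val_mul, zpow_natCast, Units.val_pow_eq_pow_val]
  simp only
  rw [h, e, map_mul]
  ring

theorem shR_ftZ (p : ℕ × ℤ) : shR (-1) (ftZ p) = ftZ (p.1, p.2 - (p.1 + 1)) := by
  rw [ftZ_lp, ftZ_lp, map_inv₀, shR_poly]
  congr 2
  unfold lpZ
  simp only [Polynomial.add_comp, Polynomial.mul_comp, Polynomial.X_comp, Polynomial.one_comp,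
    Polynomial.natCast_comp, Polynomial.intCast_comp]
  push_cast
  rw [map_neg, map_one]
  ring

theorem shR_C' (a c : ℂ) : shR a (algebraMap ℂ (RatFunc ℂ) c) = algebraMap ℂ (RatFunc ℂ) c := by
  rw [IsScalarTower.algebraMap_apply ℂ (Polynomial ℂ) (RatFunc ℂ), shR_poly]
  simp

theorem topZ_rescale (h : IsTopZ χ Z R) :
    IsTopZ χ (PowerSeries.rescale ((Lu ℂ : (MK ℂ)ˣ) : MK ℂ) Z) (shR (-1) R) := by
  obtain ⟨Q, rfl, rfl⟩ := isTopZ_iff.1 h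
  clear h
  induction Q using MvPolynomial.induction_on with
  | C a =>
    have h1 : aeval FZ (C a : MvPolynomial (ℕ × ℤ) (MK ℂ)) = PowerSeries.C a := by
      rw [aeval_C, PowerSeries.algebraMap_apply, Algebra.algebraMap_self, RingHom.id_apply]
    rw [h1, rescale_C', eval₂_C, RingHom.comp_apply, shR_C']
    have h2 := topZ_C χ a
    rwa [IsScalarTower.algebraMap_apply ℂ (Polynomial ℂ) (RatFunc ℂ)]
  | add p q hp hq =>
    rw [map_add, map_add, eval₂_add, map_add]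
    exact topZ_add hp hq
  | mul_X p i hp =>
    rw [map_mul, map_mul, eval₂_mul, map_mul, aeval_X, eval₂_X, resc_FZ, shR_ftZ]
    exact topZ_mul hp (topZ_F χ _)

/-! ### descent -/

/-- the topological zeta function of `f` in terms of that of the stabilisation -/
noncomputable def Dn (a a' : ℂ) (R : RatFunc ℂ) : RatFunc ℂ :=
  (1 + ftZ (0, -1)) * (1 - ftZ (0, 1)) * (shR (-1) R -
    (algebraMap (Polynomial ℂ) (RatFunc ℂ) (Polynomial.C a) * (ftZ (0, 0) * ftZ (0, 0)) +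
      algebraMap (Polynomial ℂ) (RatFunc ℂ) (Polynomial.C a') * ftZ (0, 0)))

theorem geo11 : geo ℂ 1 1 * (1 - PowerSeries.X) = 1 + cY ℂ * FZ (0, -1) := by
  have h := geo_mul (K := ℂ) 1 1 one_pos
  rw [show (1 : ℤ).toNat = 1 from rfl, zpow_one, pow_one] at h
  have hL := cL_cY (K := ℂ)
  have hF : FZ (0, -1) = (cL ℂ - 1) * (cL ℂ * PowerSeries.X) * geo ℂ 1 1 := by
    unfold FZ cL
    rw [map_sub, map_one]
    simp
  rw [hF]
  change (1 - cL ℂ * PowerSeries.X) * geo ℂ 1 1 = 1 at h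
  linear_combination h - (cL ℂ - 1) * PowerSeries.X * geo ℂ 1 1 * hL

theorem geo_m11 : geo ℂ (-1) 1 * (1 - PowerSeries.X) = 1 - FZ (0, 1) := by
  have h := geo_mul (K := ℂ) (-1) 1 one_pos
  rw [show (1 : ℤ).toNat = 1 from rfl, zpow_neg_one, pow_one] at h
  have hL := cL_cY (K := ℂ)
  have hF : FZ (0, 1) = (cL ℂ - 1) * (cY ℂ * PowerSeries.X) * geo ℂ (-1) 1 := by
    unfold FZ cL cY
    rw [map_sub, map_one]
    simp
  rw [hF]
  change (1 - cY ℂ * PowerSeries.X) * geo ℂ (-1) 1 = 1 at h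
  linear_combination h + PowerSeries.X * geo ℂ (-1) 1 * hL

theorem descendZ (hχ : χ ((Lu ℂ : (MK ℂ)ˣ) : MK ℂ) = 1) {Zf Zg : PowerSeries (MK ℂ)}
    (w w' : MK ℂ)
    (h : Zg = PowerSeries.C w * (cL ℂ - 1 + Fz ℂ 1 1) ^ 2 +
      (1 - Fz ℂ 1 1) * (cL ℂ + Fz ℂ 1 1) *
        PowerSeries.rescale (((Lu ℂ)⁻¹ : (MK ℂ)ˣ) : MK ℂ) Zf +
      PowerSeries.C w' * (cL ℂ - 1 + Fz ℂ 1 1)) {Rg : RatFunc ℂ} (hg : IsTopZ χ Zg Rg) :
    IsTopZ χ Zf (Dn (χ w) (χ w') Rg) := by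
  set A : PowerSeries (MK ℂ) := PowerSeries.C w * (cL ℂ - 1 + Fz ℂ 1 1) ^ 2 +
    PowerSeries.C w' * (cL ℂ - 1 + Fz ℂ 1 1) with hA
  have h' : Zg = A + (1 - Fz ℂ 1 1) * (cL ℂ + Fz ℂ 1 1) *
      PowerSeries.rescale (((Lu ℂ)⁻¹ : (MK ℂ)ˣ) : MK ℂ) Zf := by
    rw [h, hA]
    ring
  have h1 := solve h' rfl
  have hF : PowerSeries.rescale ((Lu ℂ : (MK ℂ)ˣ) : MK ℂ) (Fz ℂ 1 1) = FZ (0, 0) := by
    have h2 := resc_FZ (0, 1)
    have h3 : FZ (0, 1) = Fz ℂ 1 1 := FZ_Fz 0 1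
    rw [h3] at h2
    rw [h2]
    norm_num
  have hr : PowerSeries.rescale ((Lu ℂ : (MK ℂ)ˣ) : MK ℂ) ((1 - cY ℂ * PowerSeries.X) ^ 2 * A) =
      (1 - PowerSeries.X) ^ 2 * (PowerSeries.C w * ((cL ℂ - 1 + FZ (0, 0)) *
        (cL ℂ - 1 + FZ (0, 0))) + PowerSeries.C w' * (cL ℂ - 1 + FZ (0, 0))) := by
    have r4 : PowerSeries.rescale ((Lu ℂ : (MK ℂ)ˣ) : MK ℂ) (cL ℂ) = cL ℂ := by
      rw [cL, rescale_C']
    have r5 : PowerSeries.rescale ((Lu ℂ : (MK ℂ)ˣ) : MK ℂ) (cY ℂ) = cY ℂ := by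
      rw [cY, rescale_C']
    have r6 : cY ℂ * (PowerSeries.C ((Lu ℂ : (MK ℂ)ˣ) : MK ℂ) * PowerSeries.X) =
        PowerSeries.X := by
      have hL := cL_cY (K := ℂ)
      change cY ℂ * (cL ℂ * PowerSeries.X) = _
      linear_combination PowerSeries.X * hL
    rw [hA, map_mul, map_pow, map_sub, map_one, map_mul, r5, rescale_X', r6, map_add, map_mul,
      map_mul, map_pow, map_add, map_sub, map_one, r4, hF, rescale_C', rescale_C']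
    ring
  rw [hr] at h1
  have h2 : Zf = cY ℂ * ((1 + cY ℂ * FZ (0, -1)) * (1 - FZ (0, 1)) *
      (PowerSeries.rescale ((Lu ℂ : (MK ℂ)ˣ) : MK ℂ) Zg -
        (PowerSeries.C w * ((cL ℂ - 1 + FZ (0, 0)) * (cL ℂ - 1 + FZ (0, 0))) +
          PowerSeries.C w' * (cL ℂ - 1 + FZ (0, 0))))) := by
    rw [← geo11, ← geo_m11, h1]
    ring
  rw [h2]
  have c1 : IsTopZ χ (1 + cY ℂ * FZ (0, -1)) (1 + ftZ (0, -1)) := by
    have := topZ_add (topZ_one χ) (topZ_mul (topZ_cY hχ) (topZ_F χ (0, -1)))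
    rwa [one_mul] at this
  have c2 : IsTopZ χ (1 - FZ (0, 1)) (1 - ftZ (0, 1)) :=
    topZ_sub (topZ_one χ) (topZ_F χ (0, 1))
  have c3 : IsTopZ χ (cL ℂ - 1 + FZ (0, 0)) (ftZ (0, 0)) := by
    have := topZ_add (topZ_sub (topZ_cL hχ) (topZ_one χ)) (topZ_F χ (0, 0))
    rwa [sub_self, zero_add] at this
  have c4 := topZ_mul (topZ_cY hχ) (topZ_mul (topZ_mul c1 c2) (topZ_sub (topZ_rescale hg)
    (topZ_add (topZ_mul (topZ_C χ w) (topZ_mul c3 c3)) (topZ_mul (topZ_C χ w') c3))))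
  rw [one_mul] at c4
  exact c4

end

/-! ### regularity -/

theorem ft_m1 : (1 + ftZ (0, -1) : RatFunc ℂ) =
    algebraMap (Polynomial ℂ) (RatFunc ℂ) Polynomial.X *
      (algebraMap (Polynomial ℂ) (RatFunc ℂ) (Polynomial.X - 1))⁻¹ := by
  have h : (Polynomial.X - 1 : Polynomial ℂ).eval 0 ≠ 0 := by simp
  have h1 := ne0 h
  have h2 : lpZ (0, -1) = Polynomial.X - 1 := by
    unfold lpZ
    simp
    ring
  rw [ftZ_lp, h2]
  rw [map_sub, map_one] at h1 ⊢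
  field_simp
  ring

theorem ft_p1 : (1 - ftZ (0, 1) : RatFunc ℂ) =
    algebraMap (Polynomial ℂ) (RatFunc ℂ) Polynomial.X *
      (algebraMap (Polynomial ℂ) (RatFunc ℂ) (Polynomial.X + 1))⁻¹ := by
  have h : (Polynomial.X + 1 : Polynomial ℂ).eval 0 ≠ 0 := by simp
  have h1 := ne0 h
  have h2 : lpZ (0, 1) = Polynomial.X + 1 := by
    unfold lpZ
    simp
  rw [ftZ_lp, h2]
  rw [map_add, map_one] at h1 ⊢
  field_simp
  ring

theorem reg_ft0 {s : ℂ} (hs : s ≠ 0) : Reg (ftZ (0, 0)) s := by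
  rw [ftZ_lp]
  refine Reg.inv ?_
  rw [lpZ_eval]
  simpa using hs

/-- **Descent of regularity.** -/
theorem Dn_reg (a a' : ℂ) {R : RatFunc ℂ} {s : ℂ} (h0 : s ≠ 0) (h1 : s ≠ 1) (h2 : s ≠ -1)
    (h : Reg R (s - 1)) : Reg (Dn a a' R) s := by
  have e1 : Reg (shR (-1) R) s := by
    have := h.shR (-1)
    rwa [sub_neg_eq_add, sub_add_cancel] at this
  have a2 : (Polynomial.X - 1 : Polynomial ℂ).eval s ≠ 0 := by simpa [sub_eq_zero] using h1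
  have a3 : (Polynomial.X + 1 : Polynomial ℂ).eval s ≠ 0 := by
    rw [Polynomial.eval_add, Polynomial.eval_X, Polynomial.eval_one]
    intro h3
    exact h2 (eq_neg_of_add_eq_zero_left h3)
  unfold Dn
  rw [ft_m1, ft_p1]
  exact (((Reg.poly _ _).mul (Reg.inv a2)).mul ((Reg.poly _ _).mul (Reg.inv a3))).mul
    (e1.sub (((Reg.poly _ _).mul ((reg_ft0 h0).mul (reg_ft0 h0))).add
      ((Reg.poly _ _).mul (reg_ft0 h0))))

/-- **Descent of orders.** -/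
theorem Dn_ord (a a' : ℂ) {R : RatFunc ℂ} {s : ℂ} (h0 : s ≠ 0) (h1 : s ≠ 1) (c : Polynomial ℂ)
    (h : Reg (algebraMap (Polynomial ℂ) (RatFunc ℂ)
      ((Polynomial.X + 1) * c.comp (Polynomial.X + 1)) * R) (s - 1)) :
    Reg (algebraMap (Polynomial ℂ) (RatFunc ℂ) ((Polynomial.X + 1) * c) * Dn a a' R) s := by
  have a1 : (Polynomial.X + 1 : Polynomial ℂ).eval (s - 1) ≠ 0 := by simpa using h0
  have b1 := ne0 a1
  have e0 : Reg (algebraMap (Polynomial ℂ) (RatFunc ℂ) (c.comp (Polynomial.X + 1)) * R)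
      (s - 1) := by
    have h3 := (Reg.inv a1).mul h
    rwa [map_mul, mul_assoc, ← mul_assoc (algebraMap (Polynomial ℂ) (RatFunc ℂ)
      (Polynomial.X + 1))⁻¹, inv_mul_cancel₀ b1, one_mul] at h3
  have e1 : Reg (algebraMap (Polynomial ℂ) (RatFunc ℂ) c * shR (-1) R) s := by
    have h3 := e0.shR (-1)
    rw [sub_neg_eq_add, sub_add_cancel, map_mul, shR_poly, Polynomial.comp_assoc] at h3
    have e2 : (Polynomial.X + 1 : Polynomial ℂ).comp (Polynomial.X + Polynomial.C (-1)) =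
        Polynomial.X := by
      simp
    rwa [e2, Polynomial.comp_X] at h3
  have a2 : (Polynomial.X - 1 : Polynomial ℂ).eval s ≠ 0 := by simpa [sub_eq_zero] using h1
  have e3 : algebraMap (Polynomial ℂ) (RatFunc ℂ) ((Polynomial.X + 1) * c) * Dn a a' R =
      (algebraMap (Polynomial ℂ) (RatFunc ℂ) Polynomial.X *
        (algebraMap (Polynomial ℂ) (RatFunc ℂ) (Polynomial.X - 1))⁻¹ *
        algebraMap (Polynomial ℂ) (RatFunc ℂ) Polynomial.X) *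
      (algebraMap (Polynomial ℂ) (RatFunc ℂ) c * shR (-1) R -
        algebraMap (Polynomial ℂ) (RatFunc ℂ) c *
        (algebraMap (Polynomial ℂ) (RatFunc ℂ) (Polynomial.C a) * (ftZ (0, 0) * ftZ (0, 0)) +
      algebraMap (Polynomial ℂ) (RatFunc ℂ) (Polynomial.C a') * ftZ (0, 0))) := by
    unfold Dn
    rw [ft_m1, ft_p1, map_mul]
    have h4 : algebraMap (Polynomial ℂ) (RatFunc ℂ) (Polynomial.X + 1) *
        (algebraMap (Polynomial ℂ) (RatFunc ℂ) (Polynomial.X + 1))⁻¹ = 1 := mul_inv_cancel₀ b1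
    linear_combination (algebraMap (Polynomial ℂ) (RatFunc ℂ) Polynomial.X *
        (algebraMap (Polynomial ℂ) (RatFunc ℂ) (Polynomial.X - 1))⁻¹ *
        algebraMap (Polynomial ℂ) (RatFunc ℂ) Polynomial.X) *
      (algebraMap (Polynomial ℂ) (RatFunc ℂ) c * shR (-1) R -
        algebraMap (Polynomial ℂ) (RatFunc ℂ) c *
        (algebraMap (Polynomial ℂ) (RatFunc ℂ) (Polynomial.C a) * (ftZ (0, 0) * ftZ (0, 0)) +
      algebraMap (Polynomial ℂ) (RatFunc ℂ) (Polynomial.C a') * ftZ (0, 0))) * h4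
  rw [e3]
  exact (((Reg.poly _ _).mul (Reg.inv a2)).mul (Reg.poly _ _)).mul
    (e1.sub ((Reg.poly _ _).mul (((Reg.poly _ _).mul ((reg_ft0 h0).mul (reg_ft0 h0))).add
      ((Reg.poly _ _).mul (reg_ft0 h0)))))

end Pool.Agent.V7H32.GL
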