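import Pool.Agent.V7H32.GL.Zt
import Pool.Agent.V7H32.GL.TopZ
import Pool.Agent.V7H32.GL.Sing

/-!
# The topological strong monodromy conjecture: global, on open sets, cubic polynomials
-/

set_option autoImplicit false

namespace Pool.Agent.V7H32.GL

open MvPolynomial Pool.Agent.W428.MOT
open Pool.Agent.N101.CB
open Pool.Agent.N101.CB.BGl (WW B1 B2 formal_iff)
open Pool.Agent.H628R4.TP (IsBFunction weylS)
open Pool.Agent.W375.MG (JetG)
open Pool.Agent.Y229.MS (Wyz addyz CE)

section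
variable {o : Bool} {b : Polynomial ℂ} {R R' : RatFunc ℂ} {s : ℂ}

theorem PR.add (h : PR o b R s) (h' : PR o b R' s) : PR o b (R + R') s := by
  cases o with
  | true =>
    simp only [PR, if_true] at h h' ⊢
    rw [mul_add]
    exact h.add h'
  | false =>
    simp only [PR, Bool.false_eq_true, if_false] at h h' ⊢
    exact fun hb => (h hb).add (h' hb)

theorem PR.sub (h : PR o b R s) (h' : PR o b R' s) : PR o b (R - R') s := by
  cases o with
  | true =>
    simp only [PR, if_true] at h h' ⊢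
    rw [mul_sub]
    exact h.sub h'
  | false =>
    simp only [PR, Bool.false_eq_true, if_false] at h h' ⊢
    exact fun hb => (h hb).sub (h' hb)

theorem PR.reg (h : Reg R s) : PR o b R s := by
  cases o with
  | true =>
    simp only [PR, if_true]
    exact (Reg.poly b s).mul h
  | false =>
    simp only [PR, Bool.false_eq_true, if_false]
    exact fun _ => h

theorem PR.smul (c : ℂ) (h : PR o b R s) :
    PR o b (algebraMap (Polynomial ℂ) (RatFunc ℂ) (Polynomial.C c) * R) s := by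
  cases o with
  | true =>
    simp only [PR, if_true] at h ⊢
    have h1 := (Reg.poly (Polynomial.C c) s).mul h
    rwa [mul_left_comm] at h1
  | false =>
    simp only [PR, Bool.false_eq_true, if_false] at h ⊢
    exact fun hb => (Reg.poly _ _).mul (h hb)

/-- descent -/
theorem PR.down (a a' : ℂ) (c : Polynomial ℂ) {q : ℚ} (hq : q < 0)
    (h : PR o ((Polynomial.X + 1) * c.comp (Polynomial.X + 1)) R ((q - 1 : ℚ) : ℂ)) :
    PR o ((Polynomial.X + 1) * c) (Dn a a' R) (q : ℂ) := by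
  have h0 : (q : ℂ) ≠ 0 := by exact_mod_cast hq.ne
  have h1 : (q : ℂ) ≠ 1 := by
    intro h1
    have h2 : q = 1 := by exact_mod_cast h1
    rw [h2] at hq
    norm_num at hq
  have e : ((q - 1 : ℚ) : ℂ) = (q : ℂ) - 1 := by push_cast; ring
  rw [e] at h
  cases o with
  | true =>
    simp only [PR, if_true] at h ⊢
    exact Dn_ord a a' h0 h1 c h
  | false =>
    simp only [PR, Bool.false_eq_true, if_false] at h ⊢
    intro hb
    rw [Polynomial.eval_mul, Polynomial.eval_add, Polynomial.eval_X, Polynomial.eval_one] at hb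
    refine Dn_reg a a' h0 h1 ?_ (h ?_)
    · intro h2
      apply hb
      rw [h2]
      ring
    · rw [Polynomial.eval_mul, Polynomial.eval_comp, Polynomial.eval_add, Polynomial.eval_X,
        Polynomial.eval_one, sub_add_cancel]
      exact mul_ne_zero h0 (right_ne_zero_of_mul hb)

end

section
variable {χ : MK ℂ →+* ℂ} {o : Bool} {n : ℕ} {f : MvPolynomial (Fin n) ℂ} {b : Polynomial ℂ}

theorem Cj.sub_of {W W' W'' : Set (Pt ℂ (Fin n))} (h : Cj χ o f W b) (h' : Cj χ o f W' b)
    (e : zt f W'' = zt f W - zt f W') : Cj χ o f W'' b := by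
  obtain ⟨R, hR, h1⟩ := h
  obtain ⟨R', hR', h2⟩ := h'
  refine ⟨R - R', ?_, fun q hq => (h1 q hq).sub (h2 q hq)⟩
  rw [e]
  exact topZ_sub hR hR'

/-- `f` has no zero on `W` -/
theorem zt_nozero {W : Set (Pt ℂ (Fin n))} (hW : Constr W) (h : ∀ z ∈ W, aeval z f ≠ 0) :
    zt f W = PowerSeries.C (clM W) := by
  obtain ⟨M, hM⟩ := clM_meas ℂ
  ext N
  rw [zt, PowerSeries.coeff_mk, PowerSeries.coeff_C]
  rcases N with _ | N
  · rw [if_pos rfl, mul_zero, Nat.cast_zero, neg_zero, zpow_zero, Units.val_one, mul_one, ← hM,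
      ← hM]
    refine M.iso _ _ (Pool.Agent.Z864.MS.constr_JetE f hW ce_Un 0) hW (fun z i => z (i, 0))
      (fun w p => w p.1) (regularOn_poly (fun i => IsPF.coord _) _)
      (regularOn_poly (fun p => IsPF.coord _) _) ?_ ?_ ?_ ?_
    · rintro z ⟨h1, -⟩
      exact h1
    · intro w hw
      refine ⟨hw, fun j hj => absurd hj (Nat.not_lt_zero j), ?_⟩
      rw [Pool.Agent.Z864.MS.coeff_zero_aeval]
      exact h w hw
    · intro z _
      funext p
      obtain ⟨i, j⟩ := p
      have hj0 : j = 0 := by omega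
      subst hj0
      rfl
    · intro w _
      rfl
  · rw [if_neg (Nat.succ_ne_zero N)]
    have e : JetG f W (Un ℂ) (N + 1) = ∅ := by
      ext z
      simp only [Set.mem_empty_iff_false, iff_false]
      rintro ⟨h1, h2, -⟩
      have h3 := h2 0 (Nat.succ_pos N)
      rw [Pool.Agent.Z864.MS.coeff_zero_aeval] at h3
      exact h _ h1 h3
    have h0 : clM (JetG f W (Un ℂ) (N + 1)) = 0 := by
      rw [e, ← hM]
      have h4 := M.add (ι := Fin n × Fin (N + 1 + 1)) ∅ ∅ Constr.empty Constr.empty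
        (Set.disjoint_left.2 fun _ h => h.elim)
      rw [Set.union_empty] at h4
      exact (left_eq_add.1 h4)
    rw [h0, zero_mul]

theorem Cj.nozero {W : Set (Pt ℂ (Fin n))} (hW : Constr W) (h : ∀ z ∈ W, aeval z f ≠ 0) :
    Cj χ o f W b := by
  refine ⟨_, by rw [zt_nozero hW h]; exact topZ_C χ _, fun q _ => PR.reg (Reg.poly _ _)⟩

theorem yug_deg (f g : MvPolynomial (Fin n) ℂ) : (yug f g).totalDegree ≠ 0 := by
  intro h
  rw [totalDegree_eq_zero_iff_eq_C] at h
  have h1 := pd_G_y (f := f) (g := g)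
  rw [h, pderiv_C] at h1
  have h2 := congrArg constantCoeff h1
  rw [map_zero, map_sub, map_mul, constantCoeff_X, map_one] at h2
  norm_num at h2

variable (χ o)

variable {χ o} {k : ℕ∞}

/-- **The conjecture for `G = f + y (u g - 1)` gives the conjecture for `f` on the open set
`g ≠ 0`.** -/
theorem cj_openG (hχ : χ ((Lu ℂ : (MK ℂ)ˣ) : MK ℂ) = 1) (hf : f ≠ 0)
    {g : MvPolynomial (Fin n) ℂ} (hG : ∀ b : Polynomial ℂ, IsBFunction (yug f g) b →
      Cj χ o (yug f g) Set.univ b) {l : ℕ}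
    (hb : WW (B1 f) (fun s => b.eval (s : ℂ) • (g ^ l * f ^ s))) : Cj χ o f (Dg g) b := by
  obtain ⟨⟨Q, hQ⟩, h2⟩ := reducedG hf hb
  by_cases h1 : b.eval (-1) = 0
  · obtain ⟨c, hc⟩ := Polynomial.dvd_iff_isRoot.2 (show b.IsRoot (-1) from h1)
    rw [Polynomial.C_neg, Polynomial.C_1, sub_neg_eq_add] at hc
    obtain ⟨R, hR, h3⟩ := hG _ (opnB l (h2 h1 c hc))
    refine ⟨_, descendZ hχ _ _ (zt_yug f g) hR, fun q hq => ?_⟩
    rw [hc]
    exact PR.down _ _ c hq (h3 (q - 1) (by linarith))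
  · refine Cj.nozero (constr_Dg g) fun z hz hz0 => pow_ne_zero l hz ?_
    have h3 := congrArg (aeval z) hQ
    rw [map_mul, map_mul, hz0, zero_mul, algHom_C, map_pow] at h3
    refine (mul_eq_zero.1 h3).resolve_left fun h4 => h1 ?_
    exact (map_eq_zero (algebraMap ℂ (AlgebraicClosure ℂ))).1 h4

/-- the conjecture for `G` gives the conjecture for `f` on the open set `g ≠ 0` -/
theorem cj_open (hχ : χ ((Lu ℂ : (MK ℂ)ˣ) : MK ℂ) = 1) (hG : GlobC χ o k) (hf : f ≠ 0)
    {g : MvPolynomial (Fin n) ℂ} (hg : (SgOn f g).encard ≤ k)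
    (hb : WW (B1 f) (fun s => b.eval (s : ℂ) • (g * f ^ s))) : Cj χ o f (Dg g) b :=
  cj_openG hχ hf (fun b hb => hG (n + 2) (yug f g) (yug_deg f g) ((encard_yug f g).trans hg) b hb)
    (l := 1) (by rw [pow_one]; exact hb)

theorem zt_split (f : MvPolynomial (Fin n) ℂ) {V : Set (Pt ℂ (Fin n))} (hV : Constr V)
    {A : Set (Pt ℂ (Fin n))} (hA : Constr A) : zt f (A ∩ V) = zt f V - zt f (Aᶜ ∩ V) := by
  rw [eq_sub_iff_add_eq, ← zt_add f (hA.inter hV) (hA.compl.inter hV)]
  · congr 1
    ext z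
    simp only [Set.mem_union, Set.mem_inter_iff, Set.mem_compl_iff]
    tauto
  · rw [Set.disjoint_left]
    rintro z ⟨h1, -⟩ ⟨h2, -⟩
    exact h2 h1

/-- all constructible sets -/
theorem cj_all {p : MvPolynomial (Fin n) ℂ → Prop}
    (hp : ∀ g, p g → ∀ u, p (g * u)) {W : Set (Pt ℂ (Fin n))} (hW : Constr W) :
    ∀ V : Set (Pt ℂ (Fin n)), Constr V → (∀ g, p g → Cj χ o f (V ∩ Dg g) b) →
      ∀ g, p g → Cj χ o f (W ∩ V ∩ Dg g) b := by
  induction hW with
  | zero P =>
    intro V hV h g hg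
    have h1 := h g hg
    have h2 := h (g * P) (hp g hg P)
    refine Cj.sub_of h1 h2 ?_
    have h3 := zt_split f (hV.inter (constr_Dg g)) (Constr.zero P)
    have e1 : {z : Pt ℂ (Fin n) | aeval z P = 0} ∩ V ∩ Dg g =
        {z : Pt ℂ (Fin n) | aeval z P = 0} ∩ (V ∩ Dg g) := Set.inter_assoc _ _ _
    have e2 : {z : Pt ℂ (Fin n) | aeval z P = 0}ᶜ ∩ (V ∩ Dg g) = V ∩ Dg (g * P) := by
      ext z
      simp only [Dg, Set.mem_inter_iff, Set.mem_compl_iff, Set.mem_ofPred_eq, map_mul, ne_eq,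
        mul_eq_zero, not_or]
      tauto
    rw [e1, h3, e2]
  | compl hS ih =>
    intro V hV h g hg
    refine Cj.sub_of (h g hg) (ih V hV h g hg) ?_
    have h3 := zt_split f (hV.inter (constr_Dg g)) hS.compl
    rw [compl_compl] at h3
    rw [Set.inter_assoc, h3, Set.inter_assoc]
  | inter hS hT ih1 ih2 =>
    intro V hV h g hg
    rw [Set.inter_assoc _ _ V]
    exact ih1 _ (hT.inter hV) (fun g hg => ih2 V hV h g hg) g hg

theorem isBOn_WW {g : MvPolynomial (Fin n) ℂ} (h : IsBOn g f b) :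
    ∃ k : ℕ, WW (B1 f) (fun s => b.eval (s : ℂ) • (g ^ k * f ^ s)) := by
  obtain ⟨k, P, hP⟩ := h
  refine ⟨k, ?_⟩
  have h1 : WW (B1 f) (fun s => ∑ m ∈ P.support, ((s : ℂ) ^ m) •
      (P m : Module.End ℂ (MvPolynomial (Fin n) ℂ)) (f ^ (s + 1))) := by
    refine WW.sum _ _ fun m _ => ?_
    have h2 : ∀ m' : ℕ, WW (B1 f) (fun s => ((s : ℂ) ^ m') •
        (P m : Module.End ℂ (MvPolynomial (Fin n) ℂ)) (f ^ (s + 1))) := by
      intro m'
      induction m' with
      | zero =>
        convert WW.op _ (P m).2 (WW.base (B := B1 f) ()) using 2 with s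
        rw [pow_zero, one_smul]
        rfl
      | succ m' ih =>
        convert ih.smulS using 2 with s
        rw [smul_smul, pow_succ, mul_comm]
    exact h2 m
  convert h1 using 2 with s
  rw [MvPolynomial.smul_eq_C_mul]
  exact hP s

theorem isBOn_one (h : IsBFunction f b) : IsBOn 1 f b := by
  obtain ⟨P, hP⟩ := h
  exact ⟨0, P, fun s => by rw [pow_zero, one_mul]; exact hP s⟩

/-- **The global conjecture is equivalent to the conjecture on all open sets.** -/
theorem glob_open (hχ : χ ((Lu ℂ : (MK ℂ)ˣ) : MK ℂ) = 1) : GlobC χ o k ↔ OpenC χ o k := by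
  constructor
  · intro hG n f hf g hgk b hb W hW hWg
    have hf0 : f ≠ 0 := by
      rintro rfl
      exact hf totalDegree_zero
    obtain ⟨l, hl⟩ := isBOn_WW hb
    have hm : ∀ g' : MvPolynomial (Fin n) ℂ, WW (B1 f) (fun s => b.eval (s : ℂ) • (g' * f ^ s)) →
        ∀ u, WW (B1 f) (fun s => b.eval (s : ℂ) • (g' * u * f ^ s)) := by
      intro g' hg' u
      have h2 := hg'.mulL u
      convert h2 using 2 with s
      rw [mul_smul_comm]
      congr 1
      ring
    have h1 := cj_all (χ := χ) (o := o) (f := f) (b := b)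
      (p := fun g' => WW (B1 f) (fun s => b.eval (s : ℂ) • (g' * f ^ s)) ∧
        (SgOn f g').encard ≤ k)
      (fun g' hg' u => ⟨hm g' hg'.1 u, (Set.encard_le_encard (sgOn_mul f g' u)).trans hg'.2⟩)
      hW Set.univ Constr.univ
      (fun g' hg' => by rw [Set.univ_inter]; exact cj_open hχ hG hf0 hg'.2 hg'.1)
      (g ^ l * g) ⟨hm _ hl g, by
        rw [mul_comm]
        exact (Set.encard_le_encard (sgOn_mul f g (g ^ l))).trans hgk⟩
    have e : W ∩ Set.univ ∩ Dg (g ^ l * g) = W := by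
      ext z
      simp only [Set.inter_univ, Set.mem_inter_iff, Dg, Set.mem_ofPred_eq, map_mul, map_pow]
      refine ⟨fun h => h.1, fun h => ⟨h, mul_ne_zero (pow_ne_zero l (hWg z h)) (hWg z h)⟩⟩
    rwa [e] at h1
  · intro hO n f hf hk b hb
    exact hO n f hf 1 (by rw [sgOn_one]; exact hk) b (isBOn_one hb) Set.univ Constr.univ
      (fun z _ => by rw [map_one]; exact one_ne_zero)

/-- one step of the reduction -/
theorem cj_step (hχ : χ ((Lu ℂ : (MK ℂ)ˣ) : MK ℂ) = 1) (f u v : MvPolynomial (Fin n) ℂ)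
    (hG : ∀ b : Polynomial ℂ, IsBFunction (stp f u v) b → Cj χ o (stp f u v) Set.univ b)
    (hf : f.totalDegree ≠ 0) (b : Polynomial ℂ) (hb : IsBFunction f b) :
    Cj χ o f Set.univ b := by
  obtain ⟨h1, h2⟩ := bg f u v hf b hb
  obtain ⟨c, hc⟩ := Polynomial.dvd_iff_isRoot.2 (show b.IsRoot (-1) from h1)
  rw [Polynomial.C_neg, Polynomial.C_1, sub_neg_eq_add] at hc
  obtain ⟨R, hR, h3⟩ := hG _ (h2 c hc)
  have h4 := zt_glob f u v
  have h5 := descendZ hχ (clM (Set.univ : Set (Pt ℂ (Fin n)))) 0 (Zf := zt f Set.univ)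
    (by rw [h4, map_zero, zero_mul, add_zero]) hR
  refine ⟨_, h5, fun q hq => ?_⟩
  rw [hc]
  exact PR.down _ _ c hq (h3 (q - 1) (by linarith))

/-- **The reduction of the global conjecture** to the polynomials with the property `N`. -/
theorem glob_red (hχ : χ ((Lu ℂ : (MK ℂ)ˣ) : MK ℂ) = 1)
    (N : ∀ n : ℕ, MvPolynomial (Fin n) ℂ → Prop)
    (hN : ∀ P : ∀ n : ℕ, MvPolynomial (Fin n) ℂ → Prop,
      (∀ (n : ℕ) (f : MvPolynomial (Fin n) ℂ), N n f → P n f) →
      (∀ (n : ℕ) (f u v : MvPolynomial (Fin n) ℂ), P (n + 2) (stp f u v) → P n f) →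
      ∀ (n : ℕ) (f : MvPolynomial (Fin n) ℂ), P n f) :
    GlobC χ o k ↔ ∀ (n : ℕ) (f : MvPolynomial (Fin n) ℂ), N n f → f.totalDegree ≠ 0 →
      (Sg f).encard ≤ k → ∀ b : Polynomial ℂ, IsBFunction f b → Cj χ o f Set.univ b := by
  constructor
  · intro h n f _ hf
    exact h n f hf
  · intro h n f
    refine hN (fun n f => f.totalDegree ≠ 0 → (Sg f).encard ≤ k → ∀ b : Polynomial ℂ,
      IsBFunction f b → Cj χ o f Set.univ b) (fun n f hf => h n f hf) ?_ n f
    intro n f u v h1 hf hk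
    exact cj_step hχ f u v (h1 (stp_deg f u v) ((encard_stp f u v).trans hk)) hf

/-! ### points -/

theorem aeval_pt (a : Fin n → ℂ) (p : MvPolynomial (Fin n) ℂ) :
    aeval (pt a) p = algebraMap ℂ (AlgebraicClosure ℂ) (eval a p) := by
  have h : (aeval (pt a) : MvPolynomial (Fin n) ℂ →ₐ[ℂ] AlgebraicClosure ℂ) =
      (Algebra.ofId ℂ (AlgebraicClosure ℂ)).comp (aeval a) := by
    apply MvPolynomial.algHom_ext
    intro i
    rw [aeval_X, AlgHom.comp_apply, aeval_X]
    rfl
  rw [h]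
  rfl

theorem pt_surj (z : Pt ℂ (Fin n)) : ∃ a : Fin n → ℂ, pt a = z := by
  have h : Function.Surjective (algebraMap ℂ (AlgebraicClosure ℂ)) :=
    (IsAlgClosed.algebraMap_bijective_of_isIntegral (k := ℂ) (K := AlgebraicClosure ℂ)).2
  choose a ha using fun i => h (z i)
  exact ⟨a, funext ha⟩

theorem constr_pt (a : Fin n → ℂ) : Constr ({pt a} : Set (Pt ℂ (Fin n))) := by
  have h : ({pt a} : Set (Pt ℂ (Fin n))) = {z | ∀ i, z i = algebraMap ℂ _ (a i)} := by
    ext z
    simp only [Set.mem_singleton_iff, Set.mem_ofPred_eq]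
    exact ⟨fun h i => by rw [h]; rfl, fun h => funext h⟩
  rw [h]
  exact Constr.all fun i => Constr.eq (IsPF.coord i) (IsPF.const _)

variable (χ o)

variable {χ o}

theorem open_point (h : OpenC χ o k) : PointC χ o k := by
  intro n f hf a _ g hg hk b hb
  refine h n f hf g hk b hb _ (constr_pt a) fun z hz => ?_
  rw [Set.mem_singleton_iff.1 hz, aeval_pt]
  exact (map_ne_zero (algebraMap ℂ (AlgebraicClosure ℂ))).2 hg

/-- the class of a point -/
theorem clM_pt (a : Fin n → ℂ) : clM ({pt a} : Set (Pt ℂ (Fin n))) = 1 := by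
  obtain ⟨M, hM, -⟩ := clM_full ℂ
  rw [← hM, ← M.point (ι := Fin 0)]
  refine M.iso _ _ (constr_pt a) Constr.univ (fun _ i => i.elim0) (fun _ => pt a)
    (regularOn_poly (fun i => i.elim0) _) (regularOn_poly (fun i => IsPF.const _) _) ?_ ?_ ?_ ?_
  · intro z _
    exact Set.mem_univ _
  · intro z _
    exact Set.mem_singleton_iff.2 rfl
  · intro z hz
    rw [Set.mem_singleton_iff.1 hz]
  · intro w _
    funext i
    exact i.elim0

theorem clM_empty : clM (∅ : Set (Pt ℂ (Fin n))) = 0 := by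
  obtain ⟨M, hM⟩ := clM_meas ℂ
  rw [← hM]
  have h4 := M.add (ι := Fin n) ∅ ∅ Constr.empty Constr.empty
    (Set.disjoint_left.2 fun _ h => h.elim)
  rw [Set.union_empty] at h4
  exact left_eq_add.1 h4

theorem PR.sum {ι : Type} {b : Polynomial ℂ} {s : ℂ} (S : Finset ι) (R : ι → RatFunc ℂ)
    (h : ∀ i ∈ S, PR o b (R i) s) : PR o b (∑ i ∈ S, R i) s := by
  classical
  induction S using Finset.induction_on with
  | empty =>
    rw [Finset.sum_empty]
    have := Reg.poly 0 s
    rw [map_zero] at this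
    exact PR.reg this
  | insert a S ha ih =>
    rw [Finset.sum_insert ha]
    exact (h a (Finset.mem_insert_self a S)).add
      (ih fun i hi => h i (Finset.mem_insert_of_mem hi))

/-- **The local conjecture gives the global conjecture**, by the theorem of Denef and Loeser. -/
theorem point_glob
    (hu : ∀ (Z : PowerSeries (MK ℂ)) (R R' : RatFunc ℂ), IsTopZ χ Z R → IsTopZ χ Z R' → R = R')
    (hDL : DenefLoeser χ) (hP : PointC χ o k) : GlobC χ o k := by
  intro n f hf hk b hb
  obtain ⟨l, S, R, hS, hd, hc, hR⟩ := hDL n f hf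
  refine ⟨_, hR Set.univ Constr.univ, fun q hq => PR.sum _ _ fun j _ => ?_⟩
  rw [Set.univ_inter]
  by_cases hj : (S j).Nonempty
  · obtain ⟨z, hz⟩ := hj
    obtain ⟨a, rfl⟩ := pt_surj z
    have h1 := hR _ (constr_pt a)
    have h2 : ∑ i, algebraMap (Polynomial ℂ) (RatFunc ℂ)
        (Polynomial.C (χ (clM ({pt a} ∩ S i)))) * R i = R j := by
      rw [Finset.sum_eq_single j]
      · have e : {pt a} ∩ S j = {pt a} := by
          ext w
          simp only [Set.mem_inter_iff, Set.mem_singleton_iff, and_iff_left_iff_imp]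
          rintro rfl
          exact hz
        rw [e, clM_pt, map_one, Polynomial.C_1, map_one, one_mul]
      · intro i _ hij
        have e : {pt a} ∩ S i = ∅ := by
          ext w
          simp only [Set.mem_inter_iff, Set.mem_singleton_iff, Set.mem_empty_iff_false, iff_false]
          rintro ⟨rfl, hw⟩
          exact Set.disjoint_left.1 (hd i j hij) hw hz
        rw [e, clM_empty, map_zero, Polynomial.C_0, map_zero, zero_mul]
      · intro h
        exact absurd (Finset.mem_univ j) h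
    rw [h2] at h1
    have h3 : Cj χ o f {pt a} b := by
      by_cases h0 : eval a f = 0
      · exact hP n f hf a h0 1 (by rw [map_one]; exact one_ne_zero)
          (by rw [sgOn_one]; exact hk) b (isBOn_one hb)
      · refine Cj.nozero (constr_pt a) fun z hz => ?_
        rw [Set.mem_singleton_iff.1 hz, aeval_pt]
        exact (map_ne_zero (algebraMap ℂ (AlgebraicClosure ℂ))).2 h0
    obtain ⟨R', hR', h4⟩ := h3
    rw [hu _ _ _ h1 hR']
    exact (h4 q hq).smul _
  · rw [Set.not_nonempty_iff_eq_empty.1 hj, clM_empty, map_zero, Polynomial.C_0, map_zero,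
      zero_mul]
    have := Reg.poly 0 (q : ℂ)
    rw [map_zero] at this
    exact PR.reg this

end

end Pool.Agent.V7H32.GL
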