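import Pool.Agent.V7H32.GL.Sparse

/-!
# Normal form of sparse cubic polynomials: the coefficients in degrees two and three are one
-/

set_option autoImplicit false

namespace Pool.Agent.V7H32.GL

open MvPolynomial
open Pool.Agent.N101.CB (stp Cub red)
open Pool.Agent.N101.CB.RED

section
variable {K : Type} [Field K] {n : ℕ}

/-- The normal form: `f` is a sum of distinct squarefree monomials of degrees two and three (with
coefficient one) and a linear form; every variable occurs in at most three monomials of `f`; and the
variables can be divided into two classes such that every monomial has degree at most one in the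
first and at most two in the second class. -/
def NF (f : MvPolynomial (Fin n) K) : Prop :=
  SCub f ∧ constantCoeff f = 0 ∧ ∀ m ∈ f.support, 2 ≤ ∑ i, m i → coeff m f = 1

/-- the new class of variables -/
noncomputable def exB (T : Finset (Fin n)) (β : Bool) : Finset (Fin (n + 2)) :=
  T.map (Fin.castAddEmb 2) ∪ (if β then {Fin.natAdd n 1} else {Fin.natAdd n 0})

theorem exB_c (T : Finset (Fin n)) (β : Bool) (k : Fin n) :
    Fin.castAdd 2 k ∈ exB T β ↔ k ∈ T := by
  unfold exB
  rw [Finset.mem_union, Finset.mem_map]
  constructor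
  · rintro (⟨j, hj, h⟩ | h)
    · have : j = k := Fin.castAdd_injective n 2 h
      rwa [← this]
    · cases β with
      | true => exact absurd (Finset.mem_singleton.1 h).symm (neC k 1)
      | false => exact absurd (Finset.mem_singleton.1 h).symm (neC k 0)
  · intro h
    exact Or.inl ⟨k, h, rfl⟩

theorem exB_0 (T : Finset (Fin n)) (β : Bool) :
    Fin.natAdd n (0 : Fin 2) ∈ exB T β ↔ β = false := by
  unfold exB
  rw [Finset.mem_union]
  cases β with
  | true =>
    constructor
    · rintro (h | h)
      · exact absurd h (ex'_n T 0)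
      · exact absurd (Finset.mem_singleton.1 h) (ne01 n)
    · intro h
      exact absurd h (by decide)
  | false => exact ⟨fun _ => rfl, fun _ => Or.inr (Finset.mem_singleton_self _)⟩

theorem exB_1 (T : Finset (Fin n)) (β : Bool) :
    Fin.natAdd n (1 : Fin 2) ∈ exB T β ↔ β = true := by
  unfold exB
  rw [Finset.mem_union]
  cases β with
  | true => exact ⟨fun _ => rfl, fun _ => Or.inr (Finset.mem_singleton_self _)⟩
  | false =>
    constructor
    · rintro (h | h)
      · exact absurd h (ex'_n T 1)
      · exact absurd (Finset.mem_singleton.1 h).symm (ne01 n)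
    · intro h
      exact absurd h (by decide)

theorem S_exB (T : Finset (Fin n)) (β : Bool) (m : Fin n →₀ ℕ) (p q : ℕ) :
    S (exB T β) (G m p q) = S T m + if β then q else p := by
  unfold S
  rw [sum2]
  simp only [G_c, G_0, G_1, exB_c, exB_0, exB_1]
  cases β <;> simp

theorem S'_exB (T : Finset (Fin n)) (β : Bool) (m : Fin n →₀ ℕ) (p q : ℕ) :
    S' (exB T β) (G m p q) = S' T m + if β then p else q := by
  unfold S'
  rw [sum2]
  simp only [G_c, G_0, G_1, exB_c, exB_0, exB_1]
  cases β <;> simp

theorem S_S' (T : Finset (Fin n)) (m : Fin n →₀ ℕ) : S T m + S' T m = ∑ i, m i := by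
  unfold S S'
  rw [← Finset.sum_add_distrib]
  refine Finset.sum_congr rfl fun i _ => ?_
  split_ifs
  · exact add_zero _
  · exact zero_add _

theorem deg_G (m : Fin n →₀ ℕ) (p q : ℕ) : ∑ i, G m p q i = ∑ i, m i + p + q := by
  rw [sum2]
  simp only [G_c, G_0, G_1]

/-- the exponents after a step -/
noncomputable def newM (B : Finset (Fin n →₀ ℕ)) (m a : Fin n →₀ ℕ) :
    Finset (Fin (n + 2) →₀ ℕ) :=
  (B.erase m).image E ∪ ({G 0 1 1} ∪ ({G a 1 0} ∪ {G (m - a) 0 1}))

theorem mem_newM (B : Finset (Fin n →₀ ℕ)) (m a : Fin n →₀ ℕ) (d : Fin (n + 2) →₀ ℕ) :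
    d ∈ newM B m a ↔ (∃ d' ∈ B, d' ≠ m ∧ E d' = d) ∨ d = G 0 1 1 ∨ d = G a 1 0 ∨
      d = G (m - a) 0 1 := by
  unfold newM
  rw [Finset.mem_union, Finset.mem_union, Finset.mem_union, Finset.mem_singleton,
    Finset.mem_singleton, Finset.mem_singleton, Finset.mem_image]
  refine or_congr_left ⟨?_, ?_⟩
  · rintro ⟨d', h1, h2⟩
    exact ⟨d', (Finset.mem_erase.1 h1).2, (Finset.mem_erase.1 h1).1, h2⟩
  · rintro ⟨d', h1, h2, h3⟩
    exact ⟨d', Finset.mem_erase.2 ⟨h2, h1⟩, h3⟩

theorem E_ne_G (d m : Fin n →₀ ℕ) (p q : ℕ) (h : p + q ≠ 0) : E d ≠ G m p q := by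
  intro h1
  have h2 := DFunLike.congr_fun h1 (Fin.natAdd n 0)
  have h3 := DFunLike.congr_fun h1 (Fin.natAdd n 1)
  rw [E_n, G_0] at h2
  rw [E_n, G_1] at h3
  omega

theorem G_ne_G (d m : Fin n →₀ ℕ) (p q p' q' : ℕ) (h : p ≠ p' ∨ q ≠ q') :
    G d p q ≠ G m p' q' := by
  intro h1
  have h2 := DFunLike.congr_fun h1 (Fin.natAdd n 0)
  have h3 := DFunLike.congr_fun h1 (Fin.natAdd n 1)
  rw [G_0, G_0] at h2
  rw [G_1, G_1] at h3
  rcases h with h | h
  · exact h h2
  · exact h h3

/-- the polynomial after a step -/
theorem step_eq (f : MvPolynomial (Fin n) K) (m a : Fin n →₀ ℕ) (ham : a ≤ m) :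
    stp f (monomial a (coeff m f)) (monomial (m - a) 1) =
      rename (Fin.castAdd 2) (f - monomial m (coeff m f)) +
        (monomial (G 0 1 1) 1 + (monomial (G a 1 0) (-coeff m f) +
          monomial (G (m - a) 0 1) 1)) := by
  have h1 : (monomial (G (0 : Fin n →₀ ℕ) 1 1) 1 : MvPolynomial (Fin (n + 2)) K) =
      X (Fin.natAdd n 0) * X (Fin.natAdd n 1) := by
    unfold G E
    rw [Finsupp.mapDomain_zero, zero_add, X, X, monomial_mul, one_mul]
  have h2 : (monomial (G a 1 0) (-coeff m f) : MvPolynomial (Fin (n + 2)) K) =
      - (X (Fin.natAdd n 0) * rename (Fin.castAdd 2) (monomial a (coeff m f))) := by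
    unfold G E
    rw [Finsupp.single_zero, add_zero, rename_monomial, X, monomial_mul, one_mul,
      add_comm (Finsupp.single (Fin.natAdd n 0) 1), map_neg]
  have h3 : (monomial (G (m - a) 0 1) 1 : MvPolynomial (Fin (n + 2)) K) =
      rename (Fin.castAdd 2) (monomial (m - a) (1 : K)) * X (Fin.natAdd n 1) := by
    unfold G E
    rw [Finsupp.single_zero, add_zero, rename_monomial, X, monomial_mul, mul_one]
  have h4 : rename (Fin.castAdd 2) (monomial m (coeff m f)) =
      rename (Fin.castAdd 2) (monomial (m - a) (1 : K)) *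
        rename (Fin.castAdd 2) (monomial a (coeff m f)) := by
    rw [← map_mul, monomial_mul, one_mul, tsub_add_cancel_of_le ham]
  unfold stp
  rw [h1, h2, h3, map_sub, h4]
  ring

theorem supp_step (f : MvPolynomial (Fin n) K) (m a : Fin n →₀ ℕ) (ham : a ≤ m) :
    (stp f (monomial a (coeff m f)) (monomial (m - a) 1)).support ⊆ newM f.support m a := by
  classical
  rw [step_eq f m a ham]
  intro d hd
  have h1 := support_add hd
  rw [Finset.mem_union] at h1
  rw [mem_newM]
  rcases h1 with h1 | h1
  · left
    rw [support_rename_of_injective (Fin.castAdd_injective n 2)] at h1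
    obtain ⟨d', hd', h2⟩ := Finset.mem_image.1 h1
    rw [mem_support_iff, coeff_sub, coeff_monomial] at hd'
    by_cases h : m = d'
    · subst h
      rw [if_pos rfl, sub_self] at hd'
      exact absurd rfl hd'
    · rw [if_neg h, sub_zero] at hd'
      exact ⟨d', mem_support_iff.2 hd', fun h' => h h'.symm, h2⟩
  · right
    have h2 := support_add h1
    rw [Finset.mem_union] at h2
    rcases h2 with h2 | h2
    · left
      exact Finset.mem_singleton.1 (support_monomial_subset h2)
    · right
      have h3 := support_add h2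
      rw [Finset.mem_union] at h3
      rcases h3 with h3 | h3
      · left
        exact Finset.mem_singleton.1 (support_monomial_subset h3)
      · right
        exact Finset.mem_singleton.1 (support_monomial_subset h3)

theorem coeff_ren_G (p : MvPolynomial (Fin n) K) (m : Fin n →₀ ℕ) (a b : ℕ) (h : a + b ≠ 0) :
    coeff (G m a b) (rename (Fin.castAdd 2) p) = 0 := by
  refine coeff_rename_eq_zero _ _ _ fun u hu => ?_
  exact absurd hu (E_ne_G u m a b h)

section
variable (f : MvPolynomial (Fin n) K) (m a : Fin n →₀ ℕ) (ham : a ≤ m)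
include ham

theorem coeff_E (d : Fin n →₀ ℕ) (hd : d ≠ m) :
    coeff (E d) (stp f (monomial a (coeff m f)) (monomial (m - a) 1)) = coeff d f := by
  classical
  rw [step_eq f m a ham, coeff_add, coeff_add, coeff_add, coeff_monomial, coeff_monomial,
    coeff_monomial, if_neg (E_ne_G d _ 1 1 (by omega)).symm,
    if_neg (E_ne_G d _ 1 0 (by omega)).symm, if_neg (E_ne_G d _ 0 1 (by omega)).symm, add_zero,
    add_zero, add_zero]
  unfold E
  rw [coeff_rename_mapDomain _ (Fin.castAdd_injective n 2), coeff_sub, coeff_monomial,
    if_neg hd.symm, sub_zero]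

theorem coeff_11 :
    coeff (G 0 1 1) (stp f (monomial a (coeff m f)) (monomial (m - a) 1)) = 1 := by
  classical
  rw [step_eq f m a ham, coeff_add, coeff_add, coeff_add, coeff_monomial, coeff_monomial,
    coeff_monomial, if_pos rfl, if_neg (G_ne_G a 0 1 0 1 1 (by omega)),
    if_neg (G_ne_G (m - a) 0 0 1 1 1 (by omega)), coeff_ren_G _ _ _ _ (by omega)]
  ring

theorem coeff_01 :
    coeff (G (m - a) 0 1) (stp f (monomial a (coeff m f)) (monomial (m - a) 1)) = 1 := by
  classical
  rw [step_eq f m a ham, coeff_add, coeff_add, coeff_add, coeff_monomial, coeff_monomial,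
    coeff_monomial, if_pos rfl, if_neg (G_ne_G a (m - a) 1 0 0 1 (by omega)),
    if_neg (G_ne_G 0 (m - a) 1 1 0 1 (by omega)), coeff_ren_G _ _ _ _ (by omega)]
  ring

end

open Classical in
/-- the weight of a monomial `c x ^ m` -/
noncomputable def bw {N : ℕ} (m : Fin N →₀ ℕ) (c : K) : ℕ :=
  if ∑ i, m i = 0 then 1 else if ∑ i, m i = 1 then 0 else if c = 1 then 0 else ∑ i, m i - 1

/-- the total weight -/
noncomputable def nu {N : ℕ} (f : MvPolynomial (Fin N) K) : ℕ :=
  ∑ m ∈ f.support, bw m (coeff m f)

theorem nu_step (f : MvPolynomial (Fin n) K) (m a : Fin n →₀ ℕ) (ham : a ≤ m)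
    (hm : m ∈ f.support) :
    nu (stp f (monomial a (coeff m f)) (monomial (m - a) 1)) + bw m (coeff m f) ≤
      nu f + ∑ i, a i := by
  classical
  set F := stp f (monomial a (coeff m f)) (monomial (m - a) 1) with hF
  have h1 : nu F ≤ ∑ d ∈ newM f.support m a, bw d (coeff d F) :=
    Finset.sum_le_sum_of_subset (supp_step f m a ham)
  have h2 : ∑ d ∈ newM f.support m a, bw d (coeff d F) ≤
      ∑ d ∈ (f.support.erase m).image E, bw d (coeff d F) +
        (bw (G (0 : Fin n →₀ ℕ) 1 1) (coeff (G (0 : Fin n →₀ ℕ) 1 1) F) +
        (bw (G a 1 0) (coeff (G a 1 0) F) + bw (G (m - a) 0 1) (coeff (G (m - a) 0 1) F))) := by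
    unfold newM
    have u : ∀ A B : Finset (Fin (n + 2) →₀ ℕ), ∑ d ∈ A ∪ B, bw d (coeff d F) ≤
        ∑ d ∈ A, bw d (coeff d F) + ∑ d ∈ B, bw d (coeff d F) := by
      intro A B
      have := Finset.sum_union_inter (s₁ := A) (s₂ := B) (f := fun d => bw d (coeff d F))
      omega
    have u1 := u ((f.support.erase m).image E) ({G 0 1 1} ∪ ({G a 1 0} ∪ {G (m - a) 0 1}))
    have u2 := u {G 0 1 1} ({G a 1 0} ∪ {G (m - a) 0 1})
    have u3 := u {G a 1 0} {G (m - a) 0 1}
    rw [Finset.sum_singleton] at u2 u3
    rw [Finset.sum_singleton] at u3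
    omega
  have h3 : ∑ d ∈ (f.support.erase m).image E, bw d (coeff d F) =
      ∑ d ∈ f.support.erase m, bw d (coeff d f) := by
    rw [Finset.sum_image (fun a _ b _ h => E_inj h)]
    refine Finset.sum_congr rfl fun d hd => ?_
    rw [hF, coeff_E f m a ham d (Finset.mem_erase.1 hd).1]
    unfold bw
    rw [E_eq, deg_G, add_zero, add_zero]
  have h4 : ∑ d ∈ f.support.erase m, bw d (coeff d f) + bw m (coeff m f) = nu f :=
    Finset.sum_erase_add _ _ hm
  have h5 : bw (G (0 : Fin n →₀ ℕ) 1 1) (coeff (G 0 1 1) F) = 0 := by
    rw [hF, coeff_11 f m a ham]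
    unfold bw
    rw [deg_G, if_neg (by omega), if_pos rfl, ite_self]
  have h6 : bw (G (m - a) 0 1) (coeff (G (m - a) 0 1) F) = 0 := by
    rw [hF, coeff_01 f m a ham]
    unfold bw
    rw [deg_G, if_neg (by omega), if_pos rfl, ite_self]
  have h7 : bw (G a 1 0) (coeff (G a 1 0) F) ≤ ∑ i, a i := by
    unfold bw
    rw [deg_G, add_zero, if_neg (Nat.succ_ne_zero _), Nat.add_sub_cancel]
    split_ifs
    · exact Nat.zero_le _
    · exact Nat.zero_le _
    · exact le_rfl
  omega

/-- the numbers of occurrences do not increase -/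
theorem occ_step {B : Finset (Fin n →₀ ℕ)} {m a : Fin n →₀ ℕ} (ham : a ≤ m) (hm : m ∈ B)
    (hm1 : ∀ i, m i ≤ 1) (h3 : ∀ i, occ B i ≤ 3) : ∀ i, occ (newM B m a) i ≤ 3 := by
  classical
  intro i
  have u1 := occ_union ((B.erase m).image E) ({G 0 1 1} ∪ ({G a 1 0} ∪ {G (m - a) 0 1})) i
  have u2 := occ_union {G (0 : Fin n →₀ ℕ) 1 1} ({G a 1 0} ∪ {G (m - a) 0 1}) i
  have u3 := occ_union {G a 1 0} {G (m - a) 0 1} i
  have c1 : occ ({G (0 : Fin n →₀ ℕ) 1 1} : Finset (Fin (n + 2) →₀ ℕ)) i ≤ 1 :=
    (occ_le_card _ _).trans (by rw [Finset.card_singleton])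
  have c2 : occ ({G a 1 0} : Finset (Fin (n + 2) →₀ ℕ)) i ≤ 1 :=
    (occ_le_card _ _).trans (by rw [Finset.card_singleton])
  have c3 : occ ({G (m - a) 0 1} : Finset (Fin (n + 2) →₀ ℕ)) i ≤ 1 :=
    (occ_le_card _ _).trans (by rw [Finset.card_singleton])
  unfold newM
  revert u1 u2 u3 c1 c2 c3
  refine Fin.addCases (fun j => ?_) (fun j => ?_) i
  · intro u1 u2 u3 c1 c2 c3
    have e1 : occ ((B.erase m).image E) (Fin.castAdd 2 j) ≤ occ (B.erase m) j :=
      occ_image _ _ _ _ fun m _ h => by rw [E_c, h]
    have e2 : occ ({G (0 : Fin n →₀ ℕ) 1 1} : Finset (Fin (n + 2) →₀ ℕ)) (Fin.castAdd 2 j) = 0 :=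
      occ_single_zero _ _ (by rw [G_c]; rfl)
    have e3 : occ (B.erase m) j + occ {m} j = occ B j := by
      unfold occ
      rw [← Finset.card_union_of_disjoint, ← Finset.filter_union, Finset.union_comm,
        ← Finset.insert_eq, Finset.insert_erase hm]
      refine Finset.disjoint_filter_filter ?_
      rw [Finset.disjoint_singleton_right]
      exact Finset.notMem_erase m B
    have e4 := h3 j
    have hle := ham j
    have h1 := hm1 j
    by_cases ha : a j = 0
    · have e5 : occ ({G a 1 0} : Finset (Fin (n + 2) →₀ ℕ)) (Fin.castAdd 2 j) = 0 :=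
        occ_single_zero _ _ (by rw [G_c, ha])
      by_cases hmj : m j = 0
      · have e6 : occ ({G (m - a) 0 1} : Finset (Fin (n + 2) →₀ ℕ)) (Fin.castAdd 2 j) = 0 :=
          occ_single_zero _ _ (by rw [G_c, Finsupp.tsub_apply, hmj]; exact Nat.zero_sub _)
        omega
      · have e7 : occ {m} j = 1 := by
          unfold occ
          rw [Finset.filter_true_of_mem, Finset.card_singleton]
          intro x hx
          rw [Finset.mem_singleton.1 hx]
          exact hmj
        omega
    · have hmj : m j ≠ 0 := by omega
      have e7 : occ {m} j = 1 := by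
        unfold occ
        rw [Finset.filter_true_of_mem, Finset.card_singleton]
        intro x hx
        rw [Finset.mem_singleton.1 hx]
        exact hmj
      have e6 : occ ({G (m - a) 0 1} : Finset (Fin (n + 2) →₀ ℕ)) (Fin.castAdd 2 j) = 0 :=
        occ_single_zero _ _ (by rw [G_c, Finsupp.tsub_apply]; omega)
      omega
  · intro u1 u2 u3 c1 c2 c3
    have e1 : occ ((B.erase m).image E) (Fin.natAdd n j) = 0 :=
      occ_image_zero _ _ _ fun m _ => E_n m j
    omega

end

/-- **The reduction principle to the normal form.** -/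
theorem norm_red (K : Type) [Field K] (P : ∀ n : ℕ, MvPolynomial (Fin n) K → Prop)
    (hC : ∀ (n : ℕ) (f : MvPolynomial (Fin n) K), NF f → P n f)
    (hS : ∀ (n : ℕ) (f u v : MvPolynomial (Fin n) K), P (n + 2) (stp f u v) → P n f) :
    ∀ (n : ℕ) (f : MvPolynomial (Fin n) K), P n f := by
  classical
  have main : ∀ (N n : ℕ) (f : MvPolynomial (Fin n) K) (T : Finset (Fin n)),
      (∀ m ∈ f.support, Ck T m) → (∀ i, occ f.support i ≤ 3) → nu f ≤ N → P n f := by
    intro N
    induction N using Nat.strong_induction_on with
    | _ N ih =>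
      intro n f T hT h3 hN
      -- one step
      have step : ∀ (m a : Fin n →₀ ℕ), m ∈ f.support → a ≤ m →
          ∑ i, a i < bw m (coeff m f) → (∃ T' : Finset (Fin (n + 2)), Ck T' (G 0 1 1) ∧
            Ck T' (G a 1 0) ∧ Ck T' (G (m - a) 0 1) ∧ ∀ d ∈ f.support, Ck T' (E d)) → P n f := by
        rintro m a hm ham hlt ⟨T', t1, t2, t3, t4⟩
        have hnu := nu_step f m a ham hm
        have hsub := supp_step f m a ham
        refine hS n f (monomial a (coeff m f)) (monomial (m - a) 1)
          (ih (nu (stp f (monomial a (coeff m f)) (monomial (m - a) 1))) (by omega) _ _ T' ?_ ?_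
            le_rfl)
        · intro d hd
          rcases (mem_newM _ _ _ _).1 (hsub hd) with ⟨d', h1, h2, rfl⟩ | rfl | rfl | rfl
          · exact t4 d' h1
          · exact t1
          · exact t2
          · exact t3
        · intro i
          exact (occ_mono hsub i).trans (occ_step ham hm (hT m hm).1 h3 i)
      by_cases h0 : ∃ m ∈ f.support, bw m (coeff m f) ≠ 0
      · obtain ⟨m, hm, hbm⟩ := h0
        obtain ⟨g1, g2, g3⟩ := hT m hm
        have g4 := S_S' T m
        -- the weights
        by_cases hd3 : ∑ i, m i = 3
        · -- degree three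
          obtain ⟨i, hi⟩ : ∃ i, m i = 1 := by
            by_contra hne
            push Not at hne
            have : ∑ i, m i = 0 := Finset.sum_eq_zero fun i _ => by
              have := g1 i; have := hne i; omega
            omega
          have hle : Finsupp.single i 1 ≤ m := by
            rw [Finsupp.single_le_iff]
            omega
          have e : m - Finsupp.single i 1 + Finsupp.single i 1 = m := tsub_add_cancel_of_le hle
          have e1 := S_add T (m - Finsupp.single i 1) (Finsupp.single i 1)
          have e2 := S'_add T (m - Finsupp.single i 1) (Finsupp.single i 1)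
          rw [e, S_single] at e1
          rw [e, S'_single] at e2
          refine step m (Finsupp.single i 1) hm hle ?_ ⟨exB T (decide (i ∈ T)), ?_, ?_, ?_, ?_⟩
          · have hs : ∑ j, (Finsupp.single i 1 : Fin n →₀ ℕ) j = 1 := by
              simp [Finsupp.single_apply]
            rw [hs]
            unfold bw at hbm ⊢
            rw [if_neg (by omega), if_neg (by omega)] at hbm ⊢
            split_ifs at hbm ⊢ <;> omega
          · refine ⟨le_G 0 1 1 (fun i => Nat.zero_le _) le_rfl le_rfl, ?_, ?_⟩
            · rw [S_exB, ite_self, S_zero]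
            · rw [S'_exB, ite_self, S'_zero]
              omega
          · refine ⟨le_G _ 1 0 (fun j => ?_) le_rfl (Nat.zero_le _), ?_, ?_⟩
            · rw [Finsupp.single_apply]
              split_ifs
              · exact le_rfl
              · exact Nat.zero_le _
            · rw [S_exB, S_single]
              by_cases hiT : i ∈ T <;> simp [hiT]
            · rw [S'_exB, S'_single]
              by_cases hiT : i ∈ T <;> simp [hiT]
          · refine ⟨le_G _ 0 1 (fun j => ?_) (Nat.zero_le _) le_rfl, ?_, ?_⟩
            · rw [Finsupp.tsub_apply]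
              exact (Nat.sub_le _ _).trans (g1 j)
            · rw [S_exB]
              by_cases hiT : i ∈ T
              · simp only [hiT, decide_true, if_true] at e1 ⊢
                omega
              · simp only [hiT, decide_false, if_false, Bool.false_eq_true] at e1 ⊢
                omega
            · rw [S'_exB]
              by_cases hiT : i ∈ T
              · simp only [hiT, decide_true, if_true] at e2 ⊢
                omega
              · simp only [hiT, decide_false, if_false, Bool.false_eq_true] at e2 ⊢
                omega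
          · intro d hd
            obtain ⟨f1, f2, f3⟩ := hT d hd
            rw [E_eq]
            refine ⟨le_G d 0 0 f1 (by omega) (by omega), ?_, ?_⟩
            · rw [S_exB, ite_self]
              exact f2
            · rw [S'_exB, ite_self]
              exact f3
        · -- degree zero or two
          have hd02 : ∑ i, m i = 0 ∨ ∑ i, m i = 2 := by
            have hd1 : ∑ i, m i ≠ 1 := by
              intro h1
              apply hbm
              unfold bw
              rw [if_neg (by omega), if_pos h1]
            omega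
          refine step m 0 hm (by intro i; exact Nat.zero_le _) ?_
            ⟨exB T (decide (S T m = 0)), ?_, ?_, ?_, ?_⟩
          · have hs : ∑ j, (0 : Fin n →₀ ℕ) j = 0 := by simp
            rw [hs]
            omega
          · refine ⟨le_G 0 1 1 (fun i => Nat.zero_le _) le_rfl le_rfl, ?_, ?_⟩
            · rw [S_exB, ite_self, S_zero]
            · rw [S'_exB, ite_self, S'_zero]
              omega
          · refine ⟨le_G _ 1 0 (fun j => Nat.zero_le _) le_rfl (Nat.zero_le _), ?_, ?_⟩
            · rw [S_exB, S_zero]
              split_ifs <;> omega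
            · rw [S'_exB, S'_zero]
              split_ifs <;> omega
          · rw [tsub_zero]
            refine ⟨le_G _ 0 1 g1 (Nat.zero_le _) le_rfl, ?_, ?_⟩
            · rw [S_exB]
              by_cases hST : S T m = 0
              · simp only [hST, decide_true, if_true]
                omega
              · simp only [hST, decide_false, if_false, Bool.false_eq_true]
                omega
            · rw [S'_exB]
              by_cases hST : S T m = 0
              · simp only [hST, decide_true, if_true]
                omega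
              · simp only [hST, decide_false, if_false, Bool.false_eq_true]
                omega
          · intro d hd
            obtain ⟨f1, f2, f3⟩ := hT d hd
            rw [E_eq]
            refine ⟨le_G d 0 0 f1 (by omega) (by omega), ?_, ?_⟩
            · rw [S_exB, ite_self]
              exact f2
            · rw [S'_exB, ite_self]
              exact f3
      · push Not at h0
        refine hC n f ⟨⟨⟨T, fun m hm => ?_⟩, h3⟩, ?_, ?_⟩
        · rw [sumS, sumS']
          exact hT m hm
        · by_contra hc
          have hm : (0 : Fin n →₀ ℕ) ∈ f.support := mem_support_iff.2 hc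
          have := h0 0 hm
          unfold bw at this
          rw [if_pos (by simp)] at this
          omega
        · intro m hm h2
          have := h0 m hm
          unfold bw at this
          rw [if_neg (by omega), if_neg (by omega)] at this
          by_contra hc
          rw [if_neg hc] at this
          omega
  refine sparse_red K P (fun n f hf => ?_) hS
  obtain ⟨⟨T, hT⟩, h3⟩ := hf
  refine main _ n f T (fun m hm => ?_) h3 le_rfl
  have := hT m hm
  rw [sumS, sumS'] at this
  exact this

end Pool.Agent.V7H32.GL
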