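import Pool.Agent.V7H32.GL.TopZ

/-!
# Uniqueness of the topological specialisation

Let `χ = ε ∘ E` with `E : 𝓜 → A`, `A` a domain, `E(𝕃) ≠ 1` and `ε(E(𝕃)) = 1` (for instance `E` the Hodge-Deligne
polynomial and `χ` the Euler characteristic). Then `R` is determined by `Z` in `IsTopZ χ Z R`.
-/

set_option autoImplicit false

namespace Pool.Agent.V7H32.GL

open MvPolynomial Pool.Agent.W428.MOT
open Pool.Agent.N101.CB
open Pool.Agent.W63.MTFin (geo_mul)

variable {A : Type} [CommRing A] [IsDomain A] (E : MK ℂ →+* A) (ε : A →+* ℂ)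

/-- `x` is in the localisation of `A` at the kernel of `ε`, with the value `c` -/
def Val (x : FractionRing A) (c : ℂ) : Prop :=
  ∃ a s : A, ε s ≠ 0 ∧ x * algebraMap A (FractionRing A) s = algebraMap A (FractionRing A) a ∧
    c * ε s = ε a

variable {ε}

theorem Val.zero {c : ℂ} (h : Val ε 0 c) : c = 0 := by
  obtain ⟨a, s, hs, h1, h2⟩ := h
  rw [zero_mul] at h1
  have h3 : a = 0 := (IsFractionRing.injective A (FractionRing A)) (by rw [← h1, map_zero])
  rw [h3, map_zero] at h2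
  exact (mul_eq_zero.1 h2).resolve_right hs

theorem Val.of (a : A) : Val ε (algebraMap A (FractionRing A) a) (ε a) :=
  ⟨a, 1, by rw [map_one]; exact one_ne_zero, by rw [map_one, mul_one], by rw [map_one, mul_one]⟩

theorem Val.add {x y : FractionRing A} {c d : ℂ} (h : Val ε x c) (h' : Val ε y d) :
    Val ε (x + y) (c + d) := by
  obtain ⟨a, s, hs, h1, h2⟩ := h
  obtain ⟨a', s', hs', h1', h2'⟩ := h'
  refine ⟨a * s' + a' * s, s * s', by rw [map_mul]; exact mul_ne_zero hs hs', ?_, ?_⟩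
  · rw [map_mul, map_add, map_mul, map_mul, ← h1, ← h1']
    ring
  · rw [map_mul, map_add, map_mul, map_mul, ← h2, ← h2']
    ring

theorem Val.mul {x y : FractionRing A} {c d : ℂ} (h : Val ε x c) (h' : Val ε y d) :
    Val ε (x * y) (c * d) := by
  obtain ⟨a, s, hs, h1, h2⟩ := h
  obtain ⟨a', s', hs', h1', h2'⟩ := h'
  refine ⟨a * a', s * s', by rw [map_mul]; exact mul_ne_zero hs hs', ?_, ?_⟩
  · rw [map_mul, map_mul, ← h1, ← h1']
    ring
  · rw [map_mul, map_mul, ← h2, ← h2']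
    ring

/-- `1 / s` -/
theorem Val.inv {s : A} (hs : ε s ≠ 0) {x : FractionRing A}
    (hx : x * algebraMap A (FractionRing A) s = 1) : Val ε x (ε s)⁻¹ :=
  ⟨1, s, hs, by rw [hx, map_one], by rw [inv_mul_cancel₀ hs, map_one]⟩

/-- the coefficients in the field of fractions -/
noncomputable def ph (E : MK ℂ →+* A) : MK ℂ →+* FractionRing A :=
  (algebraMap A (FractionRing A)).comp E

/-- `𝕃` in the field of fractions -/
noncomputable def La (E : MK ℂ →+* A) : FractionRing A := ph E ((Lu ℂ : (MK ℂ)ˣ) : MK ℂ)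

theorem ph_zpow (z : ℤ) : ph E (((Lu ℂ) ^ z : (MK ℂ)ˣ) : MK ℂ) = La E ^ z := by
  have h1 : ((Units.map (ph E : MK ℂ →* FractionRing A) (Lu ℂ) ^ z : (FractionRing A)ˣ) :
      FractionRing A) = La E ^ z := by
    rw [Units.val_zpow_eq_zpow_val]
    rfl
  rw [← h1, ← map_zpow]
  rfl

theorem La_ne : La E ≠ 0 := by
  intro h
  have h2 : ((Lu ℂ : (MK ℂ)ˣ) : MK ℂ) * (((Lu ℂ)⁻¹ : (MK ℂ)ˣ) : MK ℂ) = 1 := Units.mul_inv _
  have h3 := congrArg (ph E) h2
  rw [map_mul, map_one] at h3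
  change La E * _ = 1 at h3
  rw [h, zero_mul] at h3
  exact zero_ne_one h3

/-- `1 + 𝕃 + ⋯ + 𝕃 ^ (m - 1)` -/
noncomputable def gs (E : MK ℂ →+* A) (m : ℕ) : A :=
  ∑ i ∈ Finset.range m, E ((Lu ℂ : (MK ℂ)ˣ) : MK ℂ) ^ i

theorem eps_gs (hε : ε (E ((Lu ℂ : (MK ℂ)ˣ) : MK ℂ)) = 1) (m : ℕ) : ε (gs E m) = m := by
  unfold gs
  rw [map_sum]
  simp [map_pow, hε]

theorem gs_mul (m : ℕ) : algebraMap A (FractionRing A) (gs E m) * (La E - 1) = La E ^ m - 1 := by
  have h := geom_sum_mul (La E) m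
  rw [← h]
  congr 1
  unfold gs
  rw [map_sum]
  refine Finset.sum_congr rfl fun i _ => ?_
  rw [map_pow]
  rfl

/-- the values at `T = 𝕃 ^ (-k)` and `s = k` -/
theorem approx (hE : E ((Lu ℂ : (MK ℂ)ˣ) : MK ℂ) ≠ 1) (hε : ε (E ((Lu ℂ : (MK ℂ)ˣ) : MK ℂ)) = 1)
    (Q : MvPolynomial (ℕ × ℤ) (MK ℂ)) :
    ∃ (D P : Polynomial (MK ℂ)) (d p : Polynomial ℂ) (k₀ : ℕ),
      (D : PowerSeries (MK ℂ)) * aeval FZ Q = (P : PowerSeries (MK ℂ)) ∧
      algebraMap (Polynomial ℂ) (RatFunc ℂ) d *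
        eval₂ ((algebraMap ℂ (RatFunc ℂ)).comp (ε.comp E)) ftZ Q =
          algebraMap (Polynomial ℂ) (RatFunc ℂ) p ∧
      ∀ k : ℕ, k₀ ≤ k → D.eval₂ (ph E) ((La E)⁻¹ ^ k) ≠ 0 ∧ d.eval (k : ℂ) ≠ 0 ∧
        ∃ (q : FractionRing A) (c : ℂ), Val ε q c ∧
          P.eval₂ (ph E) ((La E)⁻¹ ^ k) = D.eval₂ (ph E) ((La E)⁻¹ ^ k) * q ∧
          p.eval (k : ℂ) = d.eval (k : ℂ) * c := by
  have hLa : La E - 1 ≠ 0 := by
    intro h
    apply hE
    have h1 : algebraMap A (FractionRing A) (E ((Lu ℂ : (MK ℂ)ˣ) : MK ℂ)) =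
        algebraMap A (FractionRing A) 1 := by
      rw [map_one]
      exact sub_eq_zero.1 h
    exact IsFractionRing.injective A (FractionRing A) h1
  induction Q using MvPolynomial.induction_on with
  | C a =>
    refine ⟨1, Polynomial.C a, 1, Polynomial.C (ε (E a)), 0, ?_, ?_, ?_⟩
    · rw [Polynomial.coe_one, one_mul, aeval_C, PowerSeries.algebraMap_apply,
        Algebra.algebraMap_self, RingHom.id_apply, Polynomial.coe_C]
    · rw [map_one, one_mul, eval₂_C, RingHom.comp_apply,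
        IsScalarTower.algebraMap_apply ℂ (Polynomial ℂ) (RatFunc ℂ)]
      rfl
    · intro k _
      refine ⟨?_, ?_, ph E a, ε (E a), Val.of (E a), ?_, ?_⟩
      · rw [Polynomial.eval₂_one]
        exact one_ne_zero
      · rw [Polynomial.eval_one]
        exact one_ne_zero
      · rw [Polynomial.eval₂_C, Polynomial.eval₂_one, one_mul]
      · rw [Polynomial.eval_C, Polynomial.eval_one, one_mul]
  | add Q Q' hQ hQ' =>
    obtain ⟨D, P, d, p, k₀, h1, h2, h3⟩ := hQ
    obtain ⟨D', P', d', p', k₀', h1', h2', h3'⟩ := hQ'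
    refine ⟨D * D', P * D' + P' * D, d * d', p * d' + p' * d, max k₀ k₀', ?_, ?_, ?_⟩
    · rw [map_add, Polynomial.coe_mul, Polynomial.coe_add, Polynomial.coe_mul,
        Polynomial.coe_mul, ← h1, ← h1']
      ring
    · rw [eval₂_add, map_mul, map_add, map_mul, map_mul, ← h2, ← h2']
      ring
    · intro k hk
      obtain ⟨g1, g2, q, c, g3, g4, g5⟩ := h3 k (le_trans (le_max_left _ _) hk)
      obtain ⟨g1', g2', q', c', g3', g4', g5'⟩ := h3' k (le_trans (le_max_right _ _) hk)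
      refine ⟨?_, ?_, q + q', c + c', g3.add g3', ?_, ?_⟩
      · rw [Polynomial.eval₂_mul]
        exact mul_ne_zero g1 g1'
      · rw [Polynomial.eval_mul]
        exact mul_ne_zero g2 g2'
      · rw [Polynomial.eval₂_add, Polynomial.eval₂_mul, Polynomial.eval₂_mul,
          Polynomial.eval₂_mul, g4, g4']
        ring
      · rw [Polynomial.eval_add, Polynomial.eval_mul, Polynomial.eval_mul, Polynomial.eval_mul,
          g5, g5']
        ring
  | mul_X Q i hQ =>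
    obtain ⟨D, P, d, p, k₀, h1, h2, h3⟩ := hQ
    set u : MK ℂ := (((Lu ℂ) ^ (-i.2) : (MK ℂ)ˣ) : MK ℂ) with hu
    have hg : (1 - PowerSeries.C u * PowerSeries.X ^ (i.1 + 1)) *
        geo ℂ (-i.2) ((i.1 + 1 : ℕ) : ℤ) = 1 := by
      have := geo_mul (K := ℂ) (-i.2) ((i.1 + 1 : ℕ) : ℤ) (by exact_mod_cast Nat.succ_pos _)
      rwa [Int.toNat_natCast] at this
    refine ⟨D * (1 - Polynomial.C u * Polynomial.X ^ (i.1 + 1)),
      P * (Polynomial.C (((Lu ℂ : (MK ℂ)ˣ) : MK ℂ) - 1) *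
        (Polynomial.C u * Polynomial.X ^ (i.1 + 1))), d * lpZ i, p,
      max k₀ (i.2.natAbs + 1), ?_, ?_, ?_⟩
    · have hFZ : FZ i = PowerSeries.C (((Lu ℂ : (MK ℂ)ˣ) : MK ℂ) - 1) *
          (PowerSeries.C u * PowerSeries.X ^ (i.1 + 1)) *
          geo ℂ (-i.2) ((i.1 + 1 : ℕ) : ℤ) := rfl
      rw [map_mul, aeval_X, hFZ, Polynomial.coe_mul, Polynomial.coe_mul, Polynomial.coe_mul,
        Polynomial.coe_sub, Polynomial.coe_one, Polynomial.coe_mul, Polynomial.coe_C,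
        Polynomial.coe_C, Polynomial.coe_pow, Polynomial.coe_X, ← h1]
      linear_combination ((D : PowerSeries (MK ℂ)) * aeval FZ Q *
        (PowerSeries.C (((Lu ℂ : (MK ℂ)ˣ) : MK ℂ) - 1) *
          (PowerSeries.C u * PowerSeries.X ^ (i.1 + 1)))) * hg
    · rw [eval₂_mul, eval₂_X, ftZ_lp, map_mul, ← h2]
      have h4 : algebraMap (Polynomial ℂ) (RatFunc ℂ) (lpZ i) ≠ 0 := by
        obtain ⟨a, ha⟩ : ∃ a : ℕ, -i.2 ≤ (a : ℤ) := ⟨i.2.natAbs, by omega⟩
        refine ne0 (s := ((a + 1 : ℕ) : ℂ)) ?_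
        rw [lpZ_eval]
        have h5 : ((i.1 : ℤ) + 1) * ((a + 1 : ℕ) : ℤ) + i.2 ≠ 0 := by
          have h7 : (0 : ℤ) ≤ (i.1 : ℤ) * ((a + 1 : ℕ) : ℤ) := by positivity
          have h8 : ((i.1 : ℤ) + 1) * ((a + 1 : ℕ) : ℤ) =
              (i.1 : ℤ) * ((a + 1 : ℕ) : ℤ) + ((a + 1 : ℕ) : ℤ) := by ring
          rw [h8]
          push_cast at h7 ⊢
          omega
        intro h6
        apply h5
        have h7 : ((((i.1 : ℤ) + 1) * ((a + 1 : ℕ) : ℤ) + i.2 : ℤ) : ℂ) = ((0 : ℤ) : ℂ) := by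
          push_cast at h6 ⊢
          exact h6
        exact_mod_cast h7
      linear_combination (algebraMap (Polynomial ℂ) (RatFunc ℂ) d *
        eval₂ ((algebraMap ℂ (RatFunc ℂ)).comp (ε.comp E)) ftZ Q) * mul_inv_cancel₀ h4
    · intro k hk
      obtain ⟨g1, g2, q, c, g3, g4, g5⟩ := h3 k (le_trans (le_max_left _ _) hk)
      have hk2 : i.2.natAbs + 1 ≤ k := le_trans (le_max_right _ _) hk
      obtain ⟨m, hm, hm1⟩ : ∃ m : ℕ, ((m : ℕ) : ℤ) = ((i.1 : ℤ) + 1) * k + i.2 ∧ m ≠ 0 := by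
        have h6 : -i.2 ≤ (i.2.natAbs : ℤ) := by omega
        have h7 : (0 : ℤ) ≤ (i.1 : ℤ) := Int.natCast_nonneg _
        have h8 : (i.2.natAbs : ℤ) + 1 ≤ (k : ℤ) := by exact_mod_cast hk2
        have h9 : 0 < ((i.1 : ℤ) + 1) * k + i.2 := by
          nlinarith [mul_nonneg h7 (Int.natCast_nonneg k)]
        refine ⟨(((i.1 : ℤ) + 1) * k + i.2).toNat, Int.toNat_of_nonneg h9.le, ?_⟩
        omega
      have hLn := La_ne E
      -- the value of `u T ^ N` is `𝕃 ^ (-m)`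
      have e1 : ph E u * ((La E)⁻¹ ^ k) ^ (i.1 + 1) = (La E ^ m)⁻¹ := by
        rw [hu, ph_zpow, ← pow_mul, inv_pow, ← zpow_natCast (La E) (k * (i.1 + 1)), ← zpow_neg,
          ← zpow_add₀ hLn, ← zpow_natCast (La E) m, ← zpow_neg]
        congr 1
        rw [hm]
        push_cast
        ring
      have hgm := gs_mul E m
      have hεm := eps_gs (ε := ε) E hε m
      have hεm' : ε (gs E m) ≠ 0 := by
        rw [hεm]
        exact_mod_cast hm1
      have hgs : algebraMap A (FractionRing A) (gs E m) ≠ 0 := by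
        intro h
        have h3 : gs E m = 0 := IsFractionRing.injective A (FractionRing A) (by rw [h, map_zero])
        rw [h3, map_zero] at hεm'
        exact hεm' rfl
      have hLm : La E ^ m ≠ 0 := pow_ne_zero m hLn
      have hne : 1 - (La E ^ m)⁻¹ ≠ 0 := by
        intro h
        have h4 : La E ^ m - 1 = 0 := by
          have := congrArg (fun x => x * La E ^ m) h
          simp only [sub_mul, one_mul, inv_mul_cancel₀ hLm, zero_mul] at this
          exact this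
        rw [← hgm] at h4
        rcases mul_eq_zero.1 h4 with h5 | h5
        · exact hgs h5
        · exact hLa h5
      have e2 : (1 - Polynomial.C u * Polynomial.X ^ (i.1 + 1) : Polynomial (MK ℂ)).eval₂ (ph E)
          ((La E)⁻¹ ^ k) = 1 - (La E ^ m)⁻¹ := by
        rw [Polynomial.eval₂_sub, Polynomial.eval₂_one, Polynomial.eval₂_mul, Polynomial.eval₂_C,
          Polynomial.eval₂_X_pow, e1]
      have e3 : (lpZ i).eval (k : ℂ) = (m : ℂ) := by
        rw [lpZ_eval]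
        have : ((m : ℤ) : ℂ) = ((((i.1 : ℤ) + 1) * k + i.2 : ℤ) : ℂ) := by rw [hm]
        push_cast at this
        exact this.symm
      refine ⟨?_, ?_, q * (algebraMap A (FractionRing A) (gs E m))⁻¹, c * (ε (gs E m))⁻¹,
        g3.mul (Val.inv hεm' (inv_mul_cancel₀ hgs)), ?_, ?_⟩
      · rw [Polynomial.eval₂_mul, e2]
        exact mul_ne_zero g1 hne
      · rw [Polynomial.eval_mul, e3]
        exact mul_ne_zero g2 (by exact_mod_cast hm1)
      · rw [Polynomial.eval₂_mul, Polynomial.eval₂_mul, Polynomial.eval₂_mul,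
          Polynomial.eval₂_mul, Polynomial.eval₂_C, Polynomial.eval₂_C, Polynomial.eval₂_X_pow,
          e1, e2, g4]
        have e4 : ph E (((Lu ℂ : (MK ℂ)ˣ) : MK ℂ) - 1) = La E - 1 := by
          rw [map_sub, map_one]
          rfl
        rw [e4]
        have e5 : (La E - 1) * (La E ^ m)⁻¹ =
            (1 - (La E ^ m)⁻¹) * (algebraMap A (FractionRing A) (gs E m))⁻¹ := by
          field_simp
          linear_combination hgm
        linear_combination (Polynomial.eval₂ (ph E) ((La E)⁻¹ ^ k) D * q) * e5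
      · rw [Polynomial.eval_mul, e3, g5, hεm]
        have hm' : (m : ℂ) ≠ 0 := by exact_mod_cast hm1
        field_simp

/-- **Uniqueness of the topological specialisation.** -/
theorem topZ_unique (hE : E ((Lu ℂ : (MK ℂ)ˣ) : MK ℂ) ≠ 1)
    (hε : ε (E ((Lu ℂ : (MK ℂ)ˣ) : MK ℂ)) = 1) {Z : PowerSeries (MK ℂ)} {R R' : RatFunc ℂ}
    (h : IsTopZ (ε.comp E) Z R) (h' : IsTopZ (ε.comp E) Z R') : R = R' := by
  have h0 := topZ_sub h h'
  rw [sub_self] at h0
  obtain ⟨Q, h1, h2⟩ := isTopZ_iff.1 h0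
  obtain ⟨D, P, d, p, k₀, g1, g2, g3⟩ := approx E hE hε Q
  rw [← h1, mul_zero] at g1
  have hP : P = 0 := by
    apply Polynomial.coe_injective
    rw [← g1, Polynomial.coe_zero]
  rw [← h2] at g2
  have hpk : ∀ k : ℕ, k₀ ≤ k → p.eval (k : ℂ) = 0 := by
    intro k hk
    obtain ⟨f1, f2, q, c, f3, f4, f5⟩ := g3 k hk
    rw [hP, Polynomial.eval₂_zero] at f4
    have hq : q = 0 := (mul_eq_zero.1 f4.symm).resolve_left f1
    rw [hq] at f3
    rw [f5, f3.zero, mul_zero]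
  have hp : p = 0 := by
    refine Polynomial.eq_zero_of_infinite_isRoot p (Set.Infinite.mono ?_
      (Set.infinite_range_of_injective (f := fun k : ℕ => ((k₀ + k : ℕ) : ℂ)) ?_))
    · rintro _ ⟨k, rfl⟩
      exact hpk _ (Nat.le_add_right _ _)
    · intro a b hab
      simp only [Nat.cast_inj] at hab
      omega
  have hd : algebraMap (Polynomial ℂ) (RatFunc ℂ) d ≠ 0 := ne0 (g3 k₀ le_rfl).2.1
  rw [hp, map_zero] at g2
  exact sub_eq_zero.1 ((mul_eq_zero.1 g2).resolve_left hd)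

end Pool.Agent.V7H32.GL
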