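import Pool.Agent.V7H32.GL.Eqv
import Pool.Agent.V7H32.GL.Norm
import Pool.Agent.V7H32.GL.Uniq

/-!
# The topological strong monodromy conjecture: final assembly
-/

set_option autoImplicit false

namespace Pool.Agent.V7H32.GL

open MvPolynomial Pool.Agent.W428.MOT
open Pool.Agent.N101.CB
open Pool.Agent.H628R4.TP (IsBFunction weylS)

/-! ### the usual topological zeta functions -/

theorem ftZ_ft (p : ℕ × ℕ) : ftZ (p.1, (p.2 : ℤ) + 1) = ft p := by
  unfold ftZ ft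
  push_cast
  rfl

theorem isTopU_iff {χ : MK ℂ →+* ℂ} {Z : PowerSeries (MK ℂ)} {R : RatFunc ℂ} :
    IsTopU χ Z R ↔ IsTop χ Z R := by
  have e1 : (fun i : ℕ × ℕ => FG (Lu ℂ) (i.1 + 1) ((i.2 : ℤ) + 1)) =
      fun p => Fz ℂ (p.1 + 1) (p.2 + 1) := rfl
  have e2 : (fun i : ℕ × ℕ => (((i.1 : RatFunc ℂ) + 1) * RatFunc.X +
      (((i.2 : ℤ) + 1 : ℤ) : RatFunc ℂ))⁻¹) = ft := by
    funext p
    unfold ft
    push_cast
    rfl
  show (∃ Q : MvPolynomial (ℕ × ℕ) (MK ℂ),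
    Z = aeval (fun i : ℕ × ℕ => FG (Lu ℂ) (i.1 + 1) ((i.2 : ℤ) + 1)) Q ∧
    R = eval₂ ((algebraMap ℂ (RatFunc ℂ)).comp χ) (fun i : ℕ × ℕ =>
      (((i.1 : RatFunc ℂ) + 1) * RatFunc.X + (((i.2 : ℤ) + 1 : ℤ) : RatFunc ℂ))⁻¹) Q) ↔ _
  rw [e1, e2]
  exact Iff.rfl

theorem isTop_topZ {χ : MK ℂ →+* ℂ} {Z : PowerSeries (MK ℂ)} {R : RatFunc ℂ} (h : IsTop χ Z R) :
    IsTopZ χ Z R := by
  obtain ⟨Q, rfl, rfl⟩ := h
  refine isTopZ_iff.2 ⟨rename (fun p : ℕ × ℕ => (p.1, (p.2 : ℤ) + 1)) Q, ?_, ?_⟩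
  · rw [aeval_rename]
    rfl
  · rw [eval₂_rename]
    have e : ftZ ∘ (fun p : ℕ × ℕ => (p.1, (p.2 : ℤ) + 1)) = ft := funext ftZ_ft
    rw [e]

/-- **The meaning of `Cj`** if there is a topological zeta function in the usual sense. -/
theorem cj_iff {χ : MK ℂ →+* ℂ} (hu : ∀ (Z : PowerSeries (MK ℂ)) (R R' : RatFunc ℂ),
      IsTopZ χ Z R → IsTopZ χ Z R' → R = R') {n : ℕ} {f : MvPolynomial (Fin n) ℂ}
    {W : Set (Pt ℂ (Fin n))} {b : Polynomial ℂ} {R : RatFunc ℂ} (h : IsTop χ (zt f W) R) :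
    (Cj χ false f W b ↔ ∀ s : ℂ, ¬ Reg R s → b.eval s = 0) ∧
      (Cj χ true f W b ↔ ∀ s : ℂ, Reg (algebraMap (Polynomial ℂ) (RatFunc ℂ) b * R) s) := by
  constructor
  · constructor
    · rintro ⟨R', hR', h1⟩ s hs
      have e := hu _ _ _ hR' (isTop_topZ h)
      subst e
      obtain ⟨q, hq, rfl⟩ := ne_of_pole h hs
      by_contra hb
      have h2 := h1 q hq
      simp only [PR, Bool.false_eq_true, if_false] at h2
      exact hs (h2 hb)
    · intro h1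
      refine ⟨R, isTop_topZ h, fun q _ => ?_⟩
      simp only [PR, Bool.false_eq_true, if_false]
      intro hb
      by_contra hs
      exact hb (h1 _ hs)
  · constructor
    · rintro ⟨R', hR', h1⟩ s
      have e := hu _ _ _ hR' (isTop_topZ h)
      subst e
      by_cases hs : Reg R' s
      · exact (Reg.poly b s).mul hs
      · obtain ⟨q, hq, rfl⟩ := ne_of_pole h hs
        have h2 := h1 q hq
        simp only [PR, if_true] at h2
        exact h2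
    · intro h1
      refine ⟨R, isTop_topZ h, fun q _ => ?_⟩
      simp only [PR, if_true]
      exact h1 _

/-! ### the open set `g ≠ 0` -/

section
variable {χ : MK ℂ →+* ℂ} {o : Bool} {n : ℕ} {f : MvPolynomial (Fin n) ℂ}

/-- the zeta function of `f + y (u g - 1)` -/
theorem zt_yugG (f g : MvPolynomial (Fin n) ℂ) : zt (yug f g) Set.univ =
    ZG (Lu ℂ) (clM {z : Pt ℂ (Fin n) | aeval z g ≠ 0}) (clM {z : Pt ℂ (Fin n) | aeval z g ≠ 0}ᶜ)
      (zt f {z | aeval z g ≠ 0}) := by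
  have h := zt_yug f g
  have e : Fz ℂ 1 1 = FG (Lu ℂ) 1 1 := rfl
  rw [e] at h
  exact h

/-- the functional equation of `f + y (u g - 1)` -/
theorem bon_yug (hf : f.totalDegree ≠ 0) {g : MvPolynomial (Fin n) ℂ} {c : Polynomial ℂ}
    (hb : IsBOn g f ((Polynomial.X + 1) * c)) :
    IsBFunction (yug f g) ((Polynomial.X + 1) * c.comp (Polynomial.X + 1)) := by
  have hf0 : f ≠ 0 := by
    rintro rfl
    exact hf totalDegree_zero
  obtain ⟨l, hl⟩ := isBOn_WW hb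
  refine opnB l ((reducedG hf0 hl).2 ?_ c rfl)
  rw [Polynomial.eval_mul, Polynomial.eval_add, Polynomial.eval_X, Polynomial.eval_one,
    neg_add_cancel, zero_mul]

theorem cj_yug (hχ : χ ((Lu ℂ : (MK ℂ)ˣ) : MK ℂ) = 1) (hf : f.totalDegree ≠ 0)
    {g : MvPolynomial (Fin n) ℂ} (hG : ∀ b : Polynomial ℂ, IsBFunction (yug f g) b →
      Cj χ o (yug f g) Set.univ b) (b : Polynomial ℂ) (hb : IsBOn g f b) :
    Cj χ o f {z | aeval z g ≠ 0} b := by
  have hf0 : f ≠ 0 := by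
    rintro rfl
    exact hf totalDegree_zero
  obtain ⟨l, hl⟩ := isBOn_WW hb
  exact cj_openG hχ hf0 hG hl

/-! ### the normal form -/

/-- the relations between `f` and its normal form `F`, in `n + 2 κ` variables -/
structure Rn (χ : MK ℂ →+* ℂ) (o : Bool) {n m : ℕ} (f : MvPolynomial (Fin n) ℂ)
    (F : MvPolynomial (Fin m) ℂ) (κ : ℕ) : Prop where
  deg : F.totalDegree ≠ 0
  sing : (Sg F).encard ≤ (Sg f).encard
  b : ∀ c : Polynomial ℂ, IsBFunction f ((Polynomial.X + 1) * c) →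
    IsBFunction F ((Polynomial.X + 1) * c.comp (Polynomial.X + Polynomial.C (κ : ℂ)))
  cj : (∀ b : Polynomial ℂ, IsBFunction F b → Cj χ o F Set.univ b) →
    ∀ b : Polynomial ℂ, IsBFunction f b → Cj χ o f Set.univ b

theorem exists_nf (hχ : χ ((Lu ℂ : (MK ℂ)ˣ) : MK ℂ) = 1) : ∀ (n : ℕ)
    (f : MvPolynomial (Fin n) ℂ), f.totalDegree ≠ 0 → ∃ (κ m : ℕ) (F : MvPolynomial (Fin m) ℂ),
      m = n + 2 * κ ∧ NF F ∧ Rn χ o f F κ := by
  refine norm_red ℂ (fun n f => f.totalDegree ≠ 0 → ∃ (κ m : ℕ) (F : MvPolynomial (Fin m) ℂ),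
      m = n + 2 * κ ∧ NF F ∧ Rn χ o f F κ) ?_ ?_
  · intro n f hf hd
    refine ⟨0, n, f, rfl, hf, hd, le_rfl, fun c hc => ?_, fun h => h⟩
    rw [Nat.cast_zero, map_zero, add_zero, Polynomial.comp_X]
    exact hc
  · intro n f u v ih hd
    obtain ⟨κ, m, F, hm, hF, h1, h2, h3, h4⟩ := ih (stp_deg f u v)
    refine ⟨κ + 1, m, F, by omega, hF, h1, h2.trans (encard_stp f u v), fun c hc => ?_,
      fun h => cj_step hχ f u v (h4 h) hd⟩
    have h5 := h3 _ ((bg f u v hd _ hc).2 c rfl)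
    rwa [comp_succ] at h5

end

end Pool.Agent.V7H32.GL
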