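import Pool.Agent.V7H32.GL.MulJ
import Pool.Agent.N101.CB.Loc
import Pool.Agent.W417.MT.Free

/-!
# The class of the jets of a coordinate
-/

set_option autoImplicit false

namespace Pool.Agent.V7H32.GL

open MvPolynomial Pool.Agent.W428.MOT Pool.Agent.W375.MT Pool.Agent.Y229.MS
open Pool.Agent.W375.MG (JetG Good)
open Pool.Agent.Z864.MS (Tm isPF_Tm coeff_Tm coeff_zero_aeval constr_JetE aeval_cmp)
open Pool.Agent.Y366.MS (Sz Sz_chi constr_Sz natAdd01 castAdd_ne)
open Pool.Agent.N101.CB (chi_Tl)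

variable {K : Type} [Field K] {n N : ℕ}

theorem constrWyz {W : Set (Pt K (Fin n))} (hW : Constr W) : Constr (Wyz W) :=
  hW.preimage _ fun i => IsPF.coord _

/-- the coordinates of `u` -/
def Fu (n N : ℕ) : Finset (Fin (n + 2) × Fin (N + 1)) :=
  Finset.univ.image fun j => (Fin.natAdd n 1, j)

theorem mem_Fu (p : Fin (n + 2) × Fin (N + 1)) : p ∈ Fu n N ↔ p.1 = Fin.natAdd n 1 := by
  simp only [Fu, Finset.mem_image, Finset.mem_univ, true_and]
  constructor
  · rintro ⟨j, rfl⟩
    rfl
  · intro h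
    exact ⟨p.2, Prod.ext h.symm rfl⟩

theorem card_Fu : (Fu n N).card = N + 1 := by
  rw [Fu, Finset.card_image_of_injective, Finset.card_univ, Fintype.card_fin]
  intro a b h
  exact (Prod.ext_iff.1 h).2

/-- the jets of the coordinate `y`, described by coordinates -/
theorem mem_lin (V : Set (Pt K (Fin n))) (E : Set (AlgebraicClosure K))
    (w : Pt K (Fin (n + 2) × Fin (N + 1))) :
    w ∈ JetG (X (Fin.natAdd n 0) : MvPolynomial (Fin (n + 2)) K) (Wyz V) E N ↔
      (fun i => w (Fin.castAdd 2 i, 0)) ∈ V ∧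
        (∀ j : Fin (N + 1), (j : ℕ) < N → w (Fin.natAdd n 0, j) = 0) ∧
          w (Fin.natAdd n 0, Fin.last N) ∈ E := by
  have e : ∀ j : Fin (N + 1), PowerSeries.coeff (j : ℕ)
      (aeval (arc w) (X (Fin.natAdd n 0) : MvPolynomial (Fin (n + 2)) K)) =
        w (Fin.natAdd n 0, j) := by
    intro j
    rw [aeval_X, coeff_arc _ _ _ j.2]
  constructor
  · rintro ⟨h1, h2, h3⟩
    refine ⟨h1, fun j hj => ?_, ?_⟩
    · rw [← e]
      exact h2 _ hj
    · rw [← e]
      exact h3
  · rintro ⟨h1, h2, h3⟩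
    refine ⟨h1, fun j hj => ?_, ?_⟩
    · have := h2 ⟨j, by omega⟩ hj
      rw [← e] at this
      exact this
    · have := e (Fin.last N)
      rw [Fin.val_last] at this
      rw [this]
      exact h3

/-- **The class of the jets of a coordinate.** -/
theorem chi_lin {R : Type} [CommRing R] (M : Meas K R) {V : Set (Pt K (Fin n))} (hV : Constr V)
    {E : Set (AlgebraicClosure K)} (hE : CE E) (N : ℕ) :
    M.χ _ (JetG (X (Fin.natAdd n 0) : MvPolynomial (Fin (n + 2)) K) (Wyz V) E N) =
      M.χ (Fin 1) {a | a 0 ∈ E} * (M.χ (Fin n) V * M.L ^ (n * N)) * M.L ^ (N + 1) := by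
  classical
  have hc := constr_JetE (X (Fin.natAdd n 0) : MvPolynomial (Fin (n + 2)) K) (constrWyz hV) hE N
  have h1 := Pool.Agent.W417.MT.Free.free_one (M := M) (Fu n N) (fun _ => (0 : K)) _ hc (by
    intro z w h hz
    rw [mem_lin] at hz ⊢
    obtain ⟨g1, g2, g3⟩ := hz
    refine ⟨?_, ?_, ?_⟩
    · have e : (fun i => w (Fin.castAdd 2 i, 0)) = fun i => z (Fin.castAdd 2 i, 0) := by
        funext i
        exact h _ fun h' => castAdd_ne _ _ ((mem_Fu _).1 h')
      rw [e]
      exact g1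
    · intro j hj
      rw [h _ fun h' => natAdd01 ((mem_Fu _).1 h')]
      exact g2 j hj
    · rw [h _ fun h' => natAdd01 ((mem_Fu _).1 h')]
      exact g3)
  rw [h1, card_Fu]
  congr 1
  have e2 : JetG (X (Fin.natAdd n 0) : MvPolynomial (Fin (n + 2)) K) (Wyz V) E N ∩
      {z | ∀ i ∈ Fu n N, z i = algebraMap K (AlgebraicClosure K) 0} =
      {z | Function.update z (Fin.natAdd n 0, Fin.last N) (algebraMap K _ 0) ∈
          Sz (N := N) (0 : MvPolynomial (Fin n) K) V 0 ∧
        (fun _ => z (Fin.natAdd n 0, Fin.last N)) ∈ ({a | a 0 ∈ E} : Set (Pt K (Fin 1)))} := by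
    ext w
    have hx : (fun i => Function.update w (Fin.natAdd n 0, Fin.last N)
        (algebraMap K (AlgebraicClosure K) 0) (Fin.castAdd 2 i, 0)) =
        fun i => w (Fin.castAdd 2 i, 0) := by
      funext i
      rw [Function.update_of_ne]
      intro h
      exact castAdd_ne _ _ (Prod.ext_iff.1 h).1
    have hz : ∀ j, Function.update w (Fin.natAdd n 0, Fin.last N)
        (algebraMap K (AlgebraicClosure K) 0) (Fin.natAdd n 1, j) = w (Fin.natAdd n 1, j) := by
      intro j
      rw [Function.update_of_ne]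
      intro h
      exact natAdd01 (Prod.ext_iff.1 h).1.symm
    rw [Set.mem_inter_iff, mem_lin]
    simp only [Sz, Set.mem_ofPred_eq, hx, hz]
    constructor
    · rintro ⟨⟨h1, h2, h3⟩, h4⟩
      refine ⟨⟨h1, fun j hj => absurd hj (Nat.not_lt_zero j), fun j => ?_, fun j => ?_⟩, h3⟩
      · by_cases hj : j = Fin.last N
        · rw [hj, Function.update_self, map_zero]
        · rw [Function.update_of_ne (fun h => hj (Prod.ext_iff.1 h).2)]
          refine h2 j ?_
          have h5 := j.2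
          have h6 : (j : ℕ) ≠ N := fun h => hj (Fin.ext h)
          omega
      · rw [h4 _ ((mem_Fu _).2 rfl), map_zero]
    · rintro ⟨⟨h1, -, h2, h3⟩, h4⟩
      refine ⟨⟨h1, fun j hj => ?_, h4⟩, fun p hp => ?_⟩
      · have := h2 j
        rwa [Function.update_of_ne] at this
        intro h
        have h5 := congrArg Fin.val (Prod.ext_iff.1 h).2
        simp only [Fin.val_last] at h5
        omega
      · obtain ⟨i, j⟩ := p
        have h5 := (mem_Fu _).1 hp
        simp only at h5
        rw [h5, map_zero]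
        exact h3 j
  rw [e2, Pool.Agent.W417.MT.Free.coord M (Sz (N := N) (0 : MvPolynomial (Fin n) K) V 0) _ 0
    {a | a 0 ∈ E} (constr_Sz 0 hV 0) (hE _ (IsPF.coord _))
    (fun z hz => by rw [map_zero]; exact hz.2.2.1 _), Sz_chi M 0 hV 0, chi_Tl M 0 hV N]
  ring

end Pool.Agent.V7H32.GL
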