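import Pool.Agent.Z864.MS.Three

/-!
# Jets: multiplication of a coordinate by a unit

Let `τ` be the substitution `x_{i₀} ↦ c x_{i₀} + d`, where `c` and `d` do not involve `x_{i₀}`. The
`N`-jets of `τ F` at the origins with `c ≠ 0` are isomorphic to the `N`-jets of `F`.
-/

set_option autoImplicit false

namespace Pool.Agent.V7H32.GL

open MvPolynomial Pool.Agent.W428.MOT Pool.Agent.W375.MT Pool.Agent.Y229.MS
open Pool.Agent.W375.MG (JetG Good)
open Pool.Agent.Z864.MS (Tm isPF_Tm coeff_Tm coeff_zero_aeval constr_JetE aeval_cmp)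

section
variable {K : Type} [Field K] {ι : Type} {S : Set (Pt K ι)}

theorem IsRF.sum' {α : Type} (s : Finset α) (F : α → Pt K ι → AlgebraicClosure K)
    (hF : ∀ a ∈ s, IsRF S (F a)) : IsRF S (fun z => ∑ a ∈ s, F a z) := by
  classical
  induction s using Finset.induction_on with
  | empty =>
    simp only [Finset.sum_empty]
    exact IsPF.zero.isRF S
  | insert a s ha ih =>
    simp only [Finset.sum_insert ha]
    exact (hF a (Finset.mem_insert_self _ _)).add
      (ih fun b hb => hF b (Finset.mem_insert_of_mem hb))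

/-- the coefficients are quotients of polynomials on `S` -/
def IsRA (S : Set (Pt K ι)) (γ : Pt K ι → PowerSeries (AlgebraicClosure K)) : Prop :=
  ∀ j, IsRF S (fun z => PowerSeries.coeff j (γ z))

theorem IsRA.of_PA {γ : Pt K ι → PowerSeries (AlgebraicClosure K)} (h : IsPA γ) : IsRA S γ :=
  fun j => (h j).isRF S

theorem IsRA.mul {γ δ : Pt K ι → PowerSeries (AlgebraicClosure K)} (h : IsRA S γ)
    (h' : IsRA S δ) : IsRA S (fun z => γ z * δ z) := by
  intro j
  simp only [PowerSeries.coeff_mul]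
  exact IsRF.sum' _ _ fun p _ => (h p.1).mul (h' p.2)

theorem IsRA.sub {γ δ : Pt K ι → PowerSeries (AlgebraicClosure K)} (h : IsRA S γ)
    (h' : IsRA S δ) : IsRA S (fun z => γ z - δ z) := by
  intro j
  simp only [map_sub]
  exact (h j).sub (h' j)

theorem IsRA.inv {γ : Pt K ι → PowerSeries (AlgebraicClosure K)} (h : IsRA S γ)
    (h0 : ∀ z ∈ S, PowerSeries.coeff 0 (γ z) ≠ 0) : IsRA S (fun z => (γ z)⁻¹) := by
  have hi : IsRF S (fun z => (PowerSeries.constantCoeff (γ z))⁻¹) := by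
    have h1 := (IsPF.one.isRF S).div (h 0) h0
    refine h1.congr fun z _ => ?_
    rw [PowerSeries.coeff_zero_eq_constantCoeff_apply, one_div]
  intro j
  induction j using Nat.strong_induction_on with
  | _ j ih =>
    by_cases hj : j = 0
    · subst hj
      refine hi.congr fun z _ => ?_
      rw [PowerSeries.coeff_inv, if_pos rfl]
    · have h2 : IsRF S (fun z => (0 - (PowerSeries.constantCoeff (γ z))⁻¹) *
          ∑ x ∈ Finset.HasAntidiagonal.antidiagonal j, if x.2 < j then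
            PowerSeries.coeff x.1 (γ z) * PowerSeries.coeff x.2 (γ z)⁻¹ else 0) := by
        refine ((IsPF.zero.isRF S).sub hi).mul (IsRF.sum' _ _ fun x _ => ?_)
        by_cases hx : x.2 < j
        · simp only [if_pos hx]
          exact (h x.1).mul (ih x.2 hx)
        · simp only [if_neg hx]
          exact IsPF.zero.isRF S
      refine h2.congr fun z _ => ?_
      rw [PowerSeries.coeff_inv, if_neg hj, zero_sub]

end

/-- congruence of products -/
theorem coeff_mul_congr {A : Type} [CommRing A] (N : ℕ) (P Q Q' : PowerSeries A)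
    (h : ∀ k ≤ N, PowerSeries.coeff k Q = PowerSeries.coeff k Q') :
    ∀ k ≤ N, PowerSeries.coeff k (P * Q) = PowerSeries.coeff k (P * Q') := by
  intro k hk
  rw [PowerSeries.coeff_mul, PowerSeries.coeff_mul]
  refine Finset.sum_congr rfl fun p hp => ?_
  have := Finset.HasAntidiagonal.mem_antidiagonal.1 hp
  rw [h p.2 (by omega)]

section
variable {K : Type} [Field K] {a N : ℕ}

theorem arc_congr' (w w' : Pt K (Fin a × Fin (N + 1))) (i : Fin a)
    (h : ∀ j, w (i, j) = w' (i, j)) : arc w i = arc w' i := by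
  ext j
  simp only [arc, PowerSeries.coeff_mk, h]

/-- the inverse map -/
noncomputable def Sm (i₀ : Fin a) (c d : MvPolynomial (Fin a) K) (N : ℕ)
    (w : Pt K (Fin a × Fin (N + 1))) : Pt K (Fin a × Fin (N + 1)) := fun p =>
  if p.1 = i₀ then PowerSeries.coeff (p.2 : ℕ)
    ((aeval (arc w) c)⁻¹ * (arc w i₀ - aeval (arc w) d)) else w p

variable {i₀ : Fin a} {c d : MvPolynomial (Fin a) K}
  {τ : MvPolynomial (Fin a) K →ₐ[K] MvPolynomial (Fin a) K}

theorem Tm_off (hτ : ∀ i, i ≠ i₀ → τ (X i) = X i) (w : Pt K (Fin a × Fin (N + 1))) (i : Fin a)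
    (hi : i ≠ i₀) (j : Fin (N + 1)) : Tm τ N w (i, j) = w (i, j) := by
  show PowerSeries.coeff (j : ℕ) (aeval (arc w) (τ (X i))) = _
  rw [hτ i hi, aeval_X, coeff_arc _ _ _ j.2]

theorem Sm_off (w : Pt K (Fin a × Fin (N + 1))) (i : Fin a)
    (hi : i ≠ i₀) (j : Fin (N + 1)) : Sm i₀ c d N w (i, j) = w (i, j) := if_neg hi

theorem arc_Tm_off (hτ : ∀ i, i ≠ i₀ → τ (X i) = X i) (w : Pt K (Fin a × Fin (N + 1)))
    (i : Fin a) (hi : i ≠ i₀) : arc (Tm τ N w) i = arc w i :=
  arc_congr' _ _ _ fun j => Tm_off hτ w i hi j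

theorem arc_Sm_off (w : Pt K (Fin a × Fin (N + 1)))
    (i : Fin a) (hi : i ≠ i₀) : arc (Sm i₀ c d N w) i = arc w i :=
  arc_congr' _ _ _ fun j => Sm_off w i hi j

/-- `p` does not involve the variable `x_{i₀}` -/
def Indep (i₀ : Fin a) (p : MvPolynomial (Fin a) K) : Prop :=
  ∀ γ γ' : Fin a → PowerSeries (AlgebraicClosure K), (∀ i, i ≠ i₀ → γ i = γ' i) →
    aeval γ p = aeval γ' p

theorem inv_mul_self {φ : PowerSeries (AlgebraicClosure K)} (h : PowerSeries.coeff 0 φ ≠ 0) :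
    φ⁻¹ * φ = 1 := by
  rw [PowerSeries.coeff_zero_eq_constantCoeff_apply] at h
  exact PowerSeries.inv_mul_cancel φ h

theorem Sm_Tm (hτ : ∀ i, i ≠ i₀ → τ (X i) = X i) (hτ0 : τ (X i₀) = c * X i₀ + d)
    (hc : Indep i₀ c) (hd : Indep i₀ d) (w : Pt K (Fin a × Fin (N + 1)))
    (h0 : PowerSeries.coeff 0 (aeval (arc w) c) ≠ 0) : Sm i₀ c d N (Tm τ N w) = w := by
  funext p
  obtain ⟨i, j⟩ := p
  by_cases hi : i = i₀
  · subst hi
    have h1 : aeval (arc (Tm τ N w)) c = aeval (arc w) c :=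
      hc _ _ fun k hk => arc_Tm_off hτ w k hk
    have h2 : aeval (arc (Tm τ N w)) d = aeval (arc w) d :=
      hd _ _ fun k hk => arc_Tm_off hτ w k hk
    show (if i = i then PowerSeries.coeff (j : ℕ) ((aeval (arc (Tm τ N w)) c)⁻¹ *
      (arc (Tm τ N w) i - aeval (arc (Tm τ N w)) d)) else _) = _
    rw [if_pos rfl, h1, h2]
    have h3 : ∀ k ≤ N, PowerSeries.coeff k (arc (Tm τ N w) i - aeval (arc w) d) =
        PowerSeries.coeff k (aeval (arc w) c * arc w i) := by
      intro k hk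
      rw [map_sub, coeff_arc _ _ _ (by omega)]
      show PowerSeries.coeff k (aeval (arc w) (τ (X i))) - _ = _
      rw [hτ0, map_add, map_mul, aeval_X, map_add, add_sub_cancel_right]
    rw [coeff_mul_congr N _ _ _ h3 _ (by omega), ← mul_assoc, inv_mul_self h0, one_mul,
      coeff_arc _ _ _ j.2]
  · rw [Sm_off _ _ hi, Tm_off hτ w i hi]

theorem Tm_Sm (hτ : ∀ i, i ≠ i₀ → τ (X i) = X i) (hτ0 : τ (X i₀) = c * X i₀ + d)
    (hc : Indep i₀ c) (hd : Indep i₀ d) (w : Pt K (Fin a × Fin (N + 1)))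
    (h0 : PowerSeries.coeff 0 (aeval (arc w) c) ≠ 0) : Tm τ N (Sm i₀ c d N w) = w := by
  funext p
  obtain ⟨i, j⟩ := p
  by_cases hi : i = i₀
  · subst hi
    have h1 : aeval (arc (Sm i c d N w)) c = aeval (arc w) c :=
      hc _ _ fun k hk => arc_Sm_off w k hk
    have h2 : aeval (arc (Sm i c d N w)) d = aeval (arc w) d :=
      hd _ _ fun k hk => arc_Sm_off w k hk
    show PowerSeries.coeff (j : ℕ) (aeval (arc (Sm i c d N w)) (τ (X i))) = _
    rw [hτ0, map_add, map_mul, aeval_X, h1, h2, map_add]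
    have h3 : ∀ k ≤ N, PowerSeries.coeff k (arc (Sm i c d N w) i) =
        PowerSeries.coeff k ((aeval (arc w) c)⁻¹ * (arc w i - aeval (arc w) d)) := by
      intro k hk
      rw [coeff_arc _ _ _ (by omega)]
      show (if i = i then _ else _) = _
      rw [if_pos rfl]
    rw [coeff_mul_congr N _ _ _ h3 _ (by omega), ← mul_assoc, mul_comm (aeval (arc w) c),
      inv_mul_self h0, one_mul, map_sub, sub_add_cancel, coeff_arc _ _ _ j.2]
  · rw [Tm_off hτ _ i hi, Sm_off _ _ hi]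

/-- **Classes of jets: multiplication of a coordinate by a unit.** -/
theorem mulJ {R : Type} [CommRing R] (M : Meas K R)
    (hτ : ∀ i, i ≠ i₀ → τ (X i) = X i) (hτ0 : τ (X i₀) = c * X i₀ + d)
    (hc : Indep i₀ c) (hd : Indep i₀ d) (F : MvPolynomial (Fin a) K) {W : Set (Pt K (Fin a))}
    {E : Set (AlgebraicClosure K)} (hW : Constr W) (hE : CE E)
    (hc0 : ∀ w ∈ W, aeval w c ≠ 0) (N : ℕ) :
    M.χ _ (JetG (τ F) {w | aeval w c ≠ 0 ∧ (fun i => aeval w (τ (X i))) ∈ W} E N) =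
      M.χ _ (JetG F W E N) := by
  have hW' : Constr {w : Pt K (Fin a) | aeval w c ≠ 0 ∧ (fun i => aeval w (τ (X i))) ∈ W} :=
    Constr.and (Constr.eqz (IsPF.poly c)).not (hW.preimage _ fun i => IsPF.poly _)
  have hcS : ∀ w : Pt K (Fin a × Fin (N + 1)), w ∈ JetG F W E N →
      PowerSeries.coeff 0 (aeval (arc w) c) ≠ 0 := by
    rintro w ⟨h1, -, -⟩
    rw [coeff_zero_aeval]
    exact hc0 _ h1
  refine M.iso _ _ (constr_JetE _ hW' hE N) (constr_JetE F hW hE N) (Tm τ N) (Sm i₀ c d N)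
    (regularOn_poly (fun p => isPF_Tm _ p) _) ?_ ?_ ?_ ?_ ?_
  · intro p
    obtain ⟨i, j⟩ := p
    by_cases hi : i = i₀
    · have h1 : IsRA (JetG F W E N) (fun w : Pt K (Fin a × Fin (N + 1)) =>
          (aeval (arc w) c)⁻¹ * (arc w i₀ - aeval (arc w) d)) :=
        ((IsRA.of_PA (IsPA.aeval (fun i z => arc z i) (fun i => isPA_arc i) c)).inv hcS).mul
          ((IsRA.of_PA (isPA_arc i₀)).sub
            (IsRA.of_PA (IsPA.aeval (fun i z => arc z i) (fun i => isPA_arc i) d)))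
      refine (h1 j).congr fun w _ => ?_
      show (if i = i₀ then _ else _) = _
      rw [if_pos hi]
    · refine IsRF.congr ((IsPF.coord (i, j)).isRF _) fun w _ => ?_
      exact Sm_off w i hi j
  · rintro z ⟨⟨-, g1⟩, g2, g3⟩
    refine ⟨?_, fun j hj => ?_, ?_⟩
    · have e : (fun i => Tm τ N z (i, 0)) = fun i => aeval (fun i => z (i, 0)) (τ (X i)) := by
        funext i
        exact coeff_zero_aeval z (τ (X i))
      rw [e]
      exact g1
    · rw [coeff_Tm _ _ _ _ hj.le]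
      exact g2 j hj
    · rw [coeff_Tm _ _ _ _ le_rfl]
      exact g3
  · intro w hw
    have h0 := hcS w hw
    have h1 := Tm_Sm hτ hτ0 hc hd w h0
    obtain ⟨g1, g2, g3⟩ := hw
    refine ⟨⟨?_, ?_⟩, fun j hj => ?_, ?_⟩
    · rw [← coeff_zero_aeval, hc _ _ fun k hk => arc_Sm_off w k hk]
      exact h0
    · have e : (fun i => aeval (fun i => Sm i₀ c d N w (i, 0)) (τ (X i))) =
          fun i => w (i, 0) := by
        funext i
        rw [← coeff_zero_aeval]
        exact congrFun h1 (i, 0)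
      rw [e]
      exact g1
    · rw [← coeff_Tm τ (Sm i₀ c d N w) F j hj.le, h1]
      exact g2 j hj
    · rw [← coeff_Tm τ (Sm i₀ c d N w) F N le_rfl, h1]
      exact g3
  · rintro z ⟨⟨g0, -⟩, -, -⟩
    refine Sm_Tm hτ hτ0 hc hd z ?_
    rw [coeff_zero_aeval]
    exact g0
  · intro w hw
    exact Tm_Sm hτ hτ0 hc hd w (hcS w hw)

end

end Pool.Agent.V7H32.GL
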