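import Pool.Agent.V7H32.GL.PStepB

/-!
# The step `f + (t + v) (w - u)` at points
-/

set_option autoImplicit false

namespace Pool.Agent.V7H32.GL

open MvPolynomial Pool.Agent.W428.MOT
open Pool.Agent.N101.CB
open Pool.Agent.N101.CB.BGl
open Pool.Agent.H628R4.TP (IsBFunction weylS)
open Pool.Agent.W375.MG (JetG)
open Pool.Agent.Y229.MS (Wyz addyz CE rescale_X' rescale_C')

/-! ### zeta functions -/

section
variable {n : ℕ}

theorem indep_C (i : Fin n) (c : ℂ) : Indep i (C c : MvPolynomial (Fin n) ℂ) := by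
  intro γ γ' _
  rw [aeval_C, aeval_C]

theorem pt_cmp {m : ℕ} (w : Pt ℂ (Fin m)) (τ : MvPolynomial (Fin n) ℂ →ₐ[ℂ] MvPolynomial (Fin m) ℂ)
    (p : MvPolynomial (Fin n) ℂ) :
    aeval (fun i => aeval w (τ (X i))) p = aeval w (τ p) := by
  have h : aeval (fun i => aeval w (τ (X i))) =
      ((aeval w : MvPolynomial (Fin m) ℂ →ₐ[ℂ] AlgebraicClosure ℂ).comp τ) := by
    apply MvPolynomial.algHom_ext
    intro i
    rw [aeval_X]
    rfl
  exact DFunLike.congr_fun h p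

/-- one substitution -/
theorem zt_one {τ : MvPolynomial (Fin n) ℂ →ₐ[ℂ] MvPolynomial (Fin n) ℂ} {i₀ : Fin n}
    {c d : MvPolynomial (Fin n) ℂ} (hτ : ∀ i, i ≠ i₀ → τ (X i) = X i)
    (hτ0 : τ (X i₀) = c * X i₀ + d) (hc : Indep i₀ c) (hd : Indep i₀ d)
    (F : MvPolynomial (Fin n) ℂ) {W : Set (Pt ℂ (Fin n))} (hW : Constr W)
    (hc0 : ∀ w ∈ W, aeval w c ≠ 0) :
    zt (τ F) {w | aeval w c ≠ 0 ∧ (fun i => aeval w (τ (X i))) ∈ W} = zt F W := by
  obtain ⟨M, hM⟩ := clM_meas ℂ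
  ext N
  rw [zt, zt, PowerSeries.coeff_mk, PowerSeries.coeff_mk, ← hM, ← hM,
    mulJ M hτ hτ0 hc hd F hW ce_Un hc0 N]

theorem sub2_one_t (v : MvPolynomial (Fin n) ℂ) : ∀ i : Fin (n + 2), i ≠ Fin.natAdd n 0 →
    sub2 0 v (X i) = X i := by
  intro i
  refine Fin.addCases (fun i _ => sub2_x 0 v i) (fun j => ?_) i
  intro h
  rcases fin2 j with rfl | rfl
  · exact absurd rfl h
  · rw [sub2_w, map_zero, sub_zero]

theorem sub2_one_w (u : MvPolynomial (Fin n) ℂ) : ∀ i : Fin (n + 2), i ≠ Fin.natAdd n 1 →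
    sub2 u 0 (X i) = X i := by
  intro i
  refine Fin.addCases (fun i _ => sub2_x u 0 i) (fun j => ?_) i
  intro h
  rcases fin2 j with rfl | rfl
  · rw [sub2_t, map_zero, add_zero]
  · exact absurd rfl h

theorem sub2_two (u v : MvPolynomial (Fin n) ℂ) (p : MvPolynomial (Fin (n + 2)) ℂ) :
    sub2 0 v (sub2 u 0 p) = sub2 u v p := by
  have h : (sub2 0 v).comp (sub2 u 0) = sub2 u v := by
    apply MvPolynomial.algHom_ext
    refine Fin.addCases (fun i => ?_) (fun i => ?_)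
    · rw [AlgHom.comp_apply, sub2_x, sub2_x, sub2_x]
    · fin_cases i
      · show sub2 0 v (sub2 u 0 (X (Fin.natAdd n 0))) = sub2 u v (X (Fin.natAdd n 0))
        rw [sub2_t, sub2_t, map_add, sub2_t, map_zero, map_zero, add_zero]
      · show sub2 0 v (sub2 u 0 (X (Fin.natAdd n 1))) = sub2 u v (X (Fin.natAdd n 1))
        rw [sub2_w, sub2_w, map_sub, sub2_w, sub2_rename, map_zero, sub_zero]
  exact DFunLike.congr_fun h p

/-- **The substitution `t ↦ t + v`, `w ↦ w - u`.** -/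
theorem zt_sub2 (u v : MvPolynomial (Fin n) ℂ) (F : MvPolynomial (Fin (n + 2)) ℂ)
    {W : Set (Pt ℂ (Fin (n + 2)))} (hW : Constr W) :
    zt (sub2 u v F) {w | (fun i => aeval w (sub2 u v (X i))) ∈ W} = zt F W := by
  have h1 := zt_one (τ := sub2 u 0) (c := 1) (d := - rename (Fin.castAdd 2) u) (sub2_one_w u)
    (by rw [sub2_w]; ring) (by rw [← C_1]; exact indep_C _ 1) (by
      rw [← map_neg]
      exact indep_rn (-u) 1) F hW (fun w _ => by rw [map_one]; exact one_ne_zero)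
  have hW1 : Constr {w : Pt ℂ (Fin (n + 2)) | aeval w (1 : MvPolynomial (Fin (n + 2)) ℂ) ≠ 0 ∧
      (fun i => aeval w (sub2 u 0 (X i))) ∈ W} :=
    Constr.and (Constr.eqz (IsPF.poly 1)).not (hW.preimage _ fun i => IsPF.poly _)
  have h2 := zt_one (τ := sub2 0 v) (c := 1) (d := rename (Fin.castAdd 2) v) (sub2_one_t v)
    (by rw [sub2_t]; ring) (by rw [← C_1]; exact indep_C _ 1) (indep_rn v 0) (sub2 u 0 F) hW1
    (fun w _ => by rw [map_one]; exact one_ne_zero)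
  rw [sub2_two, h1] at h2
  have hset : {w : Pt ℂ (Fin (n + 2)) | aeval w (1 : MvPolynomial (Fin (n + 2)) ℂ) ≠ 0 ∧
      (fun i => aeval w (sub2 0 v (X i))) ∈ {w : Pt ℂ (Fin (n + 2)) |
        aeval w (1 : MvPolynomial (Fin (n + 2)) ℂ) ≠ 0 ∧
          (fun i => aeval w (sub2 u 0 (X i))) ∈ W}} =
      {w | (fun i => aeval w (sub2 u v (X i))) ∈ W} := by
    ext w
    have e : (fun i => aeval (fun i => aeval w (sub2 0 v (X i))) (sub2 u 0 (X i))) =
        fun i => aeval w (sub2 u v (X i)) := by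
      funext i
      rw [pt_cmp, sub2_two]
    constructor
    · rintro ⟨-, -, h3⟩
      rw [e] at h3
      exact h3
    · intro h3
      refine ⟨by rw [map_one]; exact one_ne_zero, by rw [map_one]; exact one_ne_zero, ?_⟩
      rw [e]
      exact h3
  rw [hset] at h2
  exact h2

/-- the point over `a` -/
noncomputable def ptS (a : Fin n → ℂ) (u v : MvPolynomial (Fin n) ℂ) : Fin (n + 2) → ℂ :=
  Fin.addCases a ![-eval a v, eval a u]

theorem px_ptS (a : Fin n → ℂ) (u v : MvPolynomial (Fin n) ℂ) : px (ptS a u v) = a := by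
  funext i
  show ptS a u v (Fin.castAdd 2 i) = a i
  unfold ptS
  rw [Fin.addCases_left]

theorem ptS_t (a : Fin n → ℂ) (u v : MvPolynomial (Fin n) ℂ) :
    ptS a u v (Fin.natAdd n 0) = -eval a v := by
  unfold ptS
  rw [Fin.addCases_right]
  rfl

theorem ptS_w (a : Fin n → ℂ) (u v : MvPolynomial (Fin n) ℂ) :
    ptS a u v (Fin.natAdd n 1) = eval a u := by
  unfold ptS
  rw [Fin.addCases_right]
  rfl

theorem eval_ptS_stp (a : Fin n → ℂ) (f u v : MvPolynomial (Fin n) ℂ) :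
    eval (ptS a u v) (stp f u v) = eval a f := by
  unfold stp
  rw [map_add, map_mul, map_add, map_sub, eval_rn, eval_rn, eval_rn, eval_X, eval_X, px_ptS,
    ptS_t, ptS_w]
  ring

theorem pt_inj {a a' : Fin n → ℂ} (h : pt a = pt a') : a = a' := by
  funext i
  exact (algebraMap ℂ (AlgebraicClosure ℂ)).injective (congrFun h i)

theorem constr_Wo {W : Set (Pt ℂ (Fin n))} (hW : Constr W) : Constr (Wo W) := by
  unfold Wo
  exact Constr.and (hW.preimage _ fun i => IsPF.coord _)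
    (Constr.and (Constr.eqz (IsPF.coord _)) (Constr.eqz (IsPF.coord _)))

/-- **The local zeta function of `f + (t + v) (w - u)`.** -/
theorem zt_pt_stp (a : Fin n → ℂ) (f u v : MvPolynomial (Fin n) ℂ) (ha : eval a f = 0) :
    zt (stp f u v) {pt (ptS a u v)} = PowerSeries.C (clM ({pt a} : Set (Pt ℂ (Fin n)))) *
      Fz ℂ 1 1 ^ 2 + (1 - Fz ℂ 1 1) * (cL ℂ + Fz ℂ 1 1) *
        PowerSeries.rescale (((Lu ℂ)⁻¹ : (MK ℂ)ˣ) : MK ℂ) (zt f {pt a}) := by
  have h1 := zt_sub2 u v (addyz f) (constr_Wo (constr_pt a))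
  have h2 : sub2 u v (addyz f) = stp f u v := sub2E_stab f u v
  have h3 : {w : Pt ℂ (Fin (n + 2)) | (fun i => aeval w (sub2 u v (X i))) ∈ Wo {pt a}} =
      {pt (ptS a u v)} := by
    ext w
    obtain ⟨z, rfl⟩ := pt_surj w
    have e1 : ∀ i : Fin n, aeval (pt z) (sub2 u v (X (Fin.castAdd 2 i))) =
        algebraMap ℂ (AlgebraicClosure ℂ) (z (Fin.castAdd 2 i)) := by
      intro i
      rw [sub2_x, aeval_pt, eval_X]
    have e2 : aeval (pt z) (sub2 u v (X (Fin.natAdd n 0))) =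
        algebraMap ℂ (AlgebraicClosure ℂ) (z (Fin.natAdd n 0) + eval (px z) v) := by
      rw [sub2_t, aeval_pt, map_add, eval_X, eval_rn]
    have e3 : aeval (pt z) (sub2 u v (X (Fin.natAdd n 1))) =
        algebraMap ℂ (AlgebraicClosure ℂ) (z (Fin.natAdd n 1) - eval (px z) u) := by
      rw [sub2_w, aeval_pt, map_sub, eval_X, eval_rn]
    simp only [Wo, Set.mem_ofPred_eq, Set.mem_singleton_iff]
    constructor
    · rintro ⟨g1, g2, g3⟩
      have g4 : px z = a := by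
        refine pt_inj (funext fun i => ?_)
        have := congrFun g1 i
        rw [e1] at this
        exact this
      rw [e2, map_eq_zero, g4] at g2
      rw [e3, map_eq_zero, g4] at g3
      congr 1
      refine ext2 (by rw [px_ptS, g4]) ?_ ?_
      · rw [ptS_t]
        linear_combination g2
      · rw [ptS_w]
        linear_combination g3
    · intro g1
      have g2 := pt_inj g1
      have g3 : px z = a := by rw [g2, px_ptS]
      refine ⟨?_, ?_, ?_⟩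
      · funext i
        rw [e1]
        exact congrArg (algebraMap ℂ (AlgebraicClosure ℂ)) (congrFun g3 i)
      · rw [e2, g3, g2, ptS_t, neg_add_cancel, map_zero]
      · rw [e3, g3, g2, ptS_w, sub_self, map_zero]
  rw [h2, h3] at h1
  rw [h1, idl_of idd loc ℂ f _ (constr_pt a)]
  intro z hz
  rw [Set.mem_singleton_iff.1 hz, aeval_pt, ha, map_zero]

variable {χ : MK ℂ →+* ℂ} {o : Bool}

theorem descendL (hχ : χ ((Lu ℂ : (MK ℂ)ˣ) : MK ℂ) = 1) {Zf Zg : PowerSeries (MK ℂ)}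
    (w : MK ℂ) (h : Zg = PowerSeries.C w * Fz ℂ 1 1 ^ 2 +
      (1 - Fz ℂ 1 1) * (cL ℂ + Fz ℂ 1 1) *
        PowerSeries.rescale (((Lu ℂ)⁻¹ : (MK ℂ)ˣ) : MK ℂ) Zf) {Rg : RatFunc ℂ}
    (hg : IsTopZ χ Zg Rg) : IsTopZ χ Zf (Dn (χ w) 0 Rg) := by
  have h1 := solve h rfl
  have hF : PowerSeries.rescale ((Lu ℂ : (MK ℂ)ˣ) : MK ℂ) (Fz ℂ 1 1) = FZ (0, 0) := by
    have h2 := resc_FZ (0, 1)
    have h3 : FZ (0, 1) = Fz ℂ 1 1 := FZ_Fz 0 1
    rw [h3] at h2
    rw [h2]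
    norm_num
  have hr : PowerSeries.rescale ((Lu ℂ : (MK ℂ)ˣ) : MK ℂ) ((1 - cY ℂ * PowerSeries.X) ^ 2 *
      (PowerSeries.C w * Fz ℂ 1 1 ^ 2)) =
      (1 - PowerSeries.X) ^ 2 * (PowerSeries.C w * (FZ (0, 0) * FZ (0, 0))) := by
    have r5 : PowerSeries.rescale ((Lu ℂ : (MK ℂ)ˣ) : MK ℂ) (cY ℂ) = cY ℂ := by
      rw [cY, rescale_C']
    have r6 : cY ℂ * (PowerSeries.C ((Lu ℂ : (MK ℂ)ˣ) : MK ℂ) * PowerSeries.X) =
        PowerSeries.X := by
      have hL := cL_cY (K := ℂ)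
      change cY ℂ * (cL ℂ * PowerSeries.X) = _
      linear_combination PowerSeries.X * hL
    rw [map_mul, map_pow, map_sub, map_one, map_mul, r5, rescale_X', r6, map_mul, map_pow, hF,
      rescale_C']
    ring
  rw [hr] at h1
  have h2 : Zf = cY ℂ * ((1 + cY ℂ * FZ (0, -1)) * (1 - FZ (0, 1)) *
      (PowerSeries.rescale ((Lu ℂ : (MK ℂ)ˣ) : MK ℂ) Zg -
        (PowerSeries.C w * (FZ (0, 0) * FZ (0, 0))))) := by
    rw [← geo11, ← geo_m11, h1]
    ring
  rw [h2]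
  have c1 : IsTopZ χ (1 + cY ℂ * FZ (0, -1)) (1 + ftZ (0, -1)) := by
    have := topZ_add (topZ_one χ) (topZ_mul (topZ_cY hχ) (topZ_F χ (0, -1)))
    rwa [one_mul] at this
  have c2 : IsTopZ χ (1 - FZ (0, 1)) (1 - ftZ (0, 1)) :=
    topZ_sub (topZ_one χ) (topZ_F χ (0, 1))
  have c3 := topZ_F χ (0, 0)
  have c4 := topZ_mul (topZ_cY hχ) (topZ_mul (topZ_mul c1 c2) (topZ_sub (topZ_rescale hg)
    (topZ_mul (topZ_C χ w) (topZ_mul c3 c3))))
  rw [one_mul] at c4
  unfold Dn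
  rw [Polynomial.C_0, map_zero, zero_mul, add_zero]
  exact c4

/-- **One step of the reduction at points.** -/
theorem cj_stepP (hχ : χ ((Lu ℂ : (MK ℂ)ˣ) : MK ℂ) = 1) (f u v g : MvPolynomial (Fin n) ℂ)
    (hf : f ≠ 0) (a : Fin n → ℂ) (ha : eval a f = 0) (hga : eval a g ≠ 0)
    (hG : ∀ b : Polynomial ℂ, IsBOn (rename (Fin.castAdd 2) g) (stp f u v) b →
      Cj χ o (stp f u v) {pt (ptS a u v)} b)
    (b : Polynomial ℂ) (hb : IsBOn g f b) : Cj χ o f {pt a} b := by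
  obtain ⟨l, hl⟩ := isBOn_WW hb
  obtain ⟨⟨Q, hQ⟩, h2⟩ := reducedG hf hl
  have h1 : b.eval (-1) = 0 := by
    have h3 := congrArg (eval a) hQ
    rw [map_mul, map_mul, ha, zero_mul, eval_C, map_pow] at h3
    exact (mul_eq_zero.1 h3).resolve_right (pow_ne_zero l hga)
  obtain ⟨c, hc⟩ := Polynomial.dvd_iff_isRoot.2 (show b.IsRoot (-1) from h1)
  rw [Polynomial.C_neg, Polynomial.C_1, sub_neg_eq_add] at hc
  rw [hc] at hb
  obtain ⟨R, hR, h3⟩ := hG _ (isBOn_stp hf hb u v)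
  refine ⟨_, descendL hχ _ (zt_pt_stp a f u v ha) hR, fun q hq => ?_⟩
  rw [hc]
  exact PR.down _ _ c hq (h3 (q - 1) (by linarith))

end

end Pool.Agent.V7H32.GL
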