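import Pool.Agent.V7H32.GL.Eqv
import Pool.Agent.N101.CB.Idl

/-!
# Functional equations of `f + (t + v) (w - u)` on open sets
-/

set_option autoImplicit false

namespace Pool.Agent.V7H32.GL

open MvPolynomial Pool.Agent.W428.MOT
open Pool.Agent.N101.CB
open Pool.Agent.N101.CB.BGl
open Pool.Agent.H628R4.TP (IsBFunction weylS)
open Pool.Agent.W375.MG (JetG)
open Pool.Agent.Y229.MS (Wyz addyz CE rescale_X' rescale_C')

/-! ### functional equations -/

section
variable {n : ℕ} {f g : MvPolynomial (Fin n) ℂ} {b : Polynomial ℂ}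

theorem isBOn_of_WW {k : ℕ} (h : WW (B1 f) (fun s => b.eval (s : ℂ) • (g ^ k * f ^ s))) :
    IsBOn g f b := by
  obtain ⟨L, hL⟩ := h.toList
  suffices H : ∃ P : ℕ →₀ weylS (Fin n), ∀ s : ℕ, (L.map fun x => ((s : ℂ) ^ x.2.1) •
      (x.2.2 : Module.End ℂ (MvPolynomial (Fin n) ℂ)) (B1 f x.1 s)).sum =
      P.sum fun m Q => ((s : ℂ) ^ m) •
        (Q : Module.End ℂ (MvPolynomial (Fin n) ℂ)) (f ^ (s + 1)) by
    obtain ⟨P, hP⟩ := H
    exact ⟨k, P, fun s => by rw [← MvPolynomial.smul_eq_C_mul, hL, hP]⟩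
  clear hL
  induction L with
  | nil => exact ⟨0, fun s => by simp⟩
  | cons x L ih =>
    obtain ⟨P, hP⟩ := ih
    refine ⟨Finsupp.single x.2.1 x.2.2 + P, fun s => ?_⟩
    rw [List.map_cons, List.sum_cons, hP, Finsupp.sum_add_index' (by simp) (by
      intro m Q Q'
      simp), Finsupp.sum_single_index (by simp)]
    rfl

/-- transport by an automorphism -/
theorem WW_cj (φ : MvPolynomial (Fin n) ℂ ≃ₐ[ℂ] MvPolynomial (Fin n) ℂ)
    {F : ℕ → MvPolynomial (Fin n) ℂ} (h : WW (B1 f) F) : WW (B1 (φ f)) (fun s => φ (F s)) := by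
  induction h with
  | base i =>
    have h1 := WW.base (B := B1 (φ f)) ()
    convert h1 using 2 with s
    show φ (f ^ (s + 1)) = φ f ^ (s + 1)
    rw [map_pow]
  | zero =>
    convert WW.zero using 2 with s
    exact map_zero φ
  | add _ _ h1 h2 =>
    convert h1.add h2 using 2 with s
    rw [map_add]
  | op Q hQ _ h1 =>
    convert WW.op _ (BGl.cj_all φ Q hQ) h1 using 2 with s
    rw [Pool.Agent.W578.SI.cj_apply]
  | smulS _ h1 =>
    convert h1.smulS using 2 with s
    rw [map_smul]

theorem unred {F : ℕ → MvPolynomial (Fin n) ℂ} (hF : WW (B2 f) F) :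
    WW (B1 f) (fun s => ((s : ℂ) + 1) • F s) := by
  induction hF with
  | base i =>
    cases i with
    | none =>
      have h2 := (WW.base (B := B1 f) ()).smulS.add (WW.base (B := B1 f) ())
      convert h2 using 2 with s
      rw [add_smul, one_smul]
      rfl
    | some i =>
      have h2 := (WW.base (B := B1 f) ()).op _ (pl_mem i)
      convert h2 using 2 with s
      show ((s : ℂ) + 1) • (pderiv i f * f ^ s) = pderiv i (f ^ (s + 1))
      rw [Derivation.leibniz_pow, Nat.add_sub_cancel, smul_eq_mul, mul_comm (f ^ s),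
        ← Nat.cast_smul_eq_nsmul ℂ]
      push_cast
      rfl
  | zero => simpa using WW.zero
  | add _ _ h1 h2 => simpa only [smul_add] using h1.add h2
  | op Q hQ _ h1 =>
    convert h1.op Q hQ using 2 with s
    rw [map_smul]
  | smulS _ h1 =>
    convert h1.smulS using 2 with s
    rw [smul_comm]

theorem qq_addyz (f : MvPolynomial (Fin n) ℂ) : rename (Fin.castAdd (1 + 1)) f +
    qq (fun i : Fin 1 => Fin.natAdd n (Fin.castAdd 1 i))
      (fun i : Fin 1 => Fin.natAdd n (Fin.natAdd 1 i)) = addyz f := by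
  unfold addyz qq
  rw [Fin.sum_univ_one]
  rfl

/-- **The functional equation of `f + (t + v) (w - u)` on an open set.** -/
theorem isBOn_stp (hf0 : f ≠ 0) {c : Polynomial ℂ} (hb : IsBOn g f ((Polynomial.X + 1) * c))
    (u v : MvPolynomial (Fin n) ℂ) : IsBOn (rename (Fin.castAdd 2) g) (stp f u v)
      ((Polynomial.X + 1) * c.comp (Polynomial.X + 1)) := by
  obtain ⟨l, hl⟩ := isBOn_WW hb
  have h0 := (reducedG hf0 hl).2 (by
    rw [Polynomial.eval_mul, Polynomial.eval_add, Polynomial.eval_X, Polynomial.eval_one,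
      neg_add_cancel, zero_mul]) c rfl
  have h1 := red_stabG (sep_stab (N := n) (k := 1)) f (g ^ l) c h0
  rw [qq_addyz, Nat.cast_one, Polynomial.C_1] at h1
  have h2 := WW_cj (sub2E u v) (unred h1)
  rw [sub2E_stab] at h2
  refine isBOn_of_WW (k := l) ?_
  convert h2 using 2 with s
  rw [map_smul, map_smul, map_mul, map_pow (sub2E u v) (addyz f) s, sub2E_stab, smul_smul]
  have e : sub2E u v (rename (Fin.castAdd (1 + 1)) (g ^ l)) = rename (Fin.castAdd 2) g ^ l := by
    rw [← map_pow]
    exact sub2_rename u v _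
  rw [e]
  congr 1
  rw [Polynomial.eval_mul, Polynomial.eval_add, Polynomial.eval_X, Polynomial.eval_one]

end

end Pool.Agent.V7H32.GL
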