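import Pool.Agent.N101.CB.Red

/-!
# Reduction to sparse cubic polynomials

A cubic polynomial is transformed by steps `f ↦ f + (t + A₁) (x' - x)`, `f = (A₁ + A₂) x + B`, into
one in which every variable occurs in at most three monomials.
-/

set_option autoImplicit false

namespace Pool.Agent.V7H32.GL

open MvPolynomial
open Pool.Agent.N101.CB (stp Cub red)
open Pool.Agent.N101.CB.RED

section
variable {n : ℕ}

/-- the number of monomials of the set `A` in which the variable `x_i` occurs -/
def occ (A : Finset (Fin n →₀ ℕ)) (i : Fin n) : ℕ := (A.filter fun m => m i ≠ 0).card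

/-- `Cub f`, and every variable occurs in at most three monomials of `f` -/
def SCub {K : Type} [Field K] (f : MvPolynomial (Fin n) K) : Prop :=
  Cub f ∧ ∀ i, (f.support.filter fun m => m i ≠ 0).card ≤ 3

theorem occ_mono {A B : Finset (Fin n →₀ ℕ)} (h : A ⊆ B) (i : Fin n) : occ A i ≤ occ B i :=
  Finset.card_le_card (Finset.filter_subset_filter _ h)

theorem occ_union (A B : Finset (Fin n →₀ ℕ)) (i : Fin n) :
    occ (A ∪ B) i ≤ occ A i + occ B i := by
  unfold occ
  rw [Finset.filter_union]
  exact Finset.card_union_le _ _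

theorem occ_single_zero (m : Fin n →₀ ℕ) (i : Fin n) (h : m i = 0) : occ {m} i = 0 := by
  unfold occ
  rw [Finset.card_eq_zero, Finset.filter_eq_empty_iff]
  intro x hx
  rw [Finset.mem_singleton.1 hx]
  simpa using h

theorem occ_le_card (A : Finset (Fin n →₀ ℕ)) (i : Fin n) : occ A i ≤ A.card :=
  Finset.card_filter_le _ _

theorem occ_image {N : ℕ} (A : Finset (Fin n →₀ ℕ))
    (φ : (Fin n →₀ ℕ) → (Fin N →₀ ℕ))
    (i : Fin n) (j : Fin N) (h : ∀ m ∈ A, m i = 0 → φ m j = 0) : occ (A.image φ) j ≤ occ A i := by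
  unfold occ
  have h1 : (A.image φ).filter (fun m => m j ≠ 0) ⊆ (A.filter fun m => m i ≠ 0).image φ := by
    intro m hm
    rw [Finset.mem_filter, Finset.mem_image] at hm
    obtain ⟨⟨m', hm', rfl⟩, h2⟩ := hm
    rw [Finset.mem_image]
    exact ⟨m', Finset.mem_filter.2 ⟨hm', fun h3 => h2 (h m' hm' h3)⟩, rfl⟩
  exact (Finset.card_le_card h1).trans Finset.card_image_le

theorem occ_image_zero {N : ℕ} (A : Finset (Fin n →₀ ℕ))
    (φ : (Fin n →₀ ℕ) → (Fin N →₀ ℕ))
    (j : Fin N) (h : ∀ m ∈ A, φ m j = 0) : occ (A.image φ) j = 0 := by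
  unfold occ
  rw [Finset.card_eq_zero, Finset.filter_eq_empty_iff]
  intro x hx
  obtain ⟨m, hm, rfl⟩ := Finset.mem_image.1 hx
  simpa using h m hm

/-- the exponents after a step -/
noncomputable def newS
    (B A : Finset (Fin n →₀ ℕ)) (i : Fin n) : Finset (Fin (n + 2) →₀ ℕ) :=
  (B \ A).image E ∪ ({G 0 1 1} ∪ ({G (Finsupp.single i 1) 1 0} ∪
    A.image fun m => G (m - Finsupp.single i 1) 0 1))

end

section
variable {K : Type} [Field K] {n : ℕ}

/-- the polynomial `A₁` -/
noncomputable def A1 (f : MvPolynomial (Fin n) K) (A : Finset (Fin n →₀ ℕ)) (i : Fin n) :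
    MvPolynomial (Fin n) K := ∑ m ∈ A, monomial (m - Finsupp.single i 1) (coeff m f)

theorem support_sum_mono {N : ℕ} (A : Finset (Fin n →₀ ℕ))
    (φ : (Fin n →₀ ℕ) → (Fin N →₀ ℕ)) (c : (Fin n →₀ ℕ) → K) :
    (∑ m ∈ A, monomial (φ m) (c m) : MvPolynomial (Fin N) K).support ⊆ A.image φ := by
  classical
  intro d hd
  have hd2 := support_sum (s := A) (f := fun m => (monomial (φ m) (c m) :
    MvPolynomial (Fin N) K)) hd
  rw [Finset.mem_biUnion] at hd2
  obtain ⟨m, hm, h⟩ := hd2
  have h2 := support_monomial_subset h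
  rw [Finset.mem_singleton] at h2
  rw [h2]
  exact Finset.mem_image_of_mem _ hm

theorem supp_split
    (f : MvPolynomial (Fin n) K) (A : Finset (Fin n →₀ ℕ)) (i : Fin n)
    (hA : ∀ m ∈ A, m i ≠ 0) :
    (stp f (X i) (A1 f A i)).support ⊆ newS f.support A i := by
  have key : stp f (X i) (A1 f A i) =
      rename (Fin.castAdd 2) (f - ∑ m ∈ A, monomial m (coeff m f)) +
        (monomial (G 0 1 1) 1 + (monomial (G (Finsupp.single i 1) 1 0) (-1) +
          ∑ m ∈ A, monomial (G (m - Finsupp.single i 1) 0 1) (coeff m f))) := by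
    have h1 : (monomial (G (0 : Fin n →₀ ℕ) 1 1) 1 : MvPolynomial (Fin (n + 2)) K) =
        X (Fin.natAdd n 0) * X (Fin.natAdd n 1) := by
      unfold G E
      rw [Finsupp.mapDomain_zero, zero_add, X, X, monomial_mul, one_mul]
    have h2 : (monomial (G (Finsupp.single i 1) 1 0) (-1) : MvPolynomial (Fin (n + 2)) K) =
        - (X (Fin.natAdd n 0) * rename (Fin.castAdd 2) (X i)) := by
      have hX : (X i : MvPolynomial (Fin n) K) = monomial (Finsupp.single i 1) 1 := rfl
      unfold G E
      rw [hX, Finsupp.single_zero, add_zero, rename_monomial, X, monomial_mul, one_mul,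
        add_comm (Finsupp.single (Fin.natAdd n 0) 1), map_neg]
    have h3 : (∑ m ∈ A, monomial (G (m - Finsupp.single i 1) 0 1) (coeff m f) :
        MvPolynomial (Fin (n + 2)) K) =
        rename (Fin.castAdd 2) (A1 f A i) * X (Fin.natAdd n 1) := by
      unfold A1
      rw [map_sum, Finset.sum_mul]
      refine Finset.sum_congr rfl fun m _ => ?_
      unfold G E
      rw [Finsupp.single_zero, add_zero, rename_monomial, X, monomial_mul, mul_one]
    have h4 : (∑ m ∈ A, monomial m (coeff m f) : MvPolynomial (Fin n) K) = A1 f A i * X i := by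
      unfold A1
      rw [Finset.sum_mul]
      refine Finset.sum_congr rfl fun m hm => ?_
      rw [X, monomial_mul, mul_one, tsub_add_cancel_of_le]
      rw [Finsupp.single_le_iff]
      exact Nat.one_le_iff_ne_zero.2 (hA m hm)
    unfold stp
    rw [h1, h2, h3, h4, map_sub, map_mul]
    ring
  rw [key]
  intro d hd
  have h1 := support_add hd
  rw [Finset.mem_union] at h1
  unfold newS
  rw [Finset.mem_union, Finset.mem_union, Finset.mem_union, Finset.mem_singleton,
    Finset.mem_singleton]
  rcases h1 with h1 | h1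
  · left
    rw [support_rename_of_injective (Fin.castAdd_injective n 2)] at h1
    obtain ⟨d', hd', rfl⟩ := Finset.mem_image.1 h1
    refine Finset.mem_image.2 ⟨d', ?_, rfl⟩
    have e : coeff d' (∑ m ∈ A, monomial m (coeff m f) : MvPolynomial (Fin n) K) =
        if d' ∈ A then coeff d' f else 0 := by
      rw [coeff_sum]
      simp only [coeff_monomial]
      exact Finset.sum_ite_eq' A d' (fun x => coeff x f)
    rw [mem_support_iff, coeff_sub, e] at hd'
    by_cases h : d' ∈ A
    · rw [if_pos h, sub_self] at hd'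
      exact absurd rfl hd'
    · rw [if_neg h, sub_zero] at hd'
      exact Finset.mem_sdiff.2 ⟨mem_support_iff.2 hd', h⟩
  · right
    have h2 := support_add h1
    rw [Finset.mem_union] at h2
    rcases h2 with h2 | h2
    · left
      exact Finset.mem_singleton.1 (support_monomial_subset h2)
    · right
      have h3 := support_add h2
      rw [Finset.mem_union] at h3
      rcases h3 with h3 | h3
      · left
        exact Finset.mem_singleton.1 (support_monomial_subset h3)
      · right
        exact support_sum_mono A (fun m => G (m - Finsupp.single i 1) 0 1)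
          (fun m => coeff m f) h3

/-- the new class of variables -/
noncomputable def ex' (T : Finset (Fin n)) (i : Fin n) : Finset (Fin (n + 2)) :=
  T.map (Fin.castAddEmb 2) ∪ (if i ∈ T then {Fin.natAdd n 1} else {Fin.natAdd n 0})

theorem ex'_c (T : Finset (Fin n)) (i k : Fin n) : Fin.castAdd 2 k ∈ ex' T i ↔ k ∈ T := by
  unfold ex'
  rw [Finset.mem_union, Finset.mem_map]
  constructor
  · rintro (⟨j, hj, h⟩ | h)
    · have : j = k := Fin.castAdd_injective n 2 h
      rwa [← this]
    · split_ifs at h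
      · exact absurd (Finset.mem_singleton.1 h).symm (neC k 1)
      · exact absurd (Finset.mem_singleton.1 h).symm (neC k 0)
  · intro h
    exact Or.inl ⟨k, h, rfl⟩

theorem ex'_n (T : Finset (Fin n)) (j : Fin 2) : Fin.natAdd n j ∉ T.map
    (Fin.castAddEmb 2) := by
  rw [Finset.mem_map]
  rintro ⟨k, _, h⟩
  exact absurd h.symm (neC k j)

theorem ex'_0 (T : Finset (Fin n)) (i : Fin n) : Fin.natAdd n (0 : Fin 2) ∈ ex' T i ↔ i ∉ T := by
  unfold ex'
  rw [Finset.mem_union]
  constructor
  · rintro (h | h) hi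
    · exact ex'_n T 0 h
    · rw [if_pos hi, Finset.mem_singleton] at h
      exact ne01 n h
  · intro h
    right
    rw [if_neg h]
    exact Finset.mem_singleton_self _

theorem ex'_1 (T : Finset (Fin n)) (i : Fin n) : Fin.natAdd n (1 : Fin 2) ∈ ex' T i ↔ i ∈ T := by
  unfold ex'
  rw [Finset.mem_union]
  constructor
  · rintro (h | h)
    · exact absurd h (ex'_n T 1)
    · by_contra hi
      rw [if_neg hi, Finset.mem_singleton] at h
      exact ne01 n h.symm
  · intro h
    right
    rw [if_pos h]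
    exact Finset.mem_singleton_self _

theorem sumS (T : Finset (Fin n)) (m : Fin n →₀ ℕ) : ∑ k ∈ T, m k = S T m := by
  unfold S
  rw [Finset.sum_ite_mem, Finset.univ_inter]

theorem sumS' (T : Finset (Fin n)) (m : Fin n →₀ ℕ) : ∑ k ∈ Tᶜ, m k = S' T m := by
  unfold S'
  have : ∀ i, (if i ∈ T then 0 else m i) = if i ∈ Tᶜ then m i else 0 := by
    intro i
    by_cases hi : i ∈ T
    · simp [hi]
    · simp [hi]
  simp only [this]
  rw [Finset.sum_ite_mem, Finset.univ_inter]

theorem S_ex' (T : Finset (Fin n)) (i : Fin n) (m : Fin n →₀ ℕ) (p q : ℕ) :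
    S (ex' T i) (G m p q) = S T m + if i ∈ T then q else p := by
  unfold S
  rw [sum2]
  simp only [G_c, G_0, G_1, ex'_c, ex'_0, ex'_1]
  by_cases hi : i ∈ T
  · simp [hi]
  · simp [hi]

theorem S'_ex' (T : Finset (Fin n)) (i : Fin n) (m : Fin n →₀ ℕ) (p q : ℕ) :
    S' (ex' T i) (G m p q) = S' T m + if i ∈ T then p else q := by
  unfold S'
  rw [sum2]
  simp only [G_c, G_0, G_1, ex'_c, ex'_0, ex'_1]
  by_cases hi : i ∈ T
  · simp [hi]
  · simp [hi]

/-- the condition of `Cub` -/
def Ck (T : Finset (Fin n)) (m : Fin n →₀ ℕ) : Prop :=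
  (∀ i, m i ≤ 1) ∧ S T m ≤ 1 ∧ S' T m ≤ 2

theorem S_single (T : Finset (Fin n)) (i : Fin n) :
    S T (Finsupp.single i 1) = if i ∈ T then 1 else 0 := by
  unfold S
  rw [Finset.sum_eq_single i]
  · rw [Finsupp.single_eq_same]
  · intro j _ hj
    rw [Finsupp.single_eq_of_ne hj, ite_self]
  · intro h
    exact absurd (Finset.mem_univ i) h

theorem S'_single (T : Finset (Fin n)) (i : Fin n) :
    S' T (Finsupp.single i 1) = if i ∈ T then 0 else 1 := by
  unfold S'
  rw [Finset.sum_eq_single i]
  · rw [Finsupp.single_eq_same]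
  · intro j _ hj
    rw [Finsupp.single_eq_of_ne hj, ite_self]
  · intro h
    exact absurd (Finset.mem_univ i) h

theorem S_add (T : Finset (Fin n)) (m m' : Fin n →₀ ℕ) : S T (m + m') = S T m + S T m' := by
  unfold S
  rw [← Finset.sum_add_distrib]
  refine Finset.sum_congr rfl fun i _ => ?_
  split_ifs
  · rfl
  · rfl

theorem S'_add (T : Finset (Fin n)) (m m' : Fin n →₀ ℕ) : S' T (m + m') = S' T m + S' T m' := by
  unfold S'
  rw [← Finset.sum_add_distrib]
  refine Finset.sum_congr rfl fun i _ => ?_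
  split_ifs
  · rfl
  · rfl

theorem ck_new
    (T : Finset (Fin n)) (i : Fin n) {B A : Finset (Fin n →₀ ℕ)} (hA : A ⊆ B)
    (hAi : ∀ m ∈ A, m i ≠ 0) (hB : ∀ m ∈ B, Ck T m) :
    ∀ m ∈ newS B A i, Ck (ex' T i) m := by
  intro m hm
  unfold newS at hm
  rw [Finset.mem_union, Finset.mem_union, Finset.mem_union, Finset.mem_singleton,
    Finset.mem_singleton] at hm
  rcases hm with h | h | h | h
  · obtain ⟨m', hm', rfl⟩ := Finset.mem_image.1 h
    obtain ⟨h1, h2, h3⟩ := hB m' (Finset.mem_sdiff.1 hm').1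
    rw [E_eq]
    refine ⟨le_G m' 0 0 h1 (by omega) (by omega), ?_, ?_⟩
    · rw [S_ex', ite_self]
      exact h2
    · rw [S'_ex', ite_self]
      exact h3
  · rw [h]
    refine ⟨le_G 0 1 1 (fun i => Nat.zero_le _) le_rfl le_rfl, ?_, ?_⟩
    · rw [S_ex', ite_self, S_zero]
    · rw [S'_ex', ite_self, S'_zero]
      omega
  · rw [h]
    refine ⟨le_G _ 1 0 (fun j => ?_) le_rfl (Nat.zero_le _), ?_, ?_⟩
    · rw [Finsupp.single_apply]
      split_ifs
      · exact le_rfl
      · exact Nat.zero_le _
    · rw [S_ex', S_single]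
      split_ifs <;> omega
    · rw [S'_ex', S'_single]
      split_ifs <;> omega
  · obtain ⟨m', hm', rfl⟩ := Finset.mem_image.1 h
    obtain ⟨h1, h2, h3⟩ := hB m' (hA hm')
    have hle : Finsupp.single i 1 ≤ m' := by
      rw [Finsupp.single_le_iff]
      exact Nat.one_le_iff_ne_zero.2 (hAi m' hm')
    have e : m' - Finsupp.single i 1 + Finsupp.single i 1 = m' := tsub_add_cancel_of_le hle
    have e1 := S_add T (m' - Finsupp.single i 1) (Finsupp.single i 1)
    have e2 := S'_add T (m' - Finsupp.single i 1) (Finsupp.single i 1)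
    rw [e, S_single] at e1
    rw [e, S'_single] at e2
    refine ⟨le_G _ 0 1 (fun j => ?_) (Nat.zero_le _) le_rfl, ?_, ?_⟩
    · rw [Finsupp.tsub_apply]
      exact (Nat.sub_le _ _).trans (h1 j)
    · rw [S_ex']
      split_ifs at e1 ⊢ <;> omega
    · rw [S'_ex']
      split_ifs at e2 ⊢ <;> omega

/-- the excess of the numbers of occurrences -/
def mu (A : Finset (Fin n →₀ ℕ)) : ℕ := ∑ i, (occ A i - 3)

theorem mu_new
    (i : Fin n) {B A : Finset (Fin n →₀ ℕ)} (hA : A ⊆ B)
    (hAi : ∀ m ∈ A, m i ≠ 0) (hB : ∀ m ∈ B, ∀ j, m j ≤ 1) (h2 : A.card = 2)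
    (h4 : 4 ≤ occ B i) : mu (newS B A i) < mu B := by
  -- the old variables
  have hc : ∀ j, occ (newS B A i) (Fin.castAdd 2 j) + (if j = i then 1 else 0) ≤ occ B j := by
    intro j
    have h3 : occ (B \ A) j + occ A j = occ B j := by
      unfold occ
      rw [← Finset.card_union_of_disjoint, ← Finset.filter_union, Finset.sdiff_union_of_subset hA]
      exact Finset.disjoint_filter_filter (Finset.sdiff_disjoint)
    have e1 : occ ((B \ A).image E) (Fin.castAdd 2 j) ≤ occ (B \ A) j :=
      occ_image _ _ _ _ fun m _ h => by rw [E_c, h]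
    have e2 : occ ({G (0 : Fin n →₀ ℕ) 1 1} : Finset (Fin (n + 2) →₀ ℕ)) (Fin.castAdd 2 j) = 0 :=
      occ_single_zero _ _ (by rw [G_c]; rfl)
    have u1 := occ_union ((B \ A).image E) ({G 0 1 1} ∪ ({G (Finsupp.single i 1) 1 0} ∪
      A.image fun m => G (m - Finsupp.single i 1) 0 1)) (Fin.castAdd 2 j)
    have u2 := occ_union {G (0 : Fin n →₀ ℕ) 1 1} ({G (Finsupp.single i 1) 1 0} ∪
      A.image fun m => G (m - Finsupp.single i 1) 0 1) (Fin.castAdd 2 j)
    have u3 := occ_union {G (Finsupp.single i 1) 1 0}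
      (A.image fun m => G (m - Finsupp.single i 1) 0 1) (Fin.castAdd 2 j)
    unfold newS
    by_cases hj : j = i
    · subst hj
      rw [if_pos rfl]
      have e3 : occ ({G (Finsupp.single j 1) 1 0} : Finset (Fin (n + 2) →₀ ℕ))
          (Fin.castAdd 2 j) ≤ 1 := (occ_le_card _ _).trans (by rw [Finset.card_singleton])
      have e4 : occ (A.image fun m => G (m - Finsupp.single j 1) 0 1) (Fin.castAdd 2 j) = 0 := by
        refine occ_image_zero _ _ _ fun m hm => ?_
        rw [G_c, Finsupp.tsub_apply, Finsupp.single_eq_same]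
        have := hB m (hA hm) j
        omega
      have e5 : occ A j = 2 := by
        unfold occ
        rw [Finset.filter_true_of_mem hAi, h2]
      omega
    · rw [if_neg hj]
      have e3 : occ ({G (Finsupp.single i 1) 1 0} : Finset (Fin (n + 2) →₀ ℕ))
          (Fin.castAdd 2 j) = 0 := by
        refine occ_single_zero _ _ ?_
        rw [G_c, Finsupp.single_eq_of_ne hj]
      have e4 : occ (A.image fun m => G (m - Finsupp.single i 1) 0 1) (Fin.castAdd 2 j) ≤
          occ A j := by
        refine occ_image _ _ _ _ fun m _ h => ?_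
        rw [G_c, Finsupp.tsub_apply, h]
        exact Nat.zero_sub _
      omega
  -- the new variables
  have ht : occ (newS B A i) (Fin.natAdd n 0) ≤ 3 := by
    have e1 : occ ((B \ A).image E) (Fin.natAdd n 0) = 0 :=
      occ_image_zero _ _ _ fun m _ => E_n m 0
    have e2 : occ ({G (0 : Fin n →₀ ℕ) 1 1} : Finset (Fin (n + 2) →₀ ℕ)) (Fin.natAdd n 0) ≤ 1 :=
      (occ_le_card _ _).trans (by rw [Finset.card_singleton])
    have e3 : occ ({G (Finsupp.single i 1) 1 0} : Finset (Fin (n + 2) →₀ ℕ))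
          (Fin.natAdd n 0) ≤ 1 := (occ_le_card _ _).trans (by rw [Finset.card_singleton])
    have e4 : occ (A.image fun m => G (m - Finsupp.single i 1) 0 1) (Fin.natAdd n 0) = 0 :=
      occ_image_zero _ _ _ fun m _ => G_0 _ 0 1
    have u1 := occ_union ((B \ A).image E) ({G 0 1 1} ∪ ({G (Finsupp.single i 1) 1 0} ∪
      A.image fun m => G (m - Finsupp.single i 1) 0 1)) (Fin.natAdd n 0)
    have u2 := occ_union {G (0 : Fin n →₀ ℕ) 1 1} ({G (Finsupp.single i 1) 1 0} ∪
      A.image fun m => G (m - Finsupp.single i 1) 0 1) (Fin.natAdd n 0)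
    have u3 := occ_union {G (Finsupp.single i 1) 1 0}
      (A.image fun m => G (m - Finsupp.single i 1) 0 1) (Fin.natAdd n 0)
    unfold newS
    omega
  have hw : occ (newS B A i) (Fin.natAdd n 1) ≤ 3 := by
    have e1 : occ ((B \ A).image E) (Fin.natAdd n 1) = 0 :=
      occ_image_zero _ _ _ fun m _ => E_n m 1
    have e2 : occ ({G (0 : Fin n →₀ ℕ) 1 1} : Finset (Fin (n + 2) →₀ ℕ)) (Fin.natAdd n 1) ≤ 1 :=
      (occ_le_card _ _).trans (by rw [Finset.card_singleton])
    have e3 : occ ({G (Finsupp.single i 1) 1 0} : Finset (Fin (n + 2) →₀ ℕ))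
          (Fin.natAdd n 1) = 0 := occ_single_zero _ _ (G_1 _ 1 0)
    have e4 : occ (A.image fun m => G (m - Finsupp.single i 1) 0 1) (Fin.natAdd n 1) ≤ 2 :=
      (occ_le_card _ _).trans (Finset.card_image_le.trans h2.le)
    have u1 := occ_union ((B \ A).image E) ({G 0 1 1} ∪ ({G (Finsupp.single i 1) 1 0} ∪
      A.image fun m => G (m - Finsupp.single i 1) 0 1)) (Fin.natAdd n 1)
    have u2 := occ_union {G (0 : Fin n →₀ ℕ) 1 1} ({G (Finsupp.single i 1) 1 0} ∪
      A.image fun m => G (m - Finsupp.single i 1) 0 1) (Fin.natAdd n 1)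
    have u3 := occ_union {G (Finsupp.single i 1) 1 0}
      (A.image fun m => G (m - Finsupp.single i 1) 0 1) (Fin.natAdd n 1)
    unfold newS
    omega
  unfold mu
  rw [sum2, Nat.sub_eq_zero_of_le ht, Nat.sub_eq_zero_of_le hw, add_zero, add_zero]
  refine Finset.sum_lt_sum (fun j _ => ?_) ⟨i, Finset.mem_univ _, ?_⟩
  · have := hc j
    split_ifs at this <;> omega
  · have := hc i
    rw [if_pos rfl] at this
    omega

end

/-- **The reduction principle to sparse cubic polynomials.** -/
theorem sparse_red (K : Type) [Field K] (P : ∀ n : ℕ, MvPolynomial (Fin n) K → Prop)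
    (hC : ∀ (n : ℕ) (f : MvPolynomial (Fin n) K), SCub f → P n f)
    (hS : ∀ (n : ℕ) (f u v : MvPolynomial (Fin n) K), P (n + 2) (stp f u v) → P n f) :
    ∀ (n : ℕ) (f : MvPolynomial (Fin n) K), P n f := by
  classical
  have main : ∀ (N n : ℕ) (f : MvPolynomial (Fin n) K) (T : Finset (Fin n)),
      (∀ m ∈ f.support, Ck T m) → mu f.support ≤ N → P n f := by
    intro N
    induction N using Nat.strong_induction_on with
    | _ N ih =>
      intro n f T hT hN
      by_cases h0 : ∃ i, 4 ≤ occ f.support i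
      · obtain ⟨i, hi⟩ := h0
        obtain ⟨A, hA, hA2⟩ := Finset.exists_subset_card_eq
          (show 2 ≤ (f.support.filter fun m => m i ≠ 0).card from le_trans (by omega) hi)
        have hAs : A ⊆ f.support := hA.trans (Finset.filter_subset _ _)
        have hAi : ∀ m ∈ A, m i ≠ 0 := fun m hm => (Finset.mem_filter.1 (hA hm)).2
        have hsub := supp_split f A i hAi
        have hlt := mu_new i hAs hAi (fun m hm => (hT m hm).1) hA2 hi
        have hle : mu (stp f (X i) (A1 f A i)).support ≤ mu (newS f.support A i) :=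
          Finset.sum_le_sum fun j _ => Nat.sub_le_sub_right (occ_mono hsub j) 3
        refine hS n f (X i) (A1 f A i) (ih _ (lt_of_le_of_lt hle (lt_of_lt_of_le hlt hN)) _ _
          (ex' T i) (fun m hm => ck_new T i hAs hAi hT m (hsub hm)) le_rfl)
      · push Not at h0
        refine hC n f ⟨⟨T, fun m hm => ?_⟩, fun i => Nat.lt_succ_iff.1 (h0 i)⟩
        rw [sumS, sumS']
        exact hT m hm
  refine red K P (fun n f hf => ?_) (fun n f u v _ _ h _ => hS n f u v h)
  obtain ⟨T, hT⟩ := hf
  refine main _ n f T (fun m hm => ?_) le_rfl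
  have := hT m hm
  rw [sumS, sumS'] at this
  exact this

end Pool.Agent.V7H32.GL
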