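import Pool.Agent.V7H32.GL.Col
import Pool.Agent.V7H32.GL.PStep

/-!
# Trilinear homogenisation: functional equations

Let all monomials of `f` have degree at most one in each of three groups of variables, and let `z_c` be
three new variables, one for each group. Then `Φ = z_0 z_1 z_2 f(x_i / z_{col i})` is a trilinear form.
-/

set_option autoImplicit false

namespace Pool.Agent.V7H32.GL

open MvPolynomial
open Pool.Agent.N101.CB
open Pool.Agent.N101.CB.BGl
open Pool.Agent.H628R4.TP (weylS)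
open Pool.Agent.Y229.RE (mul_mem pd_mem)

section
variable {n : ℕ}

/-- functions on the old and the new variables -/
def ext3 {α : Type} (a : Fin n → α) (z : Fin 3 → α) : Fin (n + 3) → α :=
  Fin.addCases (motive := fun _ => α) a z

theorem ext3_x {α : Type} (a : Fin n → α) (z : Fin 3 → α) (i : Fin n) :
    ext3 a z (Fin.castAdd 3 i) = a i := by
  unfold ext3
  rw [Fin.addCases_left]

theorem ext3_z {α : Type} (a : Fin n → α) (z : Fin 3 → α) (c : Fin 3) :
    ext3 a z (Fin.natAdd n c) = z c := by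
  unfold ext3
  rw [Fin.addCases_right]

/-- the exponents of the homogenisation -/
noncomputable def Hm (col : Fin n → Fin 3) (m : Fin n →₀ ℕ) : Fin (n + 3) →₀ ℕ :=
  Finsupp.equivFunOnFinite.symm (ext3 (fun i => m i) fun c => 1 - sc col c m)

theorem Hm_x (col : Fin n → Fin 3) (m : Fin n →₀ ℕ) (i : Fin n) :
    Hm col m (Fin.castAdd 3 i) = m i :=
  ext3_x (fun i => m i) (fun c => 1 - sc col c m) i

theorem Hm_z (col : Fin n → Fin 3) (m : Fin n →₀ ℕ) (c : Fin 3) :
    Hm col m (Fin.natAdd n c) = 1 - sc col c m :=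
  ext3_z (fun i => m i) (fun c => 1 - sc col c m) c

/-- the homogenisation -/
noncomputable def ho (col : Fin n → Fin 3) (f : MvPolynomial (Fin n) ℂ) :
    MvPolynomial (Fin (n + 3)) ℂ := ∑ m ∈ f.support, monomial (Hm col m) (coeff m f)

/-- the new groups of variables -/
def colz (col : Fin n → Fin 3) : Fin (n + 3) → Fin 3 := ext3 col fun c => c

/-- **The homogenisation is a trilinear form.** -/
theorem tri_ho (col : Fin n → Fin 3) (f : MvPolynomial (Fin n) ℂ)
    (hf : ∀ m ∈ f.support, ∀ c, sc col c m ≤ 1) : Tri (colz col) (ho col f) := by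
  intro m' hm' c
  obtain ⟨m, hm, rfl⟩ := Finset.mem_image.1 (support_sum_mono f.support (Hm col)
    (fun m => coeff m f) hm')
  have h1 := hf m hm c
  unfold sc
  rw [Fin.sum_univ_add]
  have e1 : ∀ i : Fin n, colz col (Fin.castAdd 3 i) = col i := by
    intro i
    unfold colz
    rw [ext3_x]
  have e2 : ∀ c : Fin 3, colz col (Fin.natAdd n c) = c := by
    intro c
    unfold colz
    rw [ext3_z]
  simp only [e1, e2, Hm_x, Hm_z]
  rw [Finset.sum_ite_eq' Finset.univ c (fun x => 1 - sc col x m), if_pos (Finset.mem_univ c)]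
  change sc col c m + (1 - sc col c m) = 1
  omega

/-- the substitution `x_i ↦ z_{col i} x_i` for `i ∈ S` -/
noncomputable def sg (col : Fin n → Fin 3) (S : Finset (Fin n)) :
    MvPolynomial (Fin (n + 3)) ℂ →ₐ[ℂ] MvPolynomial (Fin (n + 3)) ℂ :=
  aeval (ext3 (fun i => if i ∈ S then X (Fin.natAdd n (col i)) * X (Fin.castAdd 3 i)
    else X (Fin.castAdd 3 i)) fun c => X (Fin.natAdd n c))

variable (col : Fin n → Fin 3) (S : Finset (Fin n))

theorem sg_x (i : Fin n) : sg col S (X (Fin.castAdd 3 i)) =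
    if i ∈ S then X (Fin.natAdd n (col i)) * X (Fin.castAdd 3 i) else X (Fin.castAdd 3 i) := by
  unfold sg
  rw [aeval_X, ext3_x]

theorem sg_z (c : Fin 3) : sg col S (X (Fin.natAdd n c)) = X (Fin.natAdd n c) := by
  unfold sg
  rw [aeval_X, ext3_z]

/-- `z_0 z_1 z_2` -/
noncomputable def ZZ (n : ℕ) : MvPolynomial (Fin (n + 3)) ℂ := ∏ c, X (Fin.natAdd n c)

theorem sg_ZZ : sg col S (ZZ n) = ZZ n := by
  unfold ZZ
  rw [map_prod]
  exact Finset.prod_congr rfl fun c _ => sg_z col S c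

theorem ZZ_ne : ZZ n ≠ 0 := by
  unfold ZZ
  exact Finset.prod_ne_zero_iff.2 fun c _ => X_ne_zero _

/-- a polynomial in `x`, as a polynomial in `x, z` -/
noncomputable def r3 (p : MvPolynomial (Fin n) ℂ) : MvPolynomial (Fin (n + 3)) ℂ :=
  rename (Fin.castAdd 3) p

theorem r3_add (p q : MvPolynomial (Fin n) ℂ) : r3 (p + q) = r3 p + r3 q := map_add _ _ _

theorem r3_mul (p q : MvPolynomial (Fin n) ℂ) : r3 (p * q) = r3 p * r3 q := map_mul _ _ _

theorem r3_pow (p : MvPolynomial (Fin n) ℂ) (k : ℕ) : r3 (p ^ k) = r3 p ^ k := map_pow _ _ _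

theorem r3_smul (p : MvPolynomial (Fin n) ℂ) (c : ℂ) : r3 (c • p) = c • r3 p := map_smul _ _ _

theorem r3_zero : r3 (0 : MvPolynomial (Fin n) ℂ) = 0 := map_zero _

theorem r3_C (c : ℂ) : r3 (C c : MvPolynomial (Fin n) ℂ) = C c := rename_C _ _

theorem r3_X (i : Fin n) : r3 (X i : MvPolynomial (Fin n) ℂ) = X (Fin.castAdd 3 i) :=
  rename_X _ _

theorem cn3 (i : Fin n) (c : Fin 3) : Fin.castAdd 3 i ≠ Fin.natAdd n c := by
  intro h
  have := congrArg Fin.val h
  simp only [Fin.val_castAdd, Fin.val_natAdd] at this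
  have := i.2
  omega

/-- **The homogenisation after the substitution.** -/
theorem sg_ho (f : MvPolynomial (Fin n) ℂ) (hf : ∀ m ∈ f.support, ∀ c, sc col c m ≤ 1) :
    sg col Finset.univ (ho col f) = ZZ n * r3 f := by
  have h1 : r3 f = ∑ m ∈ f.support, C (coeff m f) * ∏ i, X (Fin.castAdd 3 i) ^ (m i) := by
    conv_lhs => rw [r3, f.as_sum]
    rw [map_sum]
    refine Finset.sum_congr rfl fun m _ => ?_
    rw [monomial_eq, map_mul, rename_C, Finsupp.prod_fintype _ _ (fun i => pow_zero _), map_prod]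
    congr 1
    exact Finset.prod_congr rfl fun i _ => by rw [map_pow, rename_X]
  rw [h1, Finset.mul_sum]
  unfold ho
  rw [map_sum]
  refine Finset.sum_congr rfl fun m hm => ?_
  rw [monomial_eq, map_mul, algHom_C, Finsupp.prod_fintype _ _ (fun i => pow_zero _), map_prod,
    Fin.prod_univ_add]
  have e1 : ∀ i : Fin n, sg col Finset.univ (X (Fin.castAdd 3 i) ^ Hm col m (Fin.castAdd 3 i)) =
      X (Fin.natAdd n (col i)) ^ m i * X (Fin.castAdd 3 i) ^ m i := by
    intro i
    rw [map_pow, sg_x, if_pos (Finset.mem_univ i), Hm_x, mul_pow]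
  have e2 : ∀ c : Fin 3, sg col Finset.univ (X (Fin.natAdd n c) ^ Hm col m (Fin.natAdd n c)) =
      X (Fin.natAdd n c) ^ (1 - sc col c m) := by
    intro c
    rw [map_pow, sg_z, Hm_z]
  rw [Finset.prod_congr rfl fun i _ => e1 i, Finset.prod_congr rfl fun c _ => e2 c,
    Finset.prod_mul_distrib]
  have e3 : ∏ i : Fin n, (X (Fin.natAdd n (col i)) : MvPolynomial (Fin (n + 3)) ℂ) ^ m i =
      ∏ c : Fin 3, X (Fin.natAdd n c) ^ sc col c m := by
    have e4 : ∀ i : Fin n, (X (Fin.natAdd n (col i)) : MvPolynomial (Fin (n + 3)) ℂ) ^ m i =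
        ∏ c : Fin 3, X (Fin.natAdd n c) ^ (if col i = c then m i else 0) := by
      intro i
      rw [Finset.prod_eq_single (col i)]
      · rw [if_pos rfl]
      · intro c _ hc
        rw [if_neg hc.symm, pow_zero]
      · intro h
        exact absurd (Finset.mem_univ _) h
    rw [Finset.prod_congr rfl fun i _ => e4 i, Finset.prod_comm]
    refine Finset.prod_congr rfl fun c _ => ?_
    rw [Finset.prod_pow_eq_pow_sum]
    rfl
  have e5 : ZZ n = (∏ c : Fin 3, X (Fin.natAdd n c) ^ sc col c m) *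
      ∏ c : Fin 3, X (Fin.natAdd n c) ^ (1 - sc col c m) := by
    rw [← Finset.prod_mul_distrib]
    unfold ZZ
    refine Finset.prod_congr rfl fun c _ => ?_
    rw [← pow_add, Nat.add_sub_cancel' (hf m hm c), pow_one]
  rw [e3, e5, algebraMap_eq]
  ring

/-! ### the operators -/

/-- `π` is a homogenisation of `p` -/
def hr (p : MvPolynomial (Fin n) ℂ) (π : MvPolynomial (Fin (n + 3)) ℂ) (D : ℕ) : Prop :=
  sg col Finset.univ π = ZZ n ^ D * r3 p

theorem eval_sg (w : Fin (n + 3) → ℂ) (p : MvPolynomial (Fin (n + 3)) ℂ) :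
    eval w (sg col S p) = eval (fun j => eval w (sg col S (X j))) p := by
  have h : (aeval w : MvPolynomial (Fin (n + 3)) ℂ →ₐ[ℂ] ℂ).comp (sg col S) =
      aeval fun j => eval w (sg col S (X j)) := by
    apply MvPolynomial.algHom_ext
    intro j
    rw [aeval_X, AlgHom.comp_apply]
    rfl
  exact DFunLike.congr_fun h p

theorem sg_inj : Function.Injective (sg col Finset.univ) := by
  rw [injective_iff_map_eq_zero]
  intro π h
  have h1 : ZZ n * π = 0 := by
    apply MvPolynomial.funext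
    intro w
    rw [map_mul, map_zero]
    by_cases hz : eval w (ZZ n) = 0
    · rw [hz, zero_mul]
    · have hz' : ∀ c, w (Fin.natAdd n c) ≠ 0 := by
        intro c hc
        apply hz
        unfold ZZ
        rw [map_prod]
        refine Finset.prod_eq_zero (Finset.mem_univ c) ?_
        rw [eval_X, hc]
      set w' : Fin (n + 3) → ℂ := ext3
        (fun i => w (Fin.castAdd 3 i) / w (Fin.natAdd n (col i))) (fun c => w (Fin.natAdd n c))
        with hw'
      have e1 : ∀ i, w' (Fin.castAdd 3 i) = w (Fin.castAdd 3 i) / w (Fin.natAdd n (col i)) := by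
        intro i
        rw [hw', ext3_x]
      have e2 : ∀ c, w' (Fin.natAdd n c) = w (Fin.natAdd n c) := by
        intro c
        rw [hw', ext3_z]
      have h2 := eval_sg col Finset.univ w' π
      have e : (fun j => eval w' (sg col Finset.univ (X j))) = w := by
        funext j
        refine Fin.addCases (fun i => ?_) (fun c => ?_) j
        · rw [sg_x, if_pos (Finset.mem_univ i), map_mul, eval_X, eval_X, e1, e2]
          exact mul_div_cancel₀ _ (hz' _)
        · rw [sg_z, eval_X, e2]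
      rw [h, map_zero, e] at h2
      rw [← h2, mul_zero]
  exact (mul_eq_zero.1 h1).resolve_left ZZ_ne

variable {col}

theorem hr_add {p q : MvPolynomial (Fin n) ℂ} {π ρ : MvPolynomial (Fin (n + 3)) ℂ} {D : ℕ}
    (h : hr col p π D) (h' : hr col q ρ D) : hr col (p + q) (π + ρ) D := by
  unfold hr at *
  rw [map_add, h, h', r3_add, mul_add]

theorem hr_Z {p : MvPolynomial (Fin n) ℂ} {π : MvPolynomial (Fin (n + 3)) ℂ} {D : ℕ}
    (h : hr col p π D) (e : ℕ) : hr col p (ZZ n ^ e * π) (D + e) := by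
  unfold hr at *
  rw [map_mul, map_pow, sg_ZZ, h, pow_add]
  ring

theorem hr_mul {p q : MvPolynomial (Fin n) ℂ} {π ρ : MvPolynomial (Fin (n + 3)) ℂ} {D E : ℕ}
    (h : hr col p π D) (h' : hr col q ρ E) : hr col (p * q) (π * ρ) (D + E) := by
  unfold hr at *
  rw [map_mul, h, h', r3_mul, pow_add]
  ring

theorem hr_pow {p : MvPolynomial (Fin n) ℂ} {π : MvPolynomial (Fin (n + 3)) ℂ} {D : ℕ}
    (h : hr col p π D) (k : ℕ) : hr col (p ^ k) (π ^ k) (D * k) := by
  unfold hr at *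
  rw [map_pow, h, r3_pow, mul_pow, pow_mul]

theorem hr_smul {p : MvPolynomial (Fin n) ℂ} {π : MvPolynomial (Fin (n + 3)) ℂ} {D : ℕ}
    (h : hr col p π D) (c : ℂ) : hr col (c • p) (c • π) D := by
  unfold hr at *
  rw [map_smul, h, r3_smul, mul_smul_comm]

theorem hr_C (c : ℂ) : hr col (C c) (C c) 0 := by
  unfold hr
  rw [algHom_C, r3_C, pow_zero, one_mul]
  rfl

/-- the product of the two other variables `z` -/
noncomputable def Zo (n : ℕ) (c : Fin 3) : MvPolynomial (Fin (n + 3)) ℂ :=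
  ∏ d ∈ Finset.univ.erase c, X (Fin.natAdd n d)

theorem Zo_mul (c : Fin 3) : Zo n c * X (Fin.natAdd n c) = ZZ n :=
  Finset.prod_erase_mul Finset.univ _ (Finset.mem_univ c)

theorem sg_Zo (c : Fin 3) : sg col Finset.univ (Zo n c) = Zo n c := by
  unfold Zo
  rw [map_prod]
  exact Finset.prod_congr rfl fun c _ => sg_z col _ c

theorem hr_X {p : MvPolynomial (Fin n) ℂ} {π : MvPolynomial (Fin (n + 3)) ℂ} {D : ℕ}
    (h : hr col p π D) (i : Fin n) :
    hr col (X i * p) (Zo n (col i) * X (Fin.castAdd 3 i) * π) (D + 1) := by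
  unfold hr at *
  rw [map_mul, map_mul, sg_Zo, sg_x, if_pos (Finset.mem_univ i), h, r3_mul, r3_X,
    pow_succ, ← Zo_mul (col i)]
  ring

/-- every polynomial has a homogenisation -/
theorem exists_hr (col : Fin n → Fin 3) (p : MvPolynomial (Fin n) ℂ) :
    ∃ (π : MvPolynomial (Fin (n + 3)) ℂ) (D : ℕ), hr col p π D := by
  induction p using MvPolynomial.induction_on with
  | C a => exact ⟨C a, 0, hr_C a⟩
  | add p q hp hq =>
    obtain ⟨π, D, h1⟩ := hp
    obtain ⟨ρ, E, h2⟩ := hq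
    refine ⟨ZZ n ^ E * π + ZZ n ^ D * ρ, D + E, hr_add (hr_Z h1 E) ?_⟩
    rw [add_comm D E]
    exact hr_Z h2 D
  | mul_X p i hp =>
    obtain ⟨π, D, h1⟩ := hp
    refine ⟨Zo n (col i) * X (Fin.castAdd 3 i) * π, D + 1, ?_⟩
    rw [mul_comm p (X i)]
    exact hr_X h1 i

/-- the chain rule -/
theorem pd_sg (i : Fin n) (π : MvPolynomial (Fin (n + 3)) ℂ) :
    pderiv (Fin.castAdd 3 i) (sg col Finset.univ π) =
      X (Fin.natAdd n (col i)) * sg col Finset.univ (pderiv (Fin.castAdd 3 i) π) := by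
  induction π using MvPolynomial.induction_on with
  | C a =>
    rw [algHom_C, algebraMap_eq, pderiv_C, map_zero, mul_zero]
  | add p q hp hq => rw [map_add, map_add, map_add, map_add, hp, hq, mul_add]
  | mul_X p j hp =>
    rw [map_mul, Derivation.leibniz, Derivation.leibniz, hp, smul_eq_mul, smul_eq_mul,
      smul_eq_mul, smul_eq_mul, map_add, map_mul, map_mul]
    have e : pderiv (Fin.castAdd 3 i) (sg col Finset.univ (X j)) =
        X (Fin.natAdd n (col i)) * sg col Finset.univ (pderiv (Fin.castAdd 3 i) (X j)) := by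
      refine Fin.addCases (fun k => ?_) (fun c => ?_) j
      · rw [sg_x, if_pos (Finset.mem_univ k), Derivation.leibniz,
          pderiv_X_of_ne (cn3 i (col k)).symm, smul_zero, add_zero, smul_eq_mul]
        by_cases hk : k = i
        · subst hk
          rw [pderiv_X_self, map_one]
        · have hk' : Fin.castAdd 3 k ≠ Fin.castAdd 3 i :=
            fun h => hk (Fin.castAdd_injective n 3 h)
          rw [pderiv_X_of_ne hk', map_zero, mul_zero, mul_zero]
      · rw [sg_z, pderiv_X_of_ne (cn3 i c).symm, map_zero, mul_zero]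
    rw [e]
    ring

theorem pd_r3 (i : Fin n) (p : MvPolynomial (Fin n) ℂ) :
    pderiv (Fin.castAdd 3 i) (r3 p) = r3 (pderiv i p) :=
  pderiv_rename (Fin.castAdd_injective n 3) i p

theorem pd_ZZ (i : Fin n) (D : ℕ) : pderiv (Fin.castAdd 3 i) (ZZ n ^ D) = 0 := by
  have h : pderiv (Fin.castAdd 3 i) (ZZ n) = 0 := by
    unfold ZZ
    rw [Fin.prod_univ_three, Derivation.leibniz, Derivation.leibniz,
      pderiv_X_of_ne (cn3 i 0).symm, pderiv_X_of_ne (cn3 i 1).symm,
      pderiv_X_of_ne (cn3 i 2).symm, smul_zero, smul_zero, smul_zero, add_zero, smul_zero,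
      add_zero]
  rw [Derivation.leibniz_pow, h, smul_zero, smul_zero]

theorem hr_pd {p : MvPolynomial (Fin n) ℂ} {π : MvPolynomial (Fin (n + 3)) ℂ} {D : ℕ}
    (h : hr col p π D) (i : Fin n) :
    hr col (pderiv i p) (X (Fin.natAdd n (col i)) * pderiv (Fin.castAdd 3 i) π) D := by
  unfold hr at *
  rw [map_mul, sg_z, ← pd_sg, h, Derivation.leibniz, pd_ZZ, smul_zero, add_zero, pd_r3,
    smul_eq_mul]

/-- **The homogenisation of the operators.** -/
theorem hr_op (col : Fin n → Fin 3) (Q : Module.End ℂ (MvPolynomial (Fin n) ℂ))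
    (hQ : Q ∈ weylS (Fin n)) : ∃ (e : ℕ) (Q' : Module.End ℂ (MvPolynomial (Fin (n + 3)) ℂ)),
      Q' ∈ weylS (Fin (n + 3)) ∧ ∀ p π D, hr col p π D → hr col (Q p) (Q' π) (D + e) := by
  unfold weylS at hQ
  induction hQ using Algebra.adjoin_induction with
  | mem P hP =>
    rcases hP with ⟨i, rfl⟩ | ⟨i, rfl⟩
    · exact ⟨1, LinearMap.mulLeft ℂ (Zo n (col i) * X (Fin.castAdd 3 i)), mul_mem _,
        fun p π D h => hr_X h i⟩
    · exact ⟨0, LinearMap.mulLeft ℂ (X (Fin.natAdd n (col i))) * pl (Fin.castAdd 3 i),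
        Subalgebra.mul_mem _ (mul_mem _) (pl_mem _), fun p π D h => hr_pd h i⟩
  | algebraMap c =>
    refine ⟨0, algebraMap ℂ _ c, Subalgebra.algebraMap_mem _ c, fun p π D h => ?_⟩
    rw [Module.algebraMap_end_apply, Module.algebraMap_end_apply]
    exact hr_smul h c
  | add P Q _ _ hP hQ =>
    obtain ⟨e, P', hP', h1⟩ := hP
    obtain ⟨e', Q', hQ', h2⟩ := hQ
    refine ⟨e + e', LinearMap.mulLeft ℂ (ZZ n ^ e') * P' + LinearMap.mulLeft ℂ (ZZ n ^ e) * Q',
      Subalgebra.add_mem _ (Subalgebra.mul_mem _ (mul_mem _) hP')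
        (Subalgebra.mul_mem _ (mul_mem _) hQ'), fun p π D h => ?_⟩
    have g1 := hr_Z (h1 p π D h) e'
    have g2 := hr_Z (h2 p π D h) e
    rw [add_assoc] at g1 g2
    rw [add_comm e' e] at g2
    exact hr_add g1 g2
  | mul P Q _ _ hP hQ =>
    obtain ⟨e, P', hP', h1⟩ := hP
    obtain ⟨e', Q', hQ', h2⟩ := hQ
    refine ⟨e' + e, P' * Q', Subalgebra.mul_mem _ hP' hQ', fun p π D h => ?_⟩
    have g1 := h1 _ _ _ (h2 p π D h)
    rw [add_assoc] at g1
    exact g1

/-- the homogenisation of the sequences -/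
theorem hr_WW {f : MvPolynomial (Fin n) ℂ} {φ : MvPolynomial (Fin (n + 3)) ℂ}
    (hf : hr col f φ 1) {F : ℕ → MvPolynomial (Fin n) ℂ} (h : WW (B1 f) F) :
    ∃ (e : ℕ) (F' : ℕ → MvPolynomial (Fin (n + 3)) ℂ), WW (B1 φ) F' ∧
      ∀ s, hr col (F s) (F' s) (s + 1 + e) := by
  induction h with
  | base i =>
    refine ⟨0, B1 φ (), WW.base (), fun s => ?_⟩
    have h1 := hr_pow hf (s + 1)
    rw [one_mul] at h1
    exact h1
  | zero =>
    refine ⟨0, fun _ => 0, WW.zero, fun s => ?_⟩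
    unfold hr
    rw [map_zero, r3_zero, mul_zero]
  | add _ _ h1 h2 =>
    obtain ⟨e, F', g1, g2⟩ := h1
    obtain ⟨e', G', g3, g4⟩ := h2
    refine ⟨e + e', _, (g1.mulL (ZZ n ^ e')).add (g3.mulL (ZZ n ^ e)), fun s => ?_⟩
    have g5 := hr_Z (g2 s) e'
    have g6 := hr_Z (g4 s) e
    rw [add_assoc] at g5 g6
    rw [add_comm e' e] at g6
    exact hr_add g5 g6
  | op Q hQ _ h1 =>
    obtain ⟨e, F', g1, g2⟩ := h1
    obtain ⟨e', Q', hQ', g3⟩ := hr_op col Q hQ
    refine ⟨e + e', _, g1.op Q' hQ', fun s => ?_⟩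
    have g4 := g3 _ _ _ (g2 s)
    rw [add_assoc] at g4
    exact g4
  | smulS _ h1 =>
    obtain ⟨e, F', g1, g2⟩ := h1
    exact ⟨e, _, g1.smulS, fun s => hr_smul (g2 s) _⟩

/-- **The functional equation of the homogenisation.** -/
theorem isBOn_ho {f g : MvPolynomial (Fin n) ℂ} {φ γ : MvPolynomial (Fin (n + 3)) ℂ} {E : ℕ}
    (hf : hr col f φ 1) (hg : hr col g γ E) {b : Polynomial ℂ} (hb : IsBOn g f b) :
    IsBOn (ZZ n * γ) φ b := by
  obtain ⟨k, hk⟩ := isBOn_WW hb
  obtain ⟨e, F', g1, g2⟩ := hr_WW hf hk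
  refine isBOn_of_WW (k := k + 1 + e) ?_
  have h1 : ∀ s : ℕ, b.eval (s : ℂ) • (ZZ n ^ (1 + e) * γ ^ k * φ ^ s) =
      ZZ n ^ (E * k) * F' s := by
    intro s
    apply sg_inj col
    have h2 := hr_mul (hr_pow hg k) (hr_pow hf s)
    have h3 := hr_smul (hr_Z h2 (1 + e)) (b.eval (s : ℂ))
    have h4 := hr_Z (g2 s) (E * k)
    unfold hr at h3 h4
    have e1 : ZZ n ^ (1 + e) * (γ ^ k * φ ^ s) = ZZ n ^ (1 + e) * γ ^ k * φ ^ s := by ring
    rw [e1] at h3
    rw [h3, h4]
    congr 2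
    ring
  have h5 := g1.mulL (ZZ n ^ k * γ ^ (1 + e) * ZZ n ^ (E * k))
  convert h5 using 2 with s
  have h6 : ZZ n ^ k * γ ^ (1 + e) * (b.eval (s : ℂ) • (ZZ n ^ (1 + e) * γ ^ k * φ ^ s)) =
      ZZ n ^ k * γ ^ (1 + e) * (ZZ n ^ (E * k) * F' s) := by rw [h1 s]
  rw [mul_assoc (ZZ n ^ k * γ ^ (1 + e)), ← h6, mul_smul_comm]
  congr 1
  ring

end

end Pool.Agent.V7H32.GL
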