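import Pool.Agent.V7H32.GL.TriA

/-!
# Trilinear homogenisation: zeta functions
-/

set_option autoImplicit false

namespace Pool.Agent.V7H32.GL

open MvPolynomial Pool.Agent.W428.MOT
open Pool.Agent.N101.CB
open Pool.Agent.H628R4.TP (IsBFunction weylS)
open Pool.Agent.W375.MG (JetG)
open Pool.Agent.Z864.MS (coeff_zero_aeval constr_JetE)

section
variable {n : ℕ}

/-- the origins with `z = 1` -/
def W3 (W : Set (Pt ℂ (Fin n))) : Set (Pt ℂ (Fin (n + 3))) :=
  {w | (fun i => w (Fin.castAdd 3 i)) ∈ W ∧ ∀ c : Fin 3, w (Fin.natAdd n c) = 1}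

theorem constr_W3 {W : Set (Pt ℂ (Fin n))} (hW : Constr W) : Constr (W3 W) :=
  Constr.and (hW.preimage _ fun _ => IsPF.coord _)
    (Constr.all fun _ => Constr.eq (IsPF.coord _) IsPF.one)

theorem sg_insert (col : Fin n → Fin 3) (S : Finset (Fin n)) (i : Fin n) (hi : i ∉ S)
    (p : MvPolynomial (Fin (n + 3)) ℂ) :
    sg col {i} (sg col S p) = sg col (insert i S) p := by
  have h : (sg col {i}).comp (sg col S) = sg col (insert i S) := by
    apply MvPolynomial.algHom_ext
    intro j
    refine Fin.addCases (fun k => ?_) (fun c => ?_) j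
    · rw [AlgHom.comp_apply, sg_x, sg_x]
      by_cases hk : k ∈ S
      · have hki : k ∉ ({i} : Finset (Fin n)) := by
          rw [Finset.mem_singleton]
          rintro rfl
          exact hi hk
        rw [if_pos hk, if_pos (Finset.mem_insert_of_mem hk), map_mul, sg_z, sg_x, if_neg hki]
      · rw [if_neg hk, sg_x]
        by_cases hki : k = i
        · subst hki
          rw [if_pos (Finset.mem_singleton_self k), if_pos (Finset.mem_insert_self k S)]
        · have h1 : k ∉ ({i} : Finset (Fin n)) := by rwa [Finset.mem_singleton]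
          have h2 : k ∉ insert i S := by
            rw [Finset.mem_insert]
            rintro (h | h)
            · exact hki h
            · exact hk h
          rw [if_neg h1, if_neg h2]
    · rw [AlgHom.comp_apply, sg_z, sg_z, sg_z]
  exact DFunLike.congr_fun h p

theorem sg_empty (col : Fin n → Fin 3) (p : MvPolynomial (Fin (n + 3)) ℂ) :
    sg col ∅ p = p := by
  have h : sg col ∅ = AlgHom.id ℂ _ := by
    apply MvPolynomial.algHom_ext
    intro j
    refine Fin.addCases (fun k => ?_) (fun c => ?_) j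
    · rw [sg_x, if_neg (Finset.notMem_empty k), AlgHom.id_apply]
    · rw [sg_z, AlgHom.id_apply]
  exact DFunLike.congr_fun h p

theorem set_W3 (col : Fin n → Fin 3) (i : Fin n) (W : Set (Pt ℂ (Fin n))) :
    {w : Pt ℂ (Fin (n + 3)) | aeval w (X (Fin.natAdd n (col i)) : MvPolynomial (Fin (n + 3)) ℂ) ≠ 0 ∧
      (fun j => aeval w (sg col {i} (X j))) ∈ W3 W} = W3 W := by
  have e : ∀ w : Pt ℂ (Fin (n + 3)), (∀ c : Fin 3, w (Fin.natAdd n c) = 1) →
      (fun j => aeval w (sg col {i} (X j))) = w := by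
    intro w hw
    funext j
    refine Fin.addCases (fun k => ?_) (fun c => ?_) j
    · rw [sg_x]
      split_ifs
      · rw [map_mul, aeval_X, aeval_X, hw, one_mul]
      · rw [aeval_X]
    · rw [sg_z, aeval_X]
  ext w
  constructor
  · rintro ⟨-, h1⟩
    have h2 : ∀ c : Fin 3, w (Fin.natAdd n c) = 1 := by
      intro c
      have h3 : aeval w (sg col {i} (X (Fin.natAdd n c))) = 1 := h1.2 c
      rw [sg_z, aeval_X] at h3
      exact h3
    rw [e w h2] at h1
    exact h1
  · intro h1
    refine ⟨?_, ?_⟩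
    · rw [aeval_X, h1.2]
      exact one_ne_zero
    · rw [e w h1.2]
      exact h1

theorem zt_sg (col : Fin n → Fin 3) (F : MvPolynomial (Fin (n + 3)) ℂ)
    {W : Set (Pt ℂ (Fin n))} (hW : Constr W) (S : Finset (Fin n)) :
    zt (sg col S F) (W3 W) = zt F (W3 W) := by
  induction S using Finset.induction_on with
  | empty => rw [sg_empty]
  | insert i S hi ih =>
    rw [← sg_insert col S i hi, ← ih]
    have h1 := zt_one (τ := sg col {i}) (i₀ := Fin.castAdd 3 i) (c := X (Fin.natAdd n (col i)))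
      (d := 0) (fun j => by
        refine Fin.addCases (fun k => ?_) (fun c => ?_) j
        · intro hk
          rw [sg_x, if_neg]
          rw [Finset.mem_singleton]
          rintro rfl
          exact hk rfl
        · intro _
          exact sg_z col _ c)
      (by rw [sg_x, if_pos (Finset.mem_singleton_self i), add_zero])
      (fun γ γ' h => by
        rw [aeval_X, aeval_X]
        exact h _ (cn3 i (col i)).symm)
      (fun γ γ' _ => by rw [map_zero, map_zero]) (sg col S F) (constr_W3 hW)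
      (fun w hw => by
        rw [aeval_X, hw.2]
        exact one_ne_zero)
    rw [set_W3] at h1
    exact h1

/-! ### multiplication with a unit -/

theorem coeff_low {A : Type} [CommRing A] (u φ : PowerSeries A) (N : ℕ)
    (h : ∀ j < N, PowerSeries.coeff j φ = 0) :
    (∀ j < N, PowerSeries.coeff j (u * φ) = 0) ∧
      PowerSeries.coeff N (u * φ) = PowerSeries.coeff 0 u * PowerSeries.coeff N φ := by
  constructor
  · intro j hj
    rw [PowerSeries.coeff_mul]
    refine Finset.sum_eq_zero fun p hp => ?_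
    have := Finset.HasAntidiagonal.mem_antidiagonal.1 hp
    rw [h p.2 (by omega), mul_zero]
  · rw [PowerSeries.coeff_mul, Finset.sum_eq_single (0, N)]
    · intro p hp hp0
      have h1 := Finset.HasAntidiagonal.mem_antidiagonal.1 hp
      rw [h p.2, mul_zero]
      by_contra h2
      apply hp0
      have h3 : p.1 = 0 := by omega
      have h4 : p.2 = N := by omega
      exact Prod.ext h3 h4
    · intro h1
      exact absurd (Finset.HasAntidiagonal.mem_antidiagonal.2 (zero_add N)) h1

theorem jet_unit (u F : MvPolynomial (Fin n) ℂ) {W : Set (Pt ℂ (Fin n))}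
    (hu : ∀ w ∈ W, aeval w u ≠ 0) (N : ℕ) : JetG (u * F) W (Un ℂ) N = JetG F W (Un ℂ) N := by
  ext z
  have key : (fun i => z (i, 0)) ∈ W → PowerSeries.coeff 0 (aeval (arc z) u) ≠ 0 := by
    intro h
    rw [coeff_zero_aeval]
    exact hu _ h
  constructor
  · rintro ⟨h1, h2, h3⟩
    have h0 := key h1
    have e : (aeval (arc z) u)⁻¹ * aeval (arc z) (u * F) = aeval (arc z) F := by
      rw [map_mul, ← mul_assoc, inv_mul_self h0, one_mul]
    obtain ⟨g1, g2⟩ := coeff_low (aeval (arc z) u)⁻¹ (aeval (arc z) (u * F)) N h2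
    rw [e] at g1 g2
    refine ⟨h1, g1, ?_⟩
    show PowerSeries.coeff N (aeval (arc z) F) ≠ 0
    rw [g2]
    refine mul_ne_zero ?_ h3
    intro h4
    have h5 := congrArg PowerSeries.constantCoeff (inv_mul_self h0)
    rw [PowerSeries.coeff_zero_eq_constantCoeff_apply] at h4
    rw [map_mul, map_one, h4, zero_mul] at h5
    exact zero_ne_one h5
  · rintro ⟨h1, h2, h3⟩
    have h0 := key h1
    obtain ⟨g1, g2⟩ := coeff_low (aeval (arc z) u) (aeval (arc z) F) N h2
    rw [← map_mul] at g1 g2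
    refine ⟨h1, g1, ?_⟩
    show PowerSeries.coeff N (aeval (arc z) (u * F)) ≠ 0
    rw [g2]
    exact mul_ne_zero h0 h3

theorem zt_unit (u F : MvPolynomial (Fin n) ℂ) {W : Set (Pt ℂ (Fin n))}
    (hu : ∀ w ∈ W, aeval w u ≠ 0) : zt (u * F) W = zt F W := by
  ext N
  rw [zt, zt, PowerSeries.coeff_mk, PowerSeries.coeff_mk, jet_unit u F hu N]

/-! ### dummy variables -/

theorem arc_r3 {N : ℕ} (z : Pt ℂ (Fin (n + 3) × Fin (N + 1))) (F : MvPolynomial (Fin n) ℂ) :
    aeval (arc z) (r3 F) =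
      aeval (arc (fun p : Fin n × Fin (N + 1) => z (Fin.castAdd 3 p.1, p.2))) F := by
  unfold r3
  rw [aeval_rename]
  rfl

theorem chi_r3 {R : Type} [CommRing R] (M : Meas ℂ R) (F : MvPolynomial (Fin n) ℂ)
    {W : Set (Pt ℂ (Fin n))} (hW : Constr W) (N : ℕ) :
    M.χ _ (JetG (r3 F) (W3 W) (Un ℂ) N) = M.χ _ (JetG F W (Un ℂ) N) * M.L ^ (3 * N) := by
  classical
  set F1 : Finset (Fin (n + 3) × Fin (N + 1)) :=
    (Finset.univ.map (Fin.natAddEmb n)) ×ˢ (Finset.univ.erase 0) with hF1
  have hmem : ∀ (j : Fin (n + 3)) (l : Fin (N + 1)), (j, l) ∈ F1 ↔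
      (∃ c : Fin 3, Fin.natAdd n c = j) ∧ l ≠ 0 := by
    intro j l
    rw [hF1, Finset.mem_product, Finset.mem_map, Finset.mem_erase]
    simp
  have hcard : F1.card = 3 * N := by
    rw [hF1, Finset.card_product, Finset.card_map, Finset.card_univ, Fintype.card_fin,
      Finset.card_erase_of_mem (Finset.mem_univ _), Finset.card_univ, Fintype.card_fin,
      Nat.add_sub_cancel]
  have hco := constr_JetE (r3 F) (constr_W3 hW) ce_Un N
  have h1 := Pool.Agent.W417.MT.Free.free_one (M := M) F1 (fun _ => (0 : ℂ)) _ hco (by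
    intro z w h hz
    obtain ⟨g1, g2, g3⟩ := hz
    have e0 : (fun i => w (i, (0 : Fin (N + 1)))) = fun i => z (i, 0) := by
      funext i
      exact h _ fun h' => ((hmem _ _).1 h').2 rfl
    have e1 : (fun p : Fin n × Fin (N + 1) => w (Fin.castAdd 3 p.1, p.2)) =
        fun p => z (Fin.castAdd 3 p.1, p.2) := by
      funext p
      refine h _ fun h' => ?_
      obtain ⟨c, hc⟩ := ((hmem _ _).1 h').1
      exact cn3 p.1 c hc.symm
    have e2 : aeval (arc w) (r3 F) = aeval (arc z) (r3 F) := by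
      rw [arc_r3, arc_r3, e1]
    refine ⟨?_, ?_, ?_⟩
    · rw [e0]
      exact g1
    · rw [e2]
      exact g2
    · rw [e2]
      exact g3)
  rw [h1, hcard]
  congr 1
  refine M.iso _ _ (hco.inter (Constr.all fun p => Constr.imp' fun _ =>
    Constr.eq (IsPF.coord p) (IsPF.const _))) (constr_JetE F hW ce_Un N)
    (fun z p => z (Fin.castAdd 3 p.1, p.2))
    (fun w p => ext3 (fun i => w (i, p.2)) (fun _ => if p.2 = 0 then 1 else 0) p.1)
    (regularOn_poly (fun p => IsPF.coord _) _) (regularOn_poly (fun p => ?_) _) ?_ ?_ ?_ ?_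
  · obtain ⟨j, l⟩ := p
    refine Fin.addCases (fun k => ?_) (fun c => ?_) j
    · simp only [ext3_x]
      exact IsPF.coord _
    · simp only [ext3_z]
      by_cases hl : l = 0
      · simp only [if_pos hl]
        exact IsPF.one
      · simp only [if_neg hl]
        exact IsPF.zero
  · rintro z ⟨⟨g1, g2, g3⟩, -⟩
    refine ⟨g1.1, ?_, ?_⟩
    · rw [arc_r3] at g2
      exact g2
    · rw [arc_r3] at g3
      exact g3
  · intro w hw
    obtain ⟨g1, g2, g3⟩ := hw
    have e : (fun p : Fin n × Fin (N + 1) => ext3 (fun i => w (i, p.2))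
        (fun _ => if p.2 = 0 then (1 : AlgebraicClosure ℂ) else 0) (Fin.castAdd 3 p.1)) = w := by
      funext p
      rw [ext3_x]
    refine ⟨⟨⟨?_, ?_⟩, ?_, ?_⟩, ?_⟩
    · have e2 : (fun i : Fin n => ext3 (fun i => w (i, (0 : Fin (N + 1))))
          (fun _ => if (0 : Fin (N + 1)) = 0 then (1 : AlgebraicClosure ℂ) else 0)
          (Fin.castAdd 3 i)) = fun i => w (i, 0) := by
        funext i
        rw [ext3_x]
      rw [← e2] at g1
      exact g1
    · intro c
      show ext3 (fun i => w (i, (0 : Fin (N + 1))))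
          (fun _ => if (0 : Fin (N + 1)) = 0 then (1 : AlgebraicClosure ℂ) else 0)
          (Fin.natAdd n c) = 1
      rw [ext3_z, if_pos rfl]
    · rw [arc_r3, e]
      exact g2
    · rw [arc_r3, e]
      exact g3
    · rintro ⟨j, l⟩ hp
      obtain ⟨⟨c, rfl⟩, hl⟩ := (hmem _ _).1 hp
      show ext3 (fun i => w (i, l)) (fun _ => if l = 0 then (1 : AlgebraicClosure ℂ) else 0)
        (Fin.natAdd n c) = _
      rw [ext3_z, if_neg hl, map_zero]
  · rintro z ⟨⟨g1, -, -⟩, g4⟩
    funext p
    obtain ⟨j, l⟩ := p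
    refine Fin.addCases (fun k => ?_) (fun c => ?_) j
    · show ext3 (fun i => z (Fin.castAdd 3 i, l)) _ (Fin.castAdd 3 k) = _
      rw [ext3_x]
    · show ext3 (fun i => z (Fin.castAdd 3 i, l)) (fun _ => if l = 0 then 1 else 0)
        (Fin.natAdd n c) = z (Fin.natAdd n c, l)
      rw [ext3_z]
      by_cases hl : l = 0
      · rw [if_pos hl, hl]
        exact (g1.2 c).symm
      · rw [if_neg hl]
        have := g4 (Fin.natAdd n c, l) ((hmem _ _).2 ⟨⟨c, rfl⟩, hl⟩)
        rw [this, map_zero]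
  · intro w _
    funext p
    show ext3 (fun i => w (i, p.2)) _ (Fin.castAdd 3 p.1) = w p
    rw [ext3_x]

theorem zt_r3 (F : MvPolynomial (Fin n) ℂ) {W : Set (Pt ℂ (Fin n))} (hW : Constr W) :
    zt (r3 F) (W3 W) = zt F W := by
  obtain ⟨M, hM, hL⟩ := clM_full ℂ
  ext N
  rw [zt, zt, PowerSeries.coeff_mk, PowerSeries.coeff_mk, ← hM, ← hM, chi_r3 M F hW N, hL]
  have e1 : (-(((n + 3) * N : ℕ) : ℤ)) = -((3 * N : ℕ) : ℤ) + -((n * N : ℕ) : ℤ) := by
    push_cast
    ring
  have e2 : ((Lu ℂ : (MK ℂ)ˣ) : MK ℂ) ^ (3 * N) * (((Lu ℂ) ^ (-((3 * N : ℕ) : ℤ)) :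
      (MK ℂ)ˣ) : MK ℂ) = 1 := by
    rw [← Units.val_pow_eq_pow_val, ← Units.val_mul, zpow_neg, zpow_natCast, mul_inv_cancel,
      Units.val_one]
  rw [e1, zpow_add, Units.val_mul]
  linear_combination (M.χ (Fin n × Fin (N + 1)) (JetG F W (Un ℂ) N) *
    (((Lu ℂ) ^ (-((n * N : ℕ) : ℤ)) : (MK ℂ)ˣ) : MK ℂ)) * e2

/-- **The zeta function of the homogenisation.** -/
theorem zt_ho (col : Fin n → Fin 3) (f : MvPolynomial (Fin n) ℂ)
    (hf : ∀ m ∈ f.support, ∀ c, sc col c m ≤ 1) {W : Set (Pt ℂ (Fin n))} (hW : Constr W) :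
    zt (ho col f) (W3 W) = zt f W := by
  rw [← zt_sg col (ho col f) hW Finset.univ, sg_ho col f hf, zt_unit, zt_r3 f hW]
  intro w hw
  unfold ZZ
  rw [map_prod]
  refine Finset.prod_ne_zero_iff.2 fun c _ => ?_
  rw [aeval_X, hw.2]
  exact one_ne_zero

end

end Pool.Agent.V7H32.GL
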