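import Pool.Agent.V7H32.GL.Lin
import Pool.Agent.V7H32.GL.DM2
import Pool.Agent.N101.CB.Main

/-!
# The motivic zeta function of `f + y (u g - 1)`
-/

set_option autoImplicit false

namespace Pool.Agent.V7H32.GL

open MvPolynomial Pool.Agent.W428.MOT Pool.Agent.W375.MT Pool.Agent.Y229.MS
open Pool.Agent.W375.MG (JetG Good)
open Pool.Agent.Z864.MS (Tm isPF_Tm coeff_Tm coeff_zero_aeval constr_JetE aeval_cmp)
open Pool.Agent.N101.CB
open Pool.Agent.W63.MTFin (geo_mul)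

section
variable {K : Type} [Field K] {n : ℕ}

/-- the open set `g ≠ 0` -/
def Dg (g : MvPolynomial (Fin n) K) : Set (Pt K (Fin n)) := {z | aeval z g ≠ 0}

theorem constr_Dg (g : MvPolynomial (Fin n) K) : Constr (Dg g) := (Constr.eqz (IsPF.poly g)).not

/-- additivity in the set of origins -/
theorem zt_add [CharZero K] (f : MvPolynomial (Fin n) K) {W W' : Set (Pt K (Fin n))}
    (hW : Constr W) (hW' : Constr W') (h : Disjoint W W') :
    zt f (W ∪ W') = zt f W + zt f W' := by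
  obtain ⟨M, hM⟩ := clM_meas K
  ext N
  rw [map_add, zt, zt, zt, PowerSeries.coeff_mk, PowerSeries.coeff_mk, PowerSeries.coeff_mk,
    ← hM, ← hM, ← hM]
  have e : JetG f (W ∪ W') (Un K) N = JetG f W (Un K) N ∪ JetG f W' (Un K) N := by
    ext z
    constructor
    · rintro ⟨h1 | h1, h2⟩
      · exact Or.inl ⟨h1, h2⟩
      · exact Or.inr ⟨h1, h2⟩
    · rintro (⟨h1, h2⟩ | ⟨h1, h2⟩)
      · exact ⟨Or.inl h1, h2⟩
      · exact ⟨Or.inr h1, h2⟩
  rw [e, M.add _ _ (constr_JetE f hW ce_Un N) (constr_JetE f hW' ce_Un N), add_mul]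
  rw [Set.disjoint_left]
  rintro z ⟨h1, -⟩ ⟨h2, -⟩
  exact Set.disjoint_left.1 h h1 h2

/-- `𝕃⁻¹ ^ N` as the coefficients of a geometric series -/
theorem geo_series (c : MK K) : PowerSeries.mk (fun N : ℕ => c * (((Lu K)⁻¹ : (MK K)ˣ) : MK K) ^ N) =
    PowerSeries.C c * geo K (-1) 1 := by
  have hg := geo_mul (K := K) (-1) 1 one_pos
  rw [show (1 : ℤ).toNat = 1 from rfl, zpow_neg_one, pow_one] at hg
  have h1 : (1 - PowerSeries.C (((Lu K)⁻¹ : (MK K)ˣ) : MK K) * PowerSeries.X) *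
      PowerSeries.mk (fun N : ℕ => c * (((Lu K)⁻¹ : (MK K)ˣ) : MK K) ^ N) = PowerSeries.C c := by
    ext N
    rw [sub_mul, one_mul, map_sub, mul_assoc, PowerSeries.coeff_C_mul]
    rcases N with _ | N
    · rw [PowerSeries.coeff_zero_X_mul, PowerSeries.coeff_mk, PowerSeries.coeff_zero_C]
      ring
    · rw [PowerSeries.coeff_succ_X_mul, PowerSeries.coeff_mk, PowerSeries.coeff_mk,
        PowerSeries.coeff_C, if_neg (Nat.succ_ne_zero N)]
      ring
  calc _ = ((1 - PowerSeries.C (((Lu K)⁻¹ : (MK K)ˣ) : MK K) * PowerSeries.X) * geo K (-1) 1) *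
      PowerSeries.mk (fun N : ℕ => c * (((Lu K)⁻¹ : (MK K)ˣ) : MK K) ^ N) := by rw [hg, one_mul]
    _ = _ := by rw [mul_assoc, mul_comm (geo K (-1) 1), ← mul_assoc, h1]

/-- `(𝕃 - 1) / (1 - 𝕃⁻¹ T)` -/
theorem cL_F : (cL K - 1) * geo K (-1) 1 = cL K - 1 + Fz K 1 1 := by
  have hg := geo_mul (K := K) (-1) 1 one_pos
  rw [show (1 : ℤ).toNat = 1 from rfl, zpow_neg_one, pow_one] at hg
  have hF : Fz K 1 1 = (cL K - 1) *
      (PowerSeries.C (((Lu K)⁻¹ : (MK K)ˣ) : MK K) * PowerSeries.X) * geo K (-1) 1 := by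
    unfold Fz cL
    rw [map_sub, map_one, Nat.cast_one, zpow_neg_one, pow_one]
  rw [hF]
  linear_combination (cL K - 1) * hg

/-- the zeta function of a coordinate -/
theorem zt_lin [CharZero K] {V : Set (Pt K (Fin n))} (hV : Constr V) :
    zt (X (Fin.natAdd n 0) : MvPolynomial (Fin (n + 2)) K) (Wyz V) =
      PowerSeries.C (clM V * ((Lu K : (MK K)ˣ) : MK K)) * (cL K - 1 + Fz K 1 1) := by
  obtain ⟨M, hM, hL⟩ := clM_full K
  have h1 : zt (X (Fin.natAdd n 0) : MvPolynomial (Fin (n + 2)) K) (Wyz V) =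
      PowerSeries.mk (fun N : ℕ => (clM V * ((Lu K : (MK K)ˣ) : MK K) *
        (((Lu K : (MK K)ˣ) : MK K) - 1)) * (((Lu K)⁻¹ : (MK K)ˣ) : MK K) ^ N) := by
    ext N
    rw [zt, PowerSeries.coeff_mk, PowerSeries.coeff_mk, ← hM, chi_lin M hV ce_Un N]
    have h2 : M.χ (Fin 1) {a | a 0 ∈ Un K} = M.L - 1 := Pool.Agent.W417.MT.Free.chi_gm (M := M)
    rw [h2, hM, hL, zpow_neg, zpow_natCast, ← inv_pow, Units.val_pow_eq_pow_val]
    have h3 : ((Lu K : (MK K)ˣ) : MK K) * (((Lu K)⁻¹ : (MK K)ˣ) : MK K) = 1 := Units.mul_inv _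
    have h4 : ((Lu K : (MK K)ˣ) : MK K) ^ ((n + 1) * N) *
        (((Lu K)⁻¹ : (MK K)ˣ) : MK K) ^ ((n + 1) * N) = 1 := by
      rw [← mul_pow, h3, one_pow]
    have e1 : (n + 2) * N = (n + 1) * N + N := by ring
    have e2 : ((Lu K : (MK K)ˣ) : MK K) ^ (n * N) * ((Lu K : (MK K)ˣ) : MK K) ^ (N + 1) =
        ((Lu K : (MK K)ˣ) : MK K) ^ ((n + 1) * N) * ((Lu K : (MK K)ˣ) : MK K) := by
      rw [← pow_add, ← pow_succ]
      congr 1
      ring
    rw [e1, pow_add]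
    linear_combination ((((Lu K : (MK K)ˣ) : MK K) - 1) * clM V *
      ((((Lu K)⁻¹ : (MK K)ˣ) : MK K) ^ ((n + 1) * N) * (((Lu K)⁻¹ : (MK K)ˣ) : MK K) ^ N)) * e2 +
      ((((Lu K : (MK K)ˣ) : MK K) - 1) * clM V * ((Lu K : (MK K)ˣ) : MK K) *
        (((Lu K)⁻¹ : (MK K)ˣ) : MK K) ^ N) * h4
  rw [h1, geo_series, ← cL_F, map_mul PowerSeries.C _ (((Lu K : (MK K)ˣ) : MK K) - 1), map_sub,
    map_one]
  unfold cL
  ring

end

section
variable {n : ℕ} (f g : MvPolynomial (Fin n) ℂ)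

theorem rnPt (w : Fin (n + 2) → PowerSeries (AlgebraicClosure ℂ)) (p : MvPolynomial (Fin n) ℂ) :
    aeval w (rename (Fin.castAdd 2) p) = aeval (fun i => w (Fin.castAdd 2 i)) p := by
  rw [aeval_rename]
  rfl

theorem indep_rn (p : MvPolynomial (Fin n) ℂ) (j : Fin 2) :
    Indep (Fin.natAdd n j) (rename (Fin.castAdd 2) p) := by
  intro γ γ' h
  rw [rnPt, rnPt]
  congr 1
  congr 1
  funext i
  exact h _ (castAdd_ne' i j)

/-- the substitution `y ↦ (u g - 1) y + f` -/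
noncomputable def tb : MvPolynomial (Fin (n + 2)) ℂ →ₐ[ℂ] MvPolynomial (Fin (n + 2)) ℂ :=
  aeval (Fin.addCases (fun i => X (Fin.castAdd 2 i))
    ![(X (Fin.natAdd n 1) * rename (Fin.castAdd 2) g - 1) * X (Fin.natAdd n 0) +
      rename (Fin.castAdd 2) f, X (Fin.natAdd n 1)])

theorem tb_x (i : Fin n) : tb f g (X (Fin.castAdd 2 i)) = X (Fin.castAdd 2 i) := by
  unfold tb
  rw [aeval_X, Fin.addCases_left]

theorem tb_y : tb f g (X (Fin.natAdd n 0)) =
    (X (Fin.natAdd n 1) * rename (Fin.castAdd 2) g - 1) * X (Fin.natAdd n 0) +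
      rename (Fin.castAdd 2) f := by
  unfold tb
  rw [aeval_X, Fin.addCases_right]
  rfl

theorem tb_u : tb f g (X (Fin.natAdd n 1)) = X (Fin.natAdd n 1) := by
  unfold tb
  rw [aeval_X, Fin.addCases_right]
  rfl

theorem tb_y' : tb f g (X (Fin.natAdd n 0)) = yug f g := by
  rw [tb_y, yug]
  ring

theorem fin2 (j : Fin 2) : j = 0 ∨ j = 1 := by omega

theorem ta_off : ∀ i : Fin (n + 2), i ≠ Fin.natAdd n 1 → ta g (X i) = X i := by
  intro i
  refine Fin.addCases (fun i _ => ta_x g i) (fun j => ?_) i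
  intro h
  rcases fin2 j with rfl | rfl
  · exact ta_y g
  · exact absurd rfl h

theorem ta_z' : ta g (X (Fin.natAdd n 1)) =
    rename (Fin.castAdd 2) g * X (Fin.natAdd n 1) + (-1) := by
  rw [ta_z]
  ring

theorem indep_neg : Indep (Fin.natAdd n 1) (-1 : MvPolynomial (Fin (n + 2)) ℂ) := by
  intro γ γ' _
  rw [map_neg, map_neg, map_one, map_one]

theorem pt_rn (w : Pt ℂ (Fin (n + 2))) : aeval w (rename (Fin.castAdd 2) g) =
      aeval (fun i => w (Fin.castAdd 2 i)) g := by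
  rw [aeval_rename]
  rfl

theorem ne_rn : ∀ w ∈ Wyz (Dg g), aeval w (rename (Fin.castAdd 2) g) ≠ 0 := by
  intro w hw
  rw [pt_rn]
  exact hw

theorem set_open : {w | aeval w (rename (Fin.castAdd 2) g) ≠ 0 ∧
    (fun i => aeval w (ta g (X i))) ∈ Wyz (Dg g)} = Wyz (Dg g) := by
  ext w
  have e : (fun i => aeval w (ta g (X (Fin.castAdd 2 i)))) = fun i => w (Fin.castAdd 2 i) := by
    funext i
    rw [ta_x, aeval_X]
  constructor
  · rintro ⟨-, hw⟩
    have hw' : (fun i => aeval w (ta g (X (Fin.castAdd 2 i)))) ∈ Dg g := hw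
    rw [e] at hw'
    exact hw'
  · intro hw
    refine ⟨ne_rn g w hw, ?_⟩
    show (fun i => aeval w (ta g (X (Fin.castAdd 2 i)))) ∈ Dg g
    rw [e]
    exact hw

/-- the part `g ≠ 0` -/
theorem zt_open : zt (yug f g) (Wyz (Dg g)) = zt (addyz f) (Wyz (Dg g)) := by
  obtain ⟨M, hM⟩ := clM_meas ℂ
  have h4 : ∀ N, M.χ _ (JetG (yug f g) (Wyz (Dg g)) (Un ℂ) N) =
      M.χ _ (JetG (addyz f) (Wyz (Dg g)) (Un ℂ) N) := by
    intro N
    have h3 := mulJ M (ta_off g) (ta_z' g) (indep_rn g 1) indep_neg (addyz f)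
      (constrWyz (constr_Dg g)) ce_Un (ne_rn g) N
    rw [ta_addyz, set_open] at h3
    exact h3
  ext N
  rw [zt, zt, PowerSeries.coeff_mk, PowerSeries.coeff_mk, ← hM, ← hM, h4]

/-- the part `g = 0` -/
theorem zt_closed : zt (yug f g) (Wyz (Dg g)ᶜ) =
    zt (X (Fin.natAdd n 0) : MvPolynomial (Fin (n + 2)) ℂ) (Wyz (Dg g)ᶜ) := by
  obtain ⟨M, hM⟩ := clM_meas ℂ
  ext N
  rw [zt, zt, PowerSeries.coeff_mk, PowerSeries.coeff_mk, ← hM, ← hM]
  congr 1
  have h1 : ∀ i : Fin (n + 2), i ≠ Fin.natAdd n 0 → tb f g (X i) = X i := by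
    intro i
    refine Fin.addCases (fun i _ => tb_x f g i) (fun j => ?_) i
    intro h
    rcases fin2 j with rfl | rfl
    · exact absurd rfl h
    · exact tb_u f g
  have hc : Indep (Fin.natAdd n 0) (X (Fin.natAdd n 1) * rename (Fin.castAdd 2) g - 1 :
      MvPolynomial (Fin (n + 2)) ℂ) := by
    intro γ γ' h
    rw [map_sub, map_sub, map_mul, map_mul, map_one, map_one, aeval_X, aeval_X,
      indep_rn g 0 γ γ' h, h _ nat01.symm]
  have hne : ∀ w ∈ Wyz (Dg g)ᶜ, aeval w (X (Fin.natAdd n 1) * rename (Fin.castAdd 2) g - 1 :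
      MvPolynomial (Fin (n + 2)) ℂ) ≠ 0 := by
    intro w hw
    have h2 : aeval (fun i => w (Fin.castAdd 2 i)) g = 0 := by
      by_contra h3
      exact hw h3
    have h3 : aeval w (rename (Fin.castAdd 2) g) = aeval (fun i => w (Fin.castAdd 2 i)) g := by
      rw [aeval_rename]
      rfl
    rw [map_sub, map_mul, h3, h2, mul_zero, map_one, zero_sub]
    exact neg_ne_zero.2 one_ne_zero
  have h3 := mulJ M h1 (tb_y f g) hc (indep_rn f 0)
    (X (Fin.natAdd n 0)) (constrWyz (constr_Dg g).compl) ce_Un hne N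
  rw [tb_y'] at h3
  rw [← h3]
  congr 2
  ext w
  have e : (fun i => aeval w (tb f g (X (Fin.castAdd 2 i)))) = fun i => w (Fin.castAdd 2 i) := by
    funext i
    rw [tb_x, aeval_X]
  constructor
  · intro hw
    refine ⟨hne w hw, ?_⟩
    show (fun i => aeval w (tb f g (X (Fin.castAdd 2 i)))) ∈ (Dg g)ᶜ
    rw [e]
    exact hw
  · rintro ⟨-, hw⟩
    have hw' : (fun i => aeval w (tb f g (X (Fin.castAdd 2 i)))) ∈ (Dg g)ᶜ := hw
    rw [e] at hw'
    exact hw'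

/-- **The motivic zeta function of `f + y (u g - 1)`.** -/
theorem zt_yug : zt (yug f g) Set.univ =
    PowerSeries.C (clM (Dg g)) * (cL ℂ - 1 + Fz ℂ 1 1) ^ 2 +
      (1 - Fz ℂ 1 1) * (cL ℂ + Fz ℂ 1 1) *
        PowerSeries.rescale (((Lu ℂ)⁻¹ : (MK ℂ)ˣ) : MK ℂ) (zt f (Dg g)) +
      PowerSeries.C (clM (Dg g)ᶜ * ((Lu ℂ : (MK ℂ)ˣ) : MK ℂ)) * (cL ℂ - 1 + Fz ℂ 1 1) := by
  have e : (Set.univ : Set (Pt ℂ (Fin (n + 2)))) = Wyz (Dg g) ∪ Wyz (Dg g)ᶜ := by
    ext w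
    simp only [Set.mem_univ, Set.mem_union, true_iff]
    exact em _
  rw [e, zt_add _ (constrWyz (constr_Dg g)) (constrWyz (constr_Dg g).compl), zt_open, zt_closed,
    idd ℂ f _ (constr_Dg g), zt_lin (constr_Dg g).compl]
  rw [Set.disjoint_left]
  intro w h1 h2
  exact h2 h1

end

end Pool.Agent.V7H32.GL
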